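import Mathlib

/-!
Singular value decomposition of a real matrix, in coordinates.
-/

set_option autoImplicit false

namespace Pool.Agent.H562R2

open Finset

variable {κ ι : Type} [Fintype κ] [DecidableEq κ] [Fintype ι]

/-- Spectral theorem for a real symmetric matrix, in coordinates. -/
theorem exists_eigB (M : Matrix κ κ ℝ) (hM : M.IsHermitian) :
    ∃ (b : κ → κ → ℝ),
      (∀ i j, ∑ l, b i l * b j l = if i = j then 1 else 0) ∧
      (∀ l m, ∑ i, b i l * b i m = if l = m then 1 else 0) ∧
      (∀ i l, ∑ m, M l m * b i m = hM.eigenvalues i * b i l) := by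
  classical
  refine ⟨fun i => ⇑(hM.eigenvectorBasis i), ?_, ?_, ?_⟩
  · intro i j
    have h := hM.eigenvectorBasis.orthonormal
    rw [orthonormal_iff_ite] at h
    have h2 := h i j
    rw [← h2]
    simp [EuclideanSpace.inner_eq_star_dotProduct, dotProduct, mul_comm]
  · intro l m
    have h := (Matrix.mem_unitaryGroup_iff.mp (hM.eigenvectorUnitary).2)
    have h2 := congrFun (congrFun h l) m
    simp only [Matrix.mul_apply, Matrix.star_apply, Matrix.one_apply] at h2
    rw [← h2]
    apply Finset.sum_congr rfl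
    intro i _
    simp [Matrix.IsHermitian.eigenvectorUnitary_apply]
  · intro i l
    have h := hM.mulVec_eigenvectorBasis i
    have h2 := congrFun h l
    simpa [Matrix.mulVec, dotProduct] using h2

/-- Singular value decomposition of `X : ι × κ → ℝ`, in coordinates. -/
theorem exists_svd (X : ι → κ → ℝ) :
    ∃ (σ : κ → ℝ) (a : κ → ι → ℝ) (b : κ → κ → ℝ),
      (∀ i, 0 ≤ σ i) ∧
      (∀ i j, ∑ l, b i l * b j l = if i = j then 1 else 0) ∧
      (∀ l m, ∑ i, b i l * b i m = if l = m then 1 else 0) ∧
      (∀ i j, i ≠ j → ∑ k, a i k * a j k = 0) ∧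
      (∀ i, (σ i = 0 ∧ ∀ k, a i k = 0) ∨ ∑ k, a i k * a i k = 1) ∧
      (∀ k l, X k l = ∑ i, σ i * a i k * b i l) := by
  classical
  let M : Matrix κ κ ℝ := fun l m => ∑ k, X k l * X k m
  have hM : M.IsHermitian := by
    ext l m
    simp only [M, Matrix.conjTranspose_apply, star_trivial]
    exact Finset.sum_congr rfl fun k _ => mul_comm _ _
  obtain ⟨b, hb1, hb2, hb3⟩ := exists_eigB M hM
  set μ := hM.eigenvalues with hμ
  -- `y i = X (b i)`
  let y : κ → ι → ℝ := fun i k => ∑ l, X k l * b i l
  have hyy : ∀ i j, ∑ k, y i k * y j k = if i = j then μ i else 0 := by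
    intro i j
    have : ∑ k, y i k * y j k = ∑ l, b j l * ∑ m, M l m * b i m := by
      calc ∑ k, y i k * y j k
          = ∑ k, ∑ l, ∑ m, b j l * (X k l * X k m * b i m) := by
            refine Finset.sum_congr rfl fun k _ => ?_
            simp only [y]
            rw [Finset.sum_mul_sum, Finset.sum_comm]
            exact Finset.sum_congr rfl fun l _ => Finset.sum_congr rfl fun m _ => by ring
        _ = ∑ l, ∑ k, ∑ m, b j l * (X k l * X k m * b i m) := Finset.sum_comm
        _ = ∑ l, ∑ m, ∑ k, b j l * (X k l * X k m * b i m) :=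
            Finset.sum_congr rfl fun l _ => Finset.sum_comm
        _ = ∑ l, b j l * ∑ m, M l m * b i m := by
            refine Finset.sum_congr rfl fun l _ => ?_
            rw [Finset.mul_sum]
            refine Finset.sum_congr rfl fun m _ => ?_
            simp only [M]
            rw [Finset.sum_mul, Finset.mul_sum]
    rw [this]
    simp only [hb3]
    have : ∑ l, b j l * (μ i * b i l) = μ i * ∑ l, b i l * b j l := by
      rw [Finset.mul_sum]
      exact Finset.sum_congr rfl fun l _ => by ring
    rw [this, hb1]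
    by_cases h : i = j
    · simp [h]
    · simp [h]
  have hμ0 : ∀ i, 0 ≤ μ i := by
    intro i
    have := hyy i i
    rw [if_pos rfl] at this
    rw [← this]
    exact Finset.sum_nonneg fun k _ => mul_self_nonneg _
  have hX : ∀ k l, X k l = ∑ i, y i k * b i l := by
    intro k l
    simp only [y, Finset.sum_mul]
    rw [Finset.sum_comm]
    have : ∀ m, ∑ i, X k m * b i m * b i l = X k m * (if m = l then 1 else 0) := by
      intro m
      rw [← hb2 m l, Finset.mul_sum]
      exact Finset.sum_congr rfl fun i _ => by ring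
    simp only [this]
    simp
  refine ⟨fun i => Real.sqrt (μ i), fun i k => (Real.sqrt (μ i))⁻¹ * y i k, b,
    fun i => Real.sqrt_nonneg _, hb1, hb2, ?_, ?_, ?_⟩
  · intro i j hij
    have : ∑ k, (Real.sqrt (μ i))⁻¹ * y i k * ((Real.sqrt (μ j))⁻¹ * y j k) =
        (Real.sqrt (μ i))⁻¹ * (Real.sqrt (μ j))⁻¹ * ∑ k, y i k * y j k := by
      rw [Finset.mul_sum]
      exact Finset.sum_congr rfl fun k _ => by ring
    rw [this, hyy, if_neg hij, mul_zero]
  · intro i
    by_cases h : μ i = 0
    · left
      refine ⟨by simp [h], fun k => by simp [h]⟩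
    · right
      have hpos : 0 < μ i := lt_of_le_of_ne (hμ0 i) (Ne.symm h)
      have : ∑ k, (Real.sqrt (μ i))⁻¹ * y i k * ((Real.sqrt (μ i))⁻¹ * y i k) =
          (Real.sqrt (μ i))⁻¹ * (Real.sqrt (μ i))⁻¹ * ∑ k, y i k * y i k := by
        rw [Finset.mul_sum]
        exact Finset.sum_congr rfl fun k _ => by ring
      rw [this, hyy, if_pos rfl, ← mul_inv, Real.mul_self_sqrt (hμ0 i), inv_mul_cancel₀ h]
  · intro k l
    rw [hX k l]
    refine Finset.sum_congr rfl fun i _ => ?_
    by_cases h : μ i = 0
    · have hy : y i k = 0 := by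
        have h1 := hyy i i
        rw [if_pos rfl, h] at h1
        have := (Finset.sum_eq_zero_iff_of_nonneg (fun k _ => mul_self_nonneg (y i k))).mp h1 k
          (Finset.mem_univ k)
        exact mul_self_eq_zero.mp this
      simp [hy, h]
    · have hpos : 0 < μ i := lt_of_le_of_ne (hμ0 i) (Ne.symm h)
      have hs : Real.sqrt (μ i) ≠ 0 := (Real.sqrt_pos.mpr hpos).ne'
      rw [← mul_assoc, mul_inv_cancel₀ hs, one_mul]

end Pool.Agent.H562R2
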