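import Mathlib
import Pool.Agent.H562R2.Svd

/-!
The matrix absolute value `|X^T| = (X X^T)^{1/2}` in coordinates and the inequality
`2 tr (X^T Y) ≤ tr (|X^T| |Y^T|) + (‖X‖² + ‖Y‖²) / 2`.
-/

set_option autoImplicit false

namespace Pool.Agent.H562R2

open Finset

section

variable {κ κ' ι : Type} [Fintype κ] [Fintype κ'] [Fintype ι]

/-- Expansion of the Frobenius inner product of two sums of rank one matrices. -/
theorem frob_expand {α β : Type} [Fintype α] [Fintype β] (σ : α → ℝ) (τ : β → ℝ)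
    (a : α → ι → ℝ) (c : β → ι → ℝ) (b : α → κ' → ℝ) (d : β → κ' → ℝ) :
    ∑ k, ∑ l, (∑ i, σ i * a i k * b i l) * (∑ j, τ j * c j k * d j l) =
      ∑ i, ∑ j, σ i * τ j * ((∑ k, a i k * c j k) * (∑ l, b i l * d j l)) := by
  have h1 : ∀ k l, (∑ i, σ i * a i k * b i l) * (∑ j, τ j * c j k * d j l) =
      ∑ i, ∑ j, σ i * τ j * ((a i k * c j k) * (b i l * d j l)) := by
    intro k l
    rw [Finset.sum_mul_sum]
    exact Finset.sum_congr rfl fun i _ => Finset.sum_congr rfl fun j _ => by ring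
  have h2 : ∀ i j, σ i * τ j * ((∑ k, a i k * c j k) * (∑ l, b i l * d j l)) =
      ∑ k, ∑ l, σ i * τ j * ((a i k * c j k) * (b i l * d j l)) := by
    intro i j
    rw [Finset.sum_mul_sum, Finset.mul_sum]
    exact Finset.sum_congr rfl fun k _ => by rw [Finset.mul_sum]
  simp only [h1, h2]
  calc ∑ k, ∑ l, ∑ i, ∑ j, σ i * τ j * (a i k * c j k * (b i l * d j l))
      = ∑ k, ∑ i, ∑ l, ∑ j, σ i * τ j * (a i k * c j k * (b i l * d j l)) :=
        Finset.sum_congr rfl fun k _ => Finset.sum_comm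
    _ = ∑ i, ∑ k, ∑ l, ∑ j, σ i * τ j * (a i k * c j k * (b i l * d j l)) := Finset.sum_comm
    _ = ∑ i, ∑ k, ∑ j, ∑ l, σ i * τ j * (a i k * c j k * (b i l * d j l)) :=
        Finset.sum_congr rfl fun i _ => Finset.sum_congr rfl fun k _ => Finset.sum_comm
    _ = ∑ i, ∑ j, ∑ k, ∑ l, σ i * τ j * (a i k * c j k * (b i l * d j l)) :=
        Finset.sum_congr rfl fun i _ => Finset.sum_comm

/-- Parseval for a complete orthonormal system. -/
theorem parseval_cols (b : κ → κ' → ℝ) [DecidableEq κ']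
    (hb : ∀ l m, ∑ i, b i l * b i m = if l = m then 1 else 0) (z : κ' → ℝ) :
    ∑ i, (∑ l, b i l * z l) ^ 2 = ∑ l, z l ^ 2 := by
  calc ∑ i, (∑ l, b i l * z l) ^ 2
      = ∑ i, ∑ l, ∑ m, (b i l * b i m) * (z l * z m) := by
        refine Finset.sum_congr rfl fun i _ => ?_
        rw [sq, Finset.sum_mul_sum]
        exact Finset.sum_congr rfl fun l _ => Finset.sum_congr rfl fun m _ => by ring
    _ = ∑ l, ∑ i, ∑ m, (b i l * b i m) * (z l * z m) := Finset.sum_comm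
    _ = ∑ l, ∑ m, ∑ i, (b i l * b i m) * (z l * z m) :=
        Finset.sum_congr rfl fun l _ => Finset.sum_comm
    _ = ∑ l, ∑ m, (if l = m then 1 else 0) * (z l * z m) := by
        refine Finset.sum_congr rfl fun l _ => Finset.sum_congr rfl fun m _ => ?_
        rw [← Finset.sum_mul, hb]
    _ = ∑ l, z l ^ 2 := by
        refine Finset.sum_congr rfl fun l _ => ?_
        simp [sq]

end

section

variable {κ ι : Type} [Fintype κ] [DecidableEq κ] [Fintype ι]

/-- The data of a singular value decomposition of `X`. -/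
structure Svd (X : ι → κ → ℝ) where
  σ : κ → ℝ
  a : κ → ι → ℝ
  b : κ → κ → ℝ
  σ0 : ∀ i, 0 ≤ σ i
  b1 : ∀ i j, ∑ l, b i l * b j l = if i = j then 1 else 0
  b2 : ∀ l m, ∑ i, b i l * b i m = if l = m then 1 else 0
  a1 : ∀ i j, i ≠ j → ∑ k, a i k * a j k = 0
  a2 : ∀ i, (σ i = 0 ∧ ∀ k, a i k = 0) ∨ ∑ k, a i k * a i k = 1
  hX : ∀ k l, X k l = ∑ i, σ i * a i k * b i l

/-- A chosen singular value decomposition. -/
noncomputable def svd (X : ι → κ → ℝ) : Svd X :=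
  let h := exists_svd X
  { σ := h.choose
    a := h.choose_spec.choose
    b := h.choose_spec.choose_spec.choose
    σ0 := h.choose_spec.choose_spec.choose_spec.1
    b1 := h.choose_spec.choose_spec.choose_spec.2.1
    b2 := h.choose_spec.choose_spec.choose_spec.2.2.1
    a1 := h.choose_spec.choose_spec.choose_spec.2.2.2.1
    a2 := h.choose_spec.choose_spec.choose_spec.2.2.2.2.1
    hX := h.choose_spec.choose_spec.choose_spec.2.2.2.2.2 }

/-- `|X^T|`, the positive square root of `X X^T`. -/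
noncomputable def absM (X : ι → κ → ℝ) (k l : ι) : ℝ :=
  ∑ i, (svd X).σ i * (svd X).a i k * (svd X).a i l

/-- Squared Frobenius norm. -/
noncomputable def nsq (X : ι → κ → ℝ) : ℝ := ∑ k, ∑ l, X k l ^ 2

omit [DecidableEq κ] in
theorem nsq_nonneg (X : ι → κ → ℝ) : 0 ≤ nsq X :=
  Finset.sum_nonneg fun _ _ => Finset.sum_nonneg fun _ _ => sq_nonneg _

theorem Svd.a_self {X : ι → κ → ℝ} (S : Svd X) (i : κ) :
    S.σ i * (∑ k, S.a i k * S.a i k) = S.σ i := by
  rcases S.a2 i with h | h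
  · rw [h.1]; simp
  · rw [h]; simp

theorem Svd.a_le {X : ι → κ → ℝ} (S : Svd X) (i : κ) :
    (∑ k, S.a i k * S.a i k) ≤ 1 := by
  rcases S.a2 i with h | h
  · simp [h.2]
  · rw [h]

theorem nsq_eq (X : ι → κ → ℝ) : nsq X = ∑ i, (svd X).σ i ^ 2 := by
  set S := svd X
  have h1 : nsq X = ∑ k, ∑ l, (∑ i, S.σ i * S.a i k * S.b i l) *
      (∑ j, S.σ j * S.a j k * S.b j l) := by
    refine Finset.sum_congr rfl fun k _ => Finset.sum_congr rfl fun l _ => ?_
    rw [← S.hX, sq]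
  rw [h1, frob_expand]
  refine Finset.sum_congr rfl fun i _ => ?_
  rw [Finset.sum_eq_single i]
  · rw [S.b1 i i, if_pos rfl, mul_one, mul_assoc, S.a_self, sq]
  · intro j _ hj
    rw [S.b1 i j, if_neg (Ne.symm hj)]; ring
  · intro h; exact absurd (Finset.mem_univ i) h

theorem nsq_absM (X : ι → κ → ℝ) : ∑ k, ∑ l, absM X k l ^ 2 = nsq X := by
  rw [nsq_eq]
  set S := svd X with hS
  have h1 : ∑ k, ∑ l, absM X k l ^ 2 = ∑ k, ∑ l, (∑ i, S.σ i * S.a i k * S.a i l) *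
      (∑ j, S.σ j * S.a j k * S.a j l) := by
    refine Finset.sum_congr rfl fun k _ => Finset.sum_congr rfl fun l _ => ?_
    rw [absM, sq]
  rw [h1, frob_expand]
  refine Finset.sum_congr rfl fun i _ => ?_
  rw [Finset.sum_eq_single i]
  · have : S.σ i * S.σ i * ((∑ k, S.a i k * S.a i k) * ∑ k, S.a i k * S.a i k) =
        (S.σ i * (∑ k, S.a i k * S.a i k)) * (S.σ i * (∑ k, S.a i k * S.a i k)) := by ring
    rw [this, S.a_self, sq]
  · intro j _ hj
    rw [S.a1 i j (Ne.symm hj)]; ring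
  · intro h; exact absurd (Finset.mem_univ i) h

/-- `|B x| = |X^T x|`. -/
theorem absM_mulVec (X : ι → κ → ℝ) (x : ι → ℝ) :
    ∑ k, (∑ l, absM X k l * x l) ^ 2 = ∑ m, (∑ k, X k m * x k) ^ 2 := by
  set S := svd X with hS
  -- both sides equal `∑ σ_i² ⟨a_i, x⟩²`
  have hL : ∀ k, ∑ l, absM X k l * x l = ∑ i, S.σ i * S.a i k * (∑ l, S.a i l * x l) := by
    intro k
    simp only [absM, Finset.sum_mul, Finset.mul_sum]
    rw [Finset.sum_comm]
    exact Finset.sum_congr rfl fun i _ => Finset.sum_congr rfl fun l _ => by ring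
  have hR : ∀ m, ∑ k, X k m * x k = ∑ i, S.σ i * S.b i m * (∑ l, S.a i l * x l) := by
    intro m
    simp only [Finset.mul_sum]
    rw [Finset.sum_comm]
    refine Finset.sum_congr rfl fun k _ => ?_
    rw [S.hX, Finset.sum_mul]
    exact Finset.sum_congr rfl fun i _ => by ring
  simp only [hL, hR]
  have e1 : ∑ k, (∑ i, S.σ i * S.a i k * (∑ l, S.a i l * x l)) ^ 2 =
      ∑ k, ∑ _l : Unit, (∑ i, S.σ i * S.a i k * (∑ l, S.a i l * x l)) *
        (∑ i, S.σ i * S.a i k * (∑ l, S.a i l * x l)) := by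
    simp [sq]
  have e2 : ∑ m, (∑ i, S.σ i * S.b i m * (∑ l, S.a i l * x l)) ^ 2 =
      ∑ m, ∑ _l : Unit, (∑ i, S.σ i * S.b i m * (∑ l, S.a i l * x l)) *
        (∑ i, S.σ i * S.b i m * (∑ l, S.a i l * x l)) := by
    simp [sq]
  rw [e1, e2]
  rw [frob_expand (κ' := Unit) S.σ S.σ S.a S.a (fun i _ => ∑ l, S.a i l * x l)
    (fun i _ => ∑ l, S.a i l * x l)]
  rw [frob_expand (κ' := Unit) S.σ S.σ S.b S.b (fun i _ => ∑ l, S.a i l * x l)
    (fun i _ => ∑ l, S.a i l * x l)]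
  refine Finset.sum_congr rfl fun i _ => ?_
  rw [Finset.sum_eq_single i, Finset.sum_eq_single i]
  · rw [S.b1 i i, if_pos rfl]
    have : S.σ i * S.σ i * ((∑ k, S.a i k * S.a i k) *
        ∑ _l : Unit, (∑ l, S.a i l * x l) * ∑ l, S.a i l * x l) =
        S.σ i * (S.σ i * (∑ k, S.a i k * S.a i k)) *
        (∑ _l : Unit, (∑ l, S.a i l * x l) * ∑ l, S.a i l * x l) := by ring
    rw [this, S.a_self]; ring
  · intro j _ hj
    rw [S.b1 i j, if_neg (Ne.symm hj)]; ring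
  · intro h; exact absurd (Finset.mem_univ i) h
  · intro j _ hj
    rw [S.a1 i j (Ne.symm hj)]; ring
  · intro h; exact absurd (Finset.mem_univ i) h

/-- The key inequality. -/
theorem absM_key (X Y : ι → κ → ℝ) (π : Equiv.Perm κ) :
    2 * ∑ k, ∑ l, X k l * Y k (π l) ≤
      ∑ k, ∑ l, absM X k l * absM Y k l + (nsq X + nsq Y) / 2 := by
  set S := svd X with hS
  set T := svd Y with hT
  have h1 : ∑ k, ∑ l, X k l * Y k (π l) =
      ∑ i, ∑ j, S.σ i * T.σ j * ((∑ k, S.a i k * T.a j k) * (∑ l, S.b i l * T.b j (π l))) := by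
    rw [← frob_expand S.σ T.σ S.a T.a S.b (fun j l => T.b j (π l))]
    refine Finset.sum_congr rfl fun k _ => Finset.sum_congr rfl fun l _ => ?_
    rw [← S.hX, T.hX]
  have h2 : ∑ k, ∑ l, absM X k l * absM Y k l =
      ∑ i, ∑ j, S.σ i * T.σ j * ((∑ k, S.a i k * T.a j k) * (∑ l, S.a i l * T.a j l)) := by
    rw [← frob_expand S.σ T.σ S.a T.a S.a T.a]
    rfl
  have hP1 : ∀ i, ∑ j, (∑ l, S.b i l * T.b j (π l)) ^ 2 = 1 := by
    intro i
    have := parseval_cols (fun j l => T.b j (π l)) (by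
      intro l m
      have := T.b2 (π l) (π m)
      rw [this]
      by_cases h : l = m
      · simp [h]
      · simp [h]) (fun l => S.b i l)
    have h3 : ∑ j, (∑ l, S.b i l * T.b j (π l)) ^ 2 = ∑ j, (∑ l, T.b j (π l) * S.b i l) ^ 2 := by
      refine Finset.sum_congr rfl fun j _ => ?_
      congr 1
      exact Finset.sum_congr rfl fun l _ => mul_comm _ _
    rw [h3, this]
    have := S.b1 i i
    rw [if_pos rfl] at this
    rw [← this]
    exact Finset.sum_congr rfl fun l _ => sq _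
  have hP2 : ∀ j, ∑ i, (∑ l, S.b i l * T.b j (π l)) ^ 2 = 1 := by
    intro j
    have := parseval_cols S.b S.b2 (fun l => T.b j (π l))
    rw [this]
    have h3 := T.b1 j j
    rw [if_pos rfl] at h3
    rw [← h3]
    rw [← Equiv.sum_comp π (fun l => T.b j l * T.b j l)]
    exact Finset.sum_congr rfl fun l _ => sq _
  have h3 : 2 * ∑ i, ∑ j, S.σ i * T.σ j *
      ((∑ k, S.a i k * T.a j k) * (∑ l, S.b i l * T.b j (π l))) ≤
      ∑ i, ∑ j, (S.σ i * T.σ j * ((∑ k, S.a i k * T.a j k) * (∑ l, S.a i l * T.a j l)) +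
        (S.σ i ^ 2 + T.σ j ^ 2) / 2 * (∑ l, S.b i l * T.b j (π l)) ^ 2) := by
    rw [Finset.mul_sum]
    refine Finset.sum_le_sum fun i _ => ?_
    rw [Finset.mul_sum]
    refine Finset.sum_le_sum fun j _ => ?_
    set p := ∑ k, S.a i k * T.a j k
    set r := ∑ l, S.b i l * T.b j (π l)
    have hs := S.σ0 i
    have ht := T.σ0 j
    have hst := mul_nonneg hs ht
    nlinarith [mul_nonneg hst (sq_nonneg (p - r)), mul_nonneg (sq_nonneg (S.σ i - T.σ j))
      (sq_nonneg r)]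
  have h4 : ∑ i, ∑ j, (S.σ i ^ 2 + T.σ j ^ 2) / 2 * (∑ l, S.b i l * T.b j (π l)) ^ 2 =
      (nsq X + nsq Y) / 2 := by
    rw [nsq_eq, nsq_eq]
    have : ∀ i j, (S.σ i ^ 2 + T.σ j ^ 2) / 2 * (∑ l, S.b i l * T.b j (π l)) ^ 2 =
        (S.σ i ^ 2 / 2) * (∑ l, S.b i l * T.b j (π l)) ^ 2 +
        (T.σ j ^ 2 / 2) * (∑ l, S.b i l * T.b j (π l)) ^ 2 := fun i j => by ring
    simp only [this, Finset.sum_add_distrib]
    rw [add_div]
    congr 1
    · rw [Finset.sum_div]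
      refine Finset.sum_congr rfl fun i _ => ?_
      rw [← Finset.mul_sum, hP1, mul_one]
    · rw [Finset.sum_comm, Finset.sum_div]
      refine Finset.sum_congr rfl fun j _ => ?_
      rw [← Finset.mul_sum, hP2, mul_one]
  rw [h1, h2]
  refine h3.trans ?_
  simp only [Finset.sum_add_distrib]
  rw [h4]

/-- Trace bound for a matrix of rank at most `card κ`. -/
theorem absM_trace (X : ι → κ → ℝ) (C : ι → ι → ℝ) (c : ℝ) (hc : 0 ≤ c)
    (hC : ∀ x : ι → ℝ, ∑ k, (∑ l, C k l * x l) ^ 2 ≤ c ^ 2 * ∑ l, x l ^ 2) :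
    ∑ k, ∑ l, C k l * absM X k l ≤ c * (Real.sqrt (Fintype.card κ) * Real.sqrt (nsq X)) := by
  set S := svd X with hS
  have h1 : ∑ k, ∑ l, C k l * absM X k l =
      ∑ i, S.σ i * ∑ k, S.a i k * ∑ l, C k l * S.a i l := by
    simp only [absM, Finset.mul_sum]
    calc ∑ k, ∑ l, ∑ i, C k l * (S.σ i * S.a i k * S.a i l)
        = ∑ k, ∑ i, ∑ l, C k l * (S.σ i * S.a i k * S.a i l) :=
          Finset.sum_congr rfl fun k _ => Finset.sum_comm
      _ = ∑ i, ∑ k, ∑ l, C k l * (S.σ i * S.a i k * S.a i l) := Finset.sum_comm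
      _ = _ := by
          refine Finset.sum_congr rfl fun i _ => Finset.sum_congr rfl fun k _ =>
            Finset.sum_congr rfl fun l _ => by ring
  have h2 : ∀ i, ∑ k, S.a i k * ∑ l, C k l * S.a i l ≤ c := by
    intro i
    have hcs := Finset.sum_mul_sq_le_sq_mul_sq Finset.univ (fun k => S.a i k)
      (fun k => ∑ l, C k l * S.a i l)
    have ha := S.a_le i
    have ha' : ∑ k, S.a i k ^ 2 ≤ 1 := by
      have : ∑ k, S.a i k ^ 2 = ∑ k, S.a i k * S.a i k :=
        Finset.sum_congr rfl fun k _ => sq _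
      rw [this]; exact ha
    have ha0 : 0 ≤ ∑ k, S.a i k ^ 2 := Finset.sum_nonneg fun _ _ => sq_nonneg _
    have hC' := hC (S.a i)
    have h5 : (∑ k, S.a i k * ∑ l, C k l * S.a i l) ^ 2 ≤ c ^ 2 := by
      calc (∑ k, S.a i k * ∑ l, C k l * S.a i l) ^ 2
          ≤ (∑ k, S.a i k ^ 2) * ∑ k, (∑ l, C k l * S.a i l) ^ 2 := hcs
        _ ≤ 1 * (c ^ 2 * 1) := by
            apply mul_le_mul ha' _ (Finset.sum_nonneg fun _ _ => sq_nonneg _) zero_le_one
            exact hC'.trans (mul_le_mul_of_nonneg_left ha' (sq_nonneg c))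
        _ = c ^ 2 := by ring
    exact (le_abs_self _).trans (abs_le_of_sq_le_sq h5 hc)
  rw [h1]
  calc ∑ i, S.σ i * ∑ k, S.a i k * ∑ l, C k l * S.a i l
      ≤ ∑ i, S.σ i * c := Finset.sum_le_sum fun i _ => mul_le_mul_of_nonneg_left (h2 i) (S.σ0 i)
    _ = c * ∑ i, 1 * S.σ i := by
        rw [← Finset.sum_mul]; simp [mul_comm]
    _ ≤ c * (Real.sqrt (∑ _i : κ, (1 : ℝ) ^ 2) * Real.sqrt (∑ i, S.σ i ^ 2)) :=
        mul_le_mul_of_nonneg_left (Real.sum_mul_le_sqrt_mul_sqrt _ _ _) hc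
    _ = c * (Real.sqrt (Fintype.card κ) * Real.sqrt (nsq X)) := by
        rw [nsq_eq]; simp [hS]

end

end Pool.Agent.H562R2
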