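import Mathlib

set_option autoImplicit false
set_option linter.unusedSectionVars false

namespace Pool.Agent.H562R2.CayleyIso

open Finset Module
open scoped Classical

noncomputable section

variable {F V : Type*} [Field F] [Fintype F] [AddCommGroup V] [Module F V] [Fintype V]

/-- number of points of `A` that leave `A` under translation by `s` -/
def outCount (A : Finset V) (s : V) : ℕ := (A.filter fun x => x + s ∉ A).card

/-- number of points of `A` in the coset `x + U` -/
def cnt (A : Finset V) (U : Submodule F V) (x : V) : ℕ := (A.filter fun z => z - x ∈ U).card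

/-- number of points of the line through `x` with direction `s` in `A` -/
def lin (F : Type*) {V : Type*} [Field F] [Fintype F] [AddCommGroup V] [Module F V]
    (A : Finset V) (s x : V) : ℕ := (univ.filter fun c : F => x + c • s ∈ A).card

/-- average of `outCount` over the nonzero multiples of `s`, normalised by `|A|` -/
def wbar (F : Type*) {V : Type*} [Field F] [Fintype F] [AddCommGroup V] [Module F V]
    (A : Finset V) (s : V) : ℝ :=
  (∑ c : F, (outCount A (c • s) : ℝ)) / (((Fintype.card F : ℝ) - 1) * A.card)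

lemma outCount_zero (A : Finset V) : outCount A 0 = 0 := by
  unfold outCount
  rw [Finset.card_eq_zero, Finset.filter_eq_empty_iff]
  intro x hx
  simpa using hx

lemma outCount_le (A : Finset V) (s : V) : outCount A s ≤ A.card :=
  Finset.card_filter_le _ _

lemma one_lt_q : (1 : ℝ) < Fintype.card F := by
  exact_mod_cast Fintype.one_lt_card (α := F)

lemma sum_out (A : Finset V) (s : V) :
    (∑ c : F, (outCount A (c • s) : ℝ)) = ∑ x ∈ A, ((Fintype.card F : ℝ) - lin F A s x) := by
  have h1 : ∀ c : F, (outCount A (c • s) : ℝ) = ∑ x ∈ A, if x + c • s ∉ A then (1 : ℝ) else 0 := by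
    intro c
    unfold outCount
    rw [Finset.card_filter]
    push_cast
    rfl
  simp_rw [h1]
  rw [Finset.sum_comm]
  refine Finset.sum_congr rfl fun x _ => ?_
  unfold lin
  rw [Finset.card_filter]
  push_cast
  have : (Fintype.card F : ℝ) = ∑ c : F, (1 : ℝ) := by simp
  rw [this, ← Finset.sum_sub_distrib]
  refine Finset.sum_congr rfl fun c _ => ?_
  by_cases h : x + c • s ∈ A <;> simp [h]

lemma lin_pos (A : Finset V) (s x : V) (hx : x ∈ A) : 1 ≤ lin F A s x := by
  unfold lin
  rw [Nat.one_le_iff_ne_zero]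
  intro h
  rw [Finset.card_eq_zero, Finset.filter_eq_empty_iff] at h
  exact h (Finset.mem_univ (0 : F)) (by simpa using hx)

lemma lin_le (A : Finset V) (s x : V) : lin F A s x ≤ Fintype.card F := by
  unfold lin
  exact (Finset.card_filter_le _ _).trans (by simp)

lemma cnt_pos (A : Finset V) (U : Submodule F V) (x : V) (hx : x ∈ A) : 1 ≤ cnt A U x := by
  unfold cnt
  rw [Nat.one_le_iff_ne_zero]
  intro h
  rw [Finset.card_eq_zero, Finset.filter_eq_empty_iff] at h
  exact h hx (by simp)

lemma cnt_top (A : Finset V) (x : V) : cnt A (⊤ : Submodule F V) x = A.card := by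
  unfold cnt; simp

lemma cnt_bot (A : Finset V) (x : V) (hx : x ∈ A) : cnt A (⊥ : Submodule F V) x = 1 := by
  unfold cnt
  have : (A.filter fun z => z - x ∈ (⊥ : Submodule F V)) = {x} := by
    ext z
    simp only [Finset.mem_filter, Submodule.mem_bot, sub_eq_zero, Finset.mem_singleton]
    constructor
    · rintro ⟨_, h⟩; exact h
    · rintro rfl; exact ⟨hx, rfl⟩
  rw [this]; simp

lemma cnt_congr (A : Finset V) (U : Submodule F V) (x y : V) (h : x - y ∈ U) :
    cnt A U x = cnt A U y := by
  unfold cnt
  congr 1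
  ext z
  simp only [Finset.mem_filter]
  constructor
  · rintro ⟨h1, h2⟩
    refine ⟨h1, ?_⟩
    have : z - y = (z - x) + (x - y) := by abel
    rw [this]; exact U.add_mem h2 h
  · rintro ⟨h1, h2⟩
    refine ⟨h1, ?_⟩
    have : z - x = (z - y) - (x - y) := by abel
    rw [this]; exact U.sub_mem h2 h

/-- concavity of the logarithm on `[1,q]` -/
lemma log_line (q b : ℝ) (hq : 1 < q) (hb : 1 ≤ b) (hbq : b ≤ q) :
    1 - Real.logb q b ≤ (q - b) / (q - 1) := by
  have hq1 : 0 < q - 1 := by linarith
  set t : ℝ := (b - 1) / (q - 1) with ht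
  have ht0 : 0 ≤ t := div_nonneg (by linarith) hq1.le
  have ht1 : t ≤ 1 := by rw [ht, div_le_one hq1]; linarith
  have hm1 : (1:ℝ) ∈ Set.Ioi (0:ℝ) := Set.mem_Ioi.mpr one_pos
  have hmq : q ∈ Set.Ioi (0:ℝ) := Set.mem_Ioi.mpr (by linarith)
  have ht1' : (0:ℝ) ≤ 1 - t := by linarith
  have hsum : (1 - t) + t = 1 := by ring
  have hc := strictConcaveOn_log_Ioi.concaveOn.2 hm1 hmq ht1' ht0 hsum
  simp only [smul_eq_mul, Real.log_one, mul_zero, zero_add] at hc
  have hb' : (1 - t) * 1 + t * q = b := by
    have : t * (q - 1) = b - 1 := by rw [ht]; field_simp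
    nlinarith
  rw [hb'] at hc
  have hlq : 0 < Real.log q := Real.log_pos hq
  have h2 : t ≤ Real.logb q b := by
    unfold Real.logb
    rw [le_div_iff₀ hlq]; exact hc
  have h3 : (q - b) / (q - 1) = 1 - t := by
    rw [ht]; field_simp; ring
  rw [h3]; linarith

lemma wbar_ge (A : Finset V) (hA : A.Nonempty) (s : V) :
    (∑ x ∈ A, (1 - Real.logb (Fintype.card F) (lin F A s x))) / A.card ≤ wbar F A s := by
  have hq := one_lt_q (F := F)
  have hA0 : (0 : ℝ) < A.card := by exact_mod_cast hA.card_pos
  unfold wbar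
  rw [sum_out, mul_comm, ← div_div, div_right_comm]
  apply div_le_div_of_nonneg_right _ hA0.le
  rw [Finset.sum_div]
  refine Finset.sum_le_sum fun x hx => ?_
  exact log_line _ _ hq (by exact_mod_cast lin_pos A s x hx) (by exact_mod_cast lin_le A s x)

lemma wbar_nonneg (A : Finset V) (s : V) : 0 ≤ wbar F A s := by
  have hq := one_lt_q (F := F)
  unfold wbar
  refine div_nonneg (Finset.sum_nonneg fun _ _ => Nat.cast_nonneg _) (mul_nonneg (by linarith) (Nat.cast_nonneg _))

lemma wbar_le_one (A : Finset V) (hA : A.Nonempty) (s : V) : wbar F A s ≤ 1 := by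
  have hq := one_lt_q (F := F)
  have hA0 : (0 : ℝ) < A.card := by exact_mod_cast hA.card_pos
  unfold wbar
  rw [div_le_one (mul_pos (by linarith) hA0), sum_out]
  calc ∑ x ∈ A, ((Fintype.card F : ℝ) - lin F A s x) ≤ ∑ x ∈ A, ((Fintype.card F : ℝ) - 1) := by
        refine Finset.sum_le_sum fun x hx => ?_
        have : (1 : ℝ) ≤ lin F A s x := by exact_mod_cast lin_pos A s x hx
        linarith
    _ = ((Fintype.card F : ℝ) - 1) * A.card := by rw [Finset.sum_const, nsmul_eq_mul]; ring

/-- the injection `(x,c,z) ↦ (x+cs,z)` -/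
lemma triple (A : Finset V) (U : Submodule F V) (s : V) (hs : s ∉ U) :
    ∑ x ∈ A, (lin F A s x : ℝ) * cnt A U x / cnt A (U ⊔ Submodule.span F {s}) x ≤ A.card := by
  set U' := U ⊔ Submodule.span F {s} with hU'
  have hsU' : s ∈ U' := Submodule.mem_sup_right (Submodule.mem_span_singleton_self s)
  have hUU' : U ≤ U' := le_sup_left
  -- the set of triples
  let T : Finset (V × F × V) := (A ×ˢ (univ ×ˢ A)).filter
    fun p => p.1 + p.2.1 • s ∈ A ∧ p.2.2 - p.1 ∈ U
  let P : Finset (V × V) := (A ×ˢ A).filter fun p => p.2 - p.1 ∈ U'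
  let φ : V × F × V → V × V := fun p => (p.1 + p.2.1 • s, p.2.2)
  let g : V × V → ℝ := fun p => 1 / (cnt A U' p.1 : ℝ)
  have hinj : Set.InjOn φ T := by
    rintro ⟨x, c, z⟩ h1 ⟨x', c', z'⟩ h2 heq
    simp only [T, Finset.coe_filter, Finset.mem_product, Set.mem_ofPred_eq] at h1 h2
    simp only [φ, Prod.mk.injEq] at heq
    obtain ⟨h3, h4⟩ := heq
    subst h4
    have h5 : x - x' ∈ U := by
      have : x - x' = (z - x') - (z - x) := by abel
      rw [this]; exact U.sub_mem h2.2.2 h1.2.2
    have h6 : x - x' = (c' - c) • s := by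
      rw [sub_smul]
      have : x = x' + c' • s - c • s := by rw [← h3]; abel
      rw [this]; abel
    rw [h6] at h5
    have h7 : c' = c := by
      by_contra hne
      apply hs
      have hne' : c' - c ≠ 0 := sub_ne_zero.mpr hne
      have := U.smul_mem (c' - c)⁻¹ h5
      rwa [smul_smul, inv_mul_cancel₀ hne', one_smul] at this
    subst h7
    have h8 : x = x' := by simpa using h3
    rw [h8]
  have hmaps : T.image φ ⊆ P := by
    intro p hp
    rw [Finset.mem_image] at hp
    obtain ⟨⟨x, c, z⟩, h1, rfl⟩ := hp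
    simp only [T, Finset.mem_filter, Finset.mem_product] at h1
    simp only [P, φ, Finset.mem_filter, Finset.mem_product]
    refine ⟨⟨h1.2.1, h1.1.2.2⟩, ?_⟩
    have : z - (x + c • s) = (z - x) - c • s := by abel
    rw [this]
    exact U'.sub_mem (hUU' h1.2.2) (U'.smul_mem _ hsU')
  have hP : ∑ p ∈ P, g p = A.card := by
    simp only [P, Finset.sum_filter]
    rw [Finset.sum_product]
    have : ∀ y ∈ A, (∑ z ∈ A, if z - y ∈ U' then g (y, z) else 0) = 1 := by
      intro y hy
      have hc : (cnt A U' y : ℝ) ≠ 0 := by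
        have := cnt_pos A U' y hy
        positivity
      have : ∀ z ∈ A, (if z - y ∈ U' then g (y, z) else 0)
          = (if z - y ∈ U' then (1:ℝ) else 0) * (1 / (cnt A U' y : ℝ)) := by
        intro z _
        by_cases h : z - y ∈ U' <;> simp [h, g]
      rw [Finset.sum_congr rfl this, ← Finset.sum_mul]
      have h2 : (∑ z ∈ A, if z - y ∈ U' then (1:ℝ) else 0) = cnt A U' y := by
        unfold cnt
        rw [Finset.card_filter]; push_cast; rfl
      rw [h2]; field_simp
    rw [Finset.sum_congr rfl this]; simp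
  have hT : ∑ x ∈ A, (lin F A s x : ℝ) * cnt A U x / cnt A U' x = ∑ p ∈ T, g (φ p) := by
    simp only [T, Finset.sum_filter]
    rw [Finset.sum_product]
    refine Finset.sum_congr rfl fun x hx => ?_
    rw [Finset.sum_product]
    have : ∀ c ∈ (univ : Finset F), (∑ z ∈ A, if x + c • s ∈ A ∧ z - x ∈ U then g (φ (x, c, z)) else 0)
        = (if x + c • s ∈ A then (1:ℝ) else 0) * ((cnt A U x : ℝ) / cnt A U' x) := by
      intro c _
      by_cases h : x + c • s ∈ A
      · simp only [h, true_and, if_true, one_mul]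
        have hcc : cnt A U' (x + c • s) = cnt A U' x := by
          apply cnt_congr
          have : x + c • s - x = c • s := by abel
          rw [this]; exact U'.smul_mem _ hsU'
        have : ∀ z ∈ A, (if z - x ∈ U then g (φ (x, c, z)) else 0)
            = (if z - x ∈ U then (1:ℝ) else 0) * (1 / (cnt A U' x : ℝ)) := by
          intro z _
          by_cases h : z - x ∈ U <;> simp [h, g, φ, hcc]
        rw [Finset.sum_congr rfl this, ← Finset.sum_mul]
        have h2 : (∑ z ∈ A, if z - x ∈ U then (1:ℝ) else 0) = cnt A U x := by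
          unfold cnt
          rw [Finset.card_filter]; push_cast; rfl
        rw [h2]; ring
      · simp [h]
    rw [Finset.sum_congr rfl this, ← Finset.sum_mul]
    have h2 : (∑ c : F, if x + c • s ∈ A then (1:ℝ) else 0) = lin F A s x := by
      unfold lin
      rw [Finset.card_filter]; push_cast; rfl
    rw [h2]; ring
  rw [hT, ← Finset.sum_image (f := g) hinj, ← hP]
  refine Finset.sum_le_sum_of_subset_of_nonneg hmaps fun p _ _ => ?_
  simp only [g]; positivity

/-- logarithmic form -/
lemma chain (A : Finset V) (U : Submodule F V) (s : V) (hs : s ∉ U) :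
    ∑ x ∈ A, (Real.logb (Fintype.card F) (lin F A s x) + Real.logb (Fintype.card F) (cnt A U x)
      - Real.logb (Fintype.card F) (cnt A (U ⊔ Submodule.span F {s}) x)) ≤ 0 := by
  have hq := one_lt_q (F := F)
  have hlq : 0 < Real.log (Fintype.card F) := Real.log_pos hq
  have h1 : ∀ x ∈ A, (Real.logb (Fintype.card F) (lin F A s x) + Real.logb (Fintype.card F) (cnt A U x)
      - Real.logb (Fintype.card F) (cnt A (U ⊔ Submodule.span F {s}) x)) ≤
      ((lin F A s x : ℝ) * cnt A U x / cnt A (U ⊔ Submodule.span F {s}) x - 1) / Real.log (Fintype.card F) := by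
    intro x hx
    have hb : (0:ℝ) < lin F A s x := by exact_mod_cast lin_pos A s x hx
    have ha : (0:ℝ) < cnt A U x := by exact_mod_cast cnt_pos A U x hx
    have ha' : (0:ℝ) < cnt A (U ⊔ Submodule.span F {s}) x := by exact_mod_cast cnt_pos A _ x hx
    unfold Real.logb
    rw [← add_div, ← sub_div]
    apply div_le_div_of_nonneg_right _ hlq.le
    rw [← Real.log_mul hb.ne' ha.ne', ← Real.log_div (mul_pos hb ha).ne' ha'.ne']
    exact Real.log_le_sub_one_of_pos (div_pos (mul_pos hb ha) ha')
  refine (Finset.sum_le_sum h1).trans ?_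
  rw [← Finset.sum_div, Finset.sum_sub_distrib]
  have := triple (F := F) A U s hs
  apply div_nonpos_of_nonpos_of_nonneg _ hlq.le
  simp only [Finset.sum_const, nsmul_eq_mul, mul_one]
  linarith

/-- `L(U)` -/
def L (A : Finset V) (U : Submodule F V) : ℝ :=
  ((finrank F V : ℝ) - finrank F U) - (∑ x ∈ A, (Real.logb (Fintype.card F) A.card
    - Real.logb (Fintype.card F) (cnt A U x))) / A.card

lemma finrank_sup_span (U : Submodule F V) (s : V) (hs : s ∉ U) :
    finrank F (U ⊔ Submodule.span F {s} : Submodule F V) = finrank F U + 1 := by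
  have h0 : s ≠ 0 := by rintro rfl; exact hs U.zero_mem
  have h1 := Submodule.finrank_sup_add_finrank_inf_eq U (Submodule.span F {s})
  have h2 : finrank F (Submodule.span F {s}) = 1 := finrank_span_singleton h0
  have h3 : U ⊓ Submodule.span F {s} = ⊥ := by
    rw [Submodule.eq_bot_iff]
    intro y hy
    rw [Submodule.mem_inf, Submodule.mem_span_singleton] at hy
    obtain ⟨hyU, c, rfl⟩ := hy
    by_cases hc : c = 0
    · simp [hc]
    · exfalso; apply hs
      have := U.smul_mem c⁻¹ hyU
      rwa [smul_smul, inv_mul_cancel₀ hc, one_smul] at this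
  rw [h3, finrank_bot, h2] at h1
  omega

lemma L_step (A : Finset V) (hA : A.Nonempty) (U : Submodule F V) (s : V) (hs : s ∉ U) :
    L A U - L A (U ⊔ Submodule.span F {s}) ≤ wbar F A s := by
  have hA0 : (0 : ℝ) < A.card := by exact_mod_cast hA.card_pos
  refine le_trans ?_ (wbar_ge A hA s)
  have hch := chain (F := F) A U s hs
  unfold L
  rw [finrank_sup_span U s hs]
  push_cast
  rw [le_div_iff₀ hA0]
  have e1 : (((finrank F V : ℝ) - finrank F U) - (∑ x ∈ A, (Real.logb (Fintype.card F) A.card
    - Real.logb (Fintype.card F) (cnt A U x))) / A.card -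
    (((finrank F V : ℝ) - (finrank F U + 1)) - (∑ x ∈ A, (Real.logb (Fintype.card F) A.card
    - Real.logb (Fintype.card F) (cnt A (U ⊔ Submodule.span F {s}) x))) / A.card)) * A.card
    = A.card - (∑ x ∈ A, (Real.logb (Fintype.card F) A.card
    - Real.logb (Fintype.card F) (cnt A U x))) + (∑ x ∈ A, (Real.logb (Fintype.card F) A.card
    - Real.logb (Fintype.card F) (cnt A (U ⊔ Submodule.span F {s}) x))) := by
    field_simp; ring
  rw [e1]
  simp only [Finset.sum_sub_distrib, Finset.sum_add_distrib, Finset.sum_const, nsmul_eq_mul, mul_one] at hch ⊢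
  linarith

/-- The Lagrangian value of a subspace -/
def g (μ : V → ℝ) (lam : ℝ) (W : Submodule F V) : ℝ :=
  (∑ s ∈ univ.filter (fun s => s ∉ W), μ s) - lam * ((finrank F V : ℝ) - finrank F W)

lemma induct (μ : V → ℝ) (hμ : ∀ s, 0 ≤ μ s) (lam : ℝ) (hlam : 0 ≤ lam) (m : ℝ) (hm : m ≤ 0)
    (hg : ∀ W : Submodule F V, m ≤ g μ lam W)
    (A : Finset V) (hA : A.Nonempty) :
    ∀ (n : ℕ) (U : Submodule F V), finrank F V - finrank F U = n → ∀ t : ℝ, t ≤ 1 →
      (∀ s, s ∉ U → t ≤ wbar F A s) →
      (1 - t) * m + lam * (L A U - ((finrank F V : ℝ) - finrank F U) * t) ≤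
        ∑ s ∈ univ.filter (fun s => s ∉ U), μ s * (wbar F A s - t) := by
  intro n
  induction n with
  | zero =>
    intro U hU t ht _
    have hle := Submodule.finrank_le U
    have hU' : U = ⊤ := Submodule.eq_top_of_finrank_eq (by omega)
    subst hU'
    have hL : L A (⊤ : Submodule F V) = 0 := by
      unfold L
      simp [cnt_top]
    rw [hL]
    simp only [finrank_top, sub_self, zero_mul, mul_zero, add_zero, Submodule.mem_top, not_true_eq_false,
      Finset.filter_false, Finset.sum_empty]
    exact mul_nonpos_of_nonneg_of_nonpos (by linarith) hm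
  | succ n ih =>
    intro U hU t ht hw
    -- choose the minimiser
    have hne : (univ.filter (fun s => s ∉ U)).Nonempty := by
      by_contra hcon
      rw [Finset.not_nonempty_iff_eq_empty, Finset.filter_eq_empty_iff] at hcon
      have : U = ⊤ := by
        rw [Submodule.eq_top_iff']; intro x; simpa using hcon (Finset.mem_univ x)
      subst this
      simp at hU
    obtain ⟨s, hs, hmin⟩ := Finset.exists_min_image _ (fun s => wbar F A s) hne
    have hsU : s ∉ U := by simpa using hs
    have hmin' : ∀ y, y ∉ U → wbar F A s ≤ wbar F A y := fun y hy => hmin y (by simpa using hy)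
    have hfr := finrank_sup_span U s hsU
    have hIH := ih (U ⊔ Submodule.span F {s}) (by rw [hfr]; omega) (wbar F A s) (wbar_le_one A hA s)
      (fun y hy => hmin' y (fun h => hy (Submodule.mem_sup_left h)))
    have hst := L_step A hA U s hsU
    have hgU := hg U
    unfold g at hgU
    set t' := wbar F A s with ht'
    have htt' : t ≤ t' := hw s hsU
    -- splitting
    have hsplit : ∑ y ∈ univ.filter (fun y => y ∉ U), μ y * (wbar F A y - t)
        = ∑ y ∈ univ.filter (fun y => y ∉ U), μ y * (wbar F A y - t')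
          + (t' - t) * ∑ y ∈ univ.filter (fun y => y ∉ U), μ y := by
      rw [Finset.mul_sum, ← Finset.sum_add_distrib]
      refine Finset.sum_congr rfl fun y _ => by ring
    have hmono : ∑ y ∈ univ.filter (fun y => y ∉ U ⊔ Submodule.span F {s}), μ y * (wbar F A y - t')
        ≤ ∑ y ∈ univ.filter (fun y => y ∉ U), μ y * (wbar F A y - t') := by
      refine Finset.sum_le_sum_of_subset_of_nonneg ?_ ?_
      · intro y hy
        simp only [Finset.mem_filter, Finset.mem_univ, true_and] at hy ⊢
        exact fun h => hy (Submodule.mem_sup_left h)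
      · intro y hy _
        simp only [Finset.mem_filter, Finset.mem_univ, true_and] at hy
        exact mul_nonneg (hμ y) (sub_nonneg.mpr (hmin' y hy))
    rw [hsplit]
    rw [hfr] at hIH
    push_cast at hIH
    have h5 : (t' - t) * (m + lam * ((finrank F V : ℝ) - finrank F U)) ≤
        (t' - t) * ∑ y ∈ univ.filter (fun y => y ∉ U), μ y := by
      apply mul_le_mul_of_nonneg_left _ (by linarith)
      linarith
    have h6 : lam * (L A U - L A (U ⊔ Submodule.span F {s})) ≤ lam * t' :=
      mul_le_mul_of_nonneg_left hst hlam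
    nlinarith [hIH, h5, h6, hmono]

/-- averaging over nonzero multiples -/
lemma sum_wbar (μ : V → ℝ) (hinv : ∀ (c : F) (s : V), c ≠ 0 → μ (c • s) = μ s) (A : Finset V)
    (hA : A.Nonempty) :
    ∑ s, μ s * wbar F A s = (∑ s, μ s * outCount A s) / A.card := by
  have hq := one_lt_q (F := F)
  have hA0 : (0 : ℝ) < A.card := by exact_mod_cast hA.card_pos
  unfold wbar
  have h1 : ∀ s, μ s * ((∑ c : F, (outCount A (c • s) : ℝ)) / (((Fintype.card F : ℝ) - 1) * A.card))
      = (∑ c : F, μ s * (outCount A (c • s) : ℝ)) / (((Fintype.card F : ℝ) - 1) * A.card) := by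
    intro s; rw [← Finset.mul_sum]; ring
  simp_rw [h1]
  rw [← Finset.sum_div, Finset.sum_comm]
  have h2 : ∀ c : F, ∑ s, μ s * (outCount A (c • s) : ℝ)
      = if c = 0 then 0 else ∑ s, μ s * outCount A s := by
    intro c
    split_ifs with hc
    · subst hc; simp [outCount_zero]
    · have : ∑ s, μ s * (outCount A (c • s) : ℝ) = ∑ s, μ (c • s) * (outCount A (c • s) : ℝ) :=
        Finset.sum_congr rfl fun s _ => by rw [hinv c s hc]
      rw [this]
      exact Fintype.sum_bijective (fun s : V => c • s)
        (MulAction.bijective (Units.mk0 c hc)) _ _ (fun s => rfl)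
  simp_rw [h2]
  rw [Finset.sum_ite, Finset.sum_const_zero, zero_add, Finset.sum_const, nsmul_eq_mul]
  have h3 : ((univ.filter fun c : F => ¬ c = 0).card : ℝ) = (Fintype.card F : ℝ) - 1 := by
    rw [Finset.filter_not, Finset.card_sdiff_of_subset (Finset.filter_subset _ _)]
    rw [Finset.filter_eq' univ (0:F)]
    simp only [Finset.mem_univ, if_true, Finset.card_singleton, Finset.card_univ]
    rw [Nat.cast_sub (Fintype.card_pos)]
    simp
  rw [h3]
  have : (Fintype.card F : ℝ) - 1 ≠ 0 := by linarith
  field_simp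

/-- **Main inequality.** -/
theorem main (μ : V → ℝ) (hμ : ∀ s, 0 ≤ μ s)
    (hinv : ∀ (c : F) (s : V), c ≠ 0 → μ (c • s) = μ s) (lam : ℝ) (hlam : 0 ≤ lam) :
    ∃ W : Submodule F V, ∀ A : Finset V, A.Nonempty →
      g μ lam W ≤ (∑ s, μ s * outCount A s) / A.card
        - lam * Real.logb (Fintype.card F) (Fintype.card V / A.card) := by
  obtain ⟨W, hW⟩ := Finite.exists_min (fun W : Submodule F V => g μ lam W)
  refine ⟨W, fun A hA => ?_⟩
  have hq := one_lt_q (F := F)
  have hA0 : (0 : ℝ) < A.card := by exact_mod_cast hA.card_pos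
  have hm : g μ lam W ≤ 0 := by
    refine (hW ⊤).trans ?_
    unfold g; simp
  have h := induct μ hμ lam hlam (g μ lam W) hm hW A hA _ (⊥ : Submodule F V) rfl 0 zero_le_one
    (fun s _ => wbar_nonneg A s)
  have hL : L A (⊥ : Submodule F V) = Real.logb (Fintype.card F) (Fintype.card V / A.card) := by
    unfold L
    have : ∀ x ∈ A, (Real.logb (Fintype.card F) A.card
      - Real.logb (Fintype.card F) (cnt A (⊥ : Submodule F V) x)) = Real.logb (Fintype.card F) A.card := by
      intro x hx; rw [cnt_bot A x hx]; simp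
    rw [Finset.sum_congr rfl this, Finset.sum_const, nsmul_eq_mul, finrank_bot]
    rw [Real.logb_div (by exact_mod_cast Fintype.card_ne_zero) hA0.ne']
    rw [Module.card_eq_pow_finrank (K := F) (V := V)]
    push_cast
    rw [Real.logb_pow, Real.logb_self_eq_one hq]
    field_simp
    ring
  rw [hL] at h
  simp only [sub_zero, one_mul, mul_zero, Nat.cast_zero, finrank_bot] at h
  have h2 : ∑ s ∈ univ.filter (fun s => s ∉ (⊥ : Submodule F V)), μ s * wbar F A s
      ≤ ∑ s, μ s * wbar F A s :=
    Finset.sum_le_sum_of_subset_of_nonneg (Finset.filter_subset _ _)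
      (fun s _ _ => mul_nonneg (hμ s) (wbar_nonneg A s))
  rw [sum_wbar μ hinv A hA] at h2
  linarith

end

end Pool.Agent.H562R2.CayleyIso
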