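import Mathlib
import Pool.Agent.H562R2.CayleyIso

set_option autoImplicit false
set_option linter.unusedSectionVars false

namespace Pool.Agent.H562R2.CayleySample

open Finset Module CayleyIso
open scoped Classical

noncomputable section

variable {F V : Type*} [Field F] [Fintype F] [AddCommGroup V] [Module F V] [Fintype V]

instance dualFinite : Finite (Dual F V) := by
  have : Function.Injective (fun f : Dual F V => (f : V → F)) := DFunLike.coe_injective
  exact Finite.of_injective _ this

instance dualFintype : Fintype (Dual F V) := Fintype.ofFinite _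

/-- number of functionals vanishing on `W` -/
lemma card_annih (W : Submodule F V) :
    ((univ.filter fun γ : Dual F V => ∀ w ∈ W, γ w = 0).card : ℝ) * (Fintype.card F : ℝ) ^ finrank F W
      = (Fintype.card F : ℝ) ^ finrank F V := by
  have h1 : (univ.filter fun γ : Dual F V => ∀ w ∈ W, γ w = 0).card
      = Fintype.card F ^ finrank F W.dualAnnihilator := by
    rw [← Module.card_eq_pow_finrank (K := F) (V := W.dualAnnihilator)]
    rw [← Fintype.card_subtype]
    apply Fintype.card_congr
    exact Equiv.subtypeEquivRight fun γ => by rw [Submodule.mem_dualAnnihilator]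
  rw [h1]
  push_cast
  rw [← pow_add, add_comm]
  congr 1
  exact Subspace.finrank_add_finrank_dualAnnihilator_eq W

lemma card_annih_one (s : V) (hs : s ≠ 0) :
    ((univ.filter fun γ : Dual F V => γ s = 0).card : ℝ) * (Fintype.card F : ℝ)
      = (Fintype.card F : ℝ) ^ finrank F V := by
  have h := card_annih (F := F) (Submodule.span F {s})
  rw [finrank_span_singleton hs, pow_one] at h
  rw [← h]
  congr 3
  ext γ
  simp only [Finset.mem_filter, Finset.mem_univ, true_and]
  constructor
  · intro h w hw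
    rw [Submodule.mem_span_singleton] at hw
    obtain ⟨c, rfl⟩ := hw
    simp [h]
  · intro h
    exact h s (Submodule.mem_span_singleton_self s)

lemma card_annih_two (s v : V) (hs : s ≠ 0) (hv : v ∉ Submodule.span F {s}) :
    ((univ.filter fun γ : Dual F V => γ v = 0 ∧ γ s = 0).card : ℝ) * (Fintype.card F : ℝ) ^ 2
      = (Fintype.card F : ℝ) ^ finrank F V := by
  have h := card_annih (F := F) (Submodule.span F {s} ⊔ Submodule.span F {v})
  rw [finrank_sup_span _ _ hv, finrank_span_singleton hs] at h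
  rw [← h]
  congr 3
  ext γ
  simp only [Finset.mem_filter, Finset.mem_univ, true_and]
  constructor
  · rintro ⟨h1, h2⟩ w hw
    rw [Submodule.mem_sup] at hw
    obtain ⟨a, ha, b, hb, rfl⟩ := hw
    rw [Submodule.mem_span_singleton] at ha hb
    obtain ⟨c, rfl⟩ := ha
    obtain ⟨d, rfl⟩ := hb
    simp [h1, h2]
  · intro h
    exact ⟨h v (Submodule.mem_sup_right (Submodule.mem_span_singleton_self v)),
      h s (Submodule.mem_sup_left (Submodule.mem_span_singleton_self s))⟩

/-- spectral weight of a functional -/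
def P (A : Finset V) (γ : Dual F V) : ℝ :=
  (∑ x ∈ A, ∑ y ∈ A, ((Fintype.card F : ℝ) * (if γ (x - y) = 0 then 1 else 0) - 1)) /
    (((Fintype.card F : ℝ) - 1) * Fintype.card V * A.card)

lemma cardV : (Fintype.card V : ℝ) = (Fintype.card F : ℝ) ^ finrank F V := by
  rw [Module.card_eq_pow_finrank (K := F) (V := V)]; push_cast; rfl

lemma denom_pos (A : Finset V) (hA : A.Nonempty) :
    0 < ((Fintype.card F : ℝ) - 1) * Fintype.card V * A.card := by
  have hq := one_lt_q (F := F)
  have hA0 : (0 : ℝ) < A.card := by exact_mod_cast hA.card_pos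
  have hV0 : (0 : ℝ) < Fintype.card V := by
    exact_mod_cast Fintype.card_pos_iff.mpr ⟨(0 : V)⟩
  have : (0:ℝ) < (Fintype.card F : ℝ) - 1 := by linarith
  positivity

lemma P_nonneg (A : Finset V) (hA : A.Nonempty) (γ : Dual F V) : 0 ≤ P A γ := by
  unfold P
  apply div_nonneg _ (denom_pos A hA).le
  have h1 : ∑ x ∈ A, ∑ y ∈ A, ((Fintype.card F : ℝ) * (if γ (x - y) = 0 then 1 else 0) - 1)
      = (Fintype.card F : ℝ) * (∑ t : F, (∑ x ∈ A, if γ x = t then (1:ℝ) else 0) ^ 2)
        - (∑ t : F, (∑ x ∈ A, if γ x = t then (1:ℝ) else 0)) ^ 2 := by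
    have e1 : ∑ x ∈ A, ∑ y ∈ A, ((Fintype.card F : ℝ) * (if γ (x - y) = 0 then 1 else 0) - 1)
        = (Fintype.card F : ℝ) * (∑ x ∈ A, ∑ y ∈ A, (if γ (x - y) = 0 then (1:ℝ) else 0))
          - (A.card : ℝ) ^ 2 := by
      simp only [Finset.sum_sub_distrib, Finset.mul_sum, Finset.sum_const, nsmul_eq_mul, mul_one]
      ring
    have e2 : ∑ t : F, (∑ x ∈ A, if γ x = t then (1:ℝ) else 0) = A.card := by
      rw [Finset.sum_comm]
      simp
    have e3 : ∑ t : F, (∑ x ∈ A, if γ x = t then (1:ℝ) else 0) ^ 2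
        = ∑ x ∈ A, ∑ y ∈ A, (if γ (x - y) = 0 then (1:ℝ) else 0) := by
      simp_rw [sq, Finset.sum_mul_sum]
      rw [Finset.sum_comm]
      refine Finset.sum_congr rfl fun x _ => ?_
      rw [Finset.sum_comm]
      refine Finset.sum_congr rfl fun y _ => ?_
      simp only [map_sub, sub_eq_zero]
      rw [Finset.sum_eq_single (γ x)]
      · simp only [if_true, one_mul]
        by_cases h : γ x = γ y
        · simp [h]
        · rw [if_neg h, if_neg (fun h' => h h'.symm)]
      · intro t _ ht
        rw [if_neg (fun h' => ht h'.symm)]; ring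
      · intro h; exact absurd (Finset.mem_univ _) h
    rw [e1, e2, e3]
  rw [h1]
  have h2 := sq_sum_le_card_mul_sum_sq (s := (univ : Finset F))
    (f := fun t => ∑ x ∈ A, if γ x = t then (1:ℝ) else 0)
  rw [Finset.card_univ] at h2
  linarith

lemma P_le (A : Finset V) (hA : A.Nonempty) (γ : Dual F V) :
    P A γ ≤ (A.card : ℝ) / Fintype.card V := by
  have hq := one_lt_q (F := F)
  have hA0 : (0 : ℝ) < A.card := by exact_mod_cast hA.card_pos
  have hV0 : (0 : ℝ) < Fintype.card V := by
    exact_mod_cast Fintype.card_pos_iff.mpr ⟨(0 : V)⟩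
  have hd := denom_pos (F := F) A hA
  unfold P
  rw [div_le_div_iff₀ hd hV0]
  have h1 : ∑ x ∈ A, ∑ y ∈ A, ((Fintype.card F : ℝ) * (if γ (x - y) = 0 then 1 else 0) - 1)
      ≤ ∑ x ∈ A, ∑ y ∈ A, ((Fintype.card F : ℝ) - 1) := by
    refine Finset.sum_le_sum fun x _ => Finset.sum_le_sum fun y _ => ?_
    split_ifs <;> linarith
  simp only [Finset.sum_const, nsmul_eq_mul] at h1
  nlinarith [mul_le_mul_of_nonneg_right h1 hV0.le]

/-- key identity -/
lemma P_vanish (A : Finset V) (hA : A.Nonempty) (s : V) :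
    ∑ γ : Dual F V, P A γ * (if γ s = 0 then 1 else 0)
      = 1 - (1 - 1 / (Fintype.card F : ℝ)) * wbar F A s := by
  have hq := one_lt_q (F := F)
  have hq0 : (Fintype.card F : ℝ) ≠ 0 := by linarith
  have hq1 : (Fintype.card F : ℝ) - 1 ≠ 0 := by linarith
  have hA0 : (A.card : ℝ) ≠ 0 := by exact_mod_cast hA.card_pos.ne'
  have hV0 : (Fintype.card V : ℝ) ≠ 0 := by
    have : 0 < Fintype.card V := Fintype.card_pos_iff.mpr ⟨(0 : V)⟩
    exact_mod_cast this.ne'
  -- swap the sums
  have h1 : ∑ γ : Dual F V, P A γ * (if γ s = 0 then 1 else 0)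
      = (∑ x ∈ A, ∑ y ∈ A, ((Fintype.card F : ℝ) *
          ((univ.filter fun γ : Dual F V => γ (x - y) = 0 ∧ γ s = 0).card : ℝ)
          - ((univ.filter fun γ : Dual F V => γ s = 0).card : ℝ))) /
        (((Fintype.card F : ℝ) - 1) * Fintype.card V * A.card) := by
    unfold P
    simp_rw [div_mul_eq_mul_div]
    rw [← Finset.sum_div]
    congr 1
    simp_rw [Finset.sum_mul]
    rw [Finset.sum_comm]
    refine Finset.sum_congr rfl fun x _ => ?_
    rw [Finset.sum_comm]
    refine Finset.sum_congr rfl fun y _ => ?_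
    rw [Finset.card_filter, Finset.card_filter]
    push_cast
    rw [Finset.mul_sum, ← Finset.sum_sub_distrib]
    refine Finset.sum_congr rfl fun γ _ => ?_
    by_cases h1 : γ (x - y) = 0 <;> by_cases h2 : γ s = 0 <;> simp [h1, h2]
  rw [h1]
  by_cases hs : s = 0
  · subst hs
    have hw : wbar F A 0 = 0 := by
      unfold wbar; simp [outCount_zero]
    rw [hw]
    simp only [map_zero, and_true, Finset.filter_true, mul_zero, sub_zero]
    have hcard : ((univ : Finset (Dual F V)).card : ℝ) = Fintype.card V := by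
      have := card_annih (F := F) (⊥ : Submodule F V)
      rw [finrank_bot, pow_zero, mul_one, ← cardV] at this
      rw [← this]
      congr 2
      ext γ; simp
    have h2 : ∀ x ∈ A, ∑ y ∈ A, ((Fintype.card F : ℝ) *
        ((univ.filter fun γ : Dual F V => γ (x - y) = 0).card : ℝ)
        - ((univ : Finset (Dual F V)).card : ℝ)) = ((Fintype.card F : ℝ) - 1) * Fintype.card V := by
      intro x hx
      rw [Finset.sum_eq_single x]
      · simp only [sub_self, map_zero, Finset.filter_true, hcard]; ring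
      · intro y _ hy
        have := card_annih_one (F := F) (x - y) (sub_ne_zero.mpr (Ne.symm hy))
        rw [hcard, mul_comm, this, ← cardV]; ring
      · intro h; exact absurd hx h
    rw [Finset.sum_congr rfl h2, Finset.sum_const, nsmul_eq_mul]
    field_simp
  · have hN1 : ((univ.filter fun γ : Dual F V => γ s = 0).card : ℝ)
        = Fintype.card V / Fintype.card F := by
      rw [eq_div_iff hq0, card_annih_one s hs]
      exact cardV.symm
    have h2 : ∀ x ∈ A, ∑ y ∈ A, ((Fintype.card F : ℝ) *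
          ((univ.filter fun γ : Dual F V => γ (x - y) = 0 ∧ γ s = 0).card : ℝ)
          - ((univ.filter fun γ : Dual F V => γ s = 0).card : ℝ))
        = (Fintype.card V * ((Fintype.card F : ℝ) - 1) / Fintype.card F) * lin F A s x := by
      intro x hx
      have h3 : ∀ y ∈ A, ((Fintype.card F : ℝ) *
          ((univ.filter fun γ : Dual F V => γ (x - y) = 0 ∧ γ s = 0).card : ℝ)
          - ((univ.filter fun γ : Dual F V => γ s = 0).card : ℝ))
          = if x - y ∈ Submodule.span F {s} then
            (Fintype.card V * ((Fintype.card F : ℝ) - 1) / Fintype.card F) else 0 := by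
        intro y _
        split_ifs with h
        · have : (univ.filter fun γ : Dual F V => γ (x - y) = 0 ∧ γ s = 0)
              = (univ.filter fun γ : Dual F V => γ s = 0) := by
            ext γ
            simp only [Finset.mem_filter, Finset.mem_univ, true_and, and_iff_right_iff_imp]
            intro hγ
            rw [Submodule.mem_span_singleton] at h
            obtain ⟨c, hc⟩ := h
            rw [← hc]; simp [hγ]
          rw [this, hN1]; field_simp
        · have h4 := card_annih_two (F := F) s (x - y) hs h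
          rw [← cardV] at h4
          have h5 : ((univ.filter fun γ : Dual F V => γ (x - y) = 0 ∧ γ s = 0).card : ℝ)
              = Fintype.card V / (Fintype.card F : ℝ) ^ 2 := by
            rw [eq_div_iff (pow_ne_zero 2 hq0), h4]
          rw [h5, hN1]; field_simp; ring
      rw [Finset.sum_congr rfl h3, ← Finset.sum_filter, Finset.sum_const, nsmul_eq_mul, mul_comm]
      congr 1
      -- number of y ∈ A on the line
      have : (A.filter fun y => x - y ∈ Submodule.span F {s}).card = lin F A s x := by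
        unfold lin
        symm
        refine Finset.card_bij (fun c _ => x + c • s) ?_ ?_ ?_
        · intro c hc
          simp only [Finset.mem_filter, Finset.mem_univ, true_and] at hc ⊢
          refine ⟨hc, ?_⟩
          have : x - (x + c • s) = (-c) • s := by rw [neg_smul]; abel
          rw [this]
          exact Submodule.smul_mem _ _ (Submodule.mem_span_singleton_self s)
        · intro a _ b _ hab
          have h6 : a • s = b • s := by simpa using hab
          have h7 : (a - b) • s = 0 := by rw [sub_smul, h6, sub_self]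
          rcases smul_eq_zero.mp h7 with h | h
          · exact sub_eq_zero.mp h
          · exact absurd h hs
        · intro y hy
          simp only [Finset.mem_filter] at hy
          obtain ⟨hyA, hy⟩ := hy
          rw [Submodule.mem_span_singleton] at hy
          obtain ⟨c, hc⟩ := hy
          have hyx : y = x + (-c) • s := by rw [neg_smul, hc]; abel
          exact ⟨-c, by simp only [Finset.mem_filter, Finset.mem_univ, true_and]; rwa [← hyx], hyx.symm⟩
      exact_mod_cast this
    rw [Finset.sum_congr rfl h2]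
    unfold wbar
    rw [sum_out, ← Finset.mul_sum, Finset.sum_sub_distrib, Finset.sum_const, nsmul_eq_mul]
    field_simp
    ring

lemma P_sum (A : Finset V) (hA : A.Nonempty) : ∑ γ : Dual F V, P A γ = 1 := by
  have h := P_vanish (F := F) A hA 0
  have hw : wbar F A 0 = 0 := by
    unfold wbar; simp [outCount_zero]
  rw [hw] at h
  simpa using h

/-- the factors -/
def kap (q : ℝ) (j : ℕ) : ℝ := (1 - 1 / q) / (1 - 1 / q ^ (j + 1))

/-- `h m w = ∏_{j=1}^m (1 - κ_j w)` -/
def h (q : ℝ) (m : ℕ) (w : ℝ) : ℝ := ∏ j ∈ range m, (1 - kap q j * w)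

lemma kap_nonneg (q : ℝ) (hq : 1 < q) (j : ℕ) : 0 ≤ kap q j := by
  unfold kap
  have h1 : 1 / q < 1 := by rw [div_lt_one (by linarith)]; exact hq
  have h2 : 1 / q ^ (j + 1) < 1 := by
    rw [div_lt_one (by positivity)]
    exact one_lt_pow₀ hq (by omega)
  exact div_nonneg (by linarith) (by linarith)

lemma kap_le_one (q : ℝ) (hq : 1 < q) (j : ℕ) : kap q j ≤ 1 := by
  unfold kap
  have h2 : 1 / q ^ (j + 1) < 1 := by
    rw [div_lt_one (by positivity)]
    exact one_lt_pow₀ hq (by omega)
  rw [div_le_one (by linarith)]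
  have : 1 / q ^ (j + 1) ≤ 1 / q := by
    apply one_div_le_one_div_of_le (by linarith)
    calc q = q ^ 1 := (pow_one q).symm
      _ ≤ q ^ (j + 1) := pow_le_pow_right₀ hq.le (by omega)
  linarith

lemma factor_nonneg (q : ℝ) (hq : 1 < q) (j : ℕ) (w : ℝ) (h0 : 0 ≤ w) (h1 : w ≤ 1) :
    0 ≤ 1 - kap q j * w := by
  have := kap_le_one q hq j
  have := kap_nonneg q hq j
  nlinarith

lemma h_nonneg (q : ℝ) (hq : 1 < q) (m : ℕ) (w : ℝ) (h0 : 0 ≤ w) (h1 : w ≤ 1) : 0 ≤ h q m w :=
  Finset.prod_nonneg fun j _ => factor_nonneg q hq j w h0 h1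

/-- potential -/
def Fpot (μ : V → ℝ) (A : Finset V) (k i : ℕ) (U : Submodule F V) : ℝ :=
  ∑ s ∈ univ.filter (fun s => s ∈ U), μ s * h (Fintype.card F) (k - i) (wbar F A s)

lemma step (μ : V → ℝ) (hμ : ∀ s, 0 ≤ μ s) (A : Finset V) (hA : A.Nonempty) (k i : ℕ) (hik : i < k)
    (hcard : (A.card : ℝ) * (Fintype.card F : ℝ) ^ k ≤ Fintype.card V)
    (U : Submodule F V) (hU : finrank F U + i = finrank F V) :
    ∃ U' : Submodule F V, finrank F U' + (i + 1) = finrank F V ∧
      Fpot μ A k i U ≤ Fpot μ A k (i + 1) U' := by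
  have hq := one_lt_q (F := F)
  have hq0 : (0 : ℝ) < Fintype.card F := by linarith
  have hA0 : (0 : ℝ) < A.card := by exact_mod_cast hA.card_pos
  have hV0 : (0 : ℝ) < Fintype.card V := by
    exact_mod_cast Fintype.card_pos_iff.mpr ⟨(0 : V)⟩
  set q : ℝ := (Fintype.card F : ℝ) with hqdef
  let H : Finset (Dual F V) := univ.filter fun γ => ∀ w ∈ U, γ w = 0
  let Hc : Finset (Dual F V) := univ.filter fun γ => ¬ ∀ w ∈ U, γ w = 0
  have hHc : (H.card : ℝ) = q ^ i := by
    have h1 := card_annih (F := F) U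
    have h2 : q ^ finrank F V = q ^ i * q ^ finrank F U := by rw [← pow_add, add_comm, hU]
    rw [← hqdef, h2] at h1
    exact mul_right_cancel₀ (by positivity) h1
  set PH : ℝ := ∑ γ ∈ H, P A γ with hPH
  have hPHle : PH ≤ 1 / q ^ (k - i) := by
    have h1 : PH ≤ ∑ γ ∈ H, (A.card : ℝ) / Fintype.card V :=
      Finset.sum_le_sum fun γ _ => P_le A hA γ
    rw [Finset.sum_const, nsmul_eq_mul, hHc] at h1
    refine h1.trans ?_
    have h2 : q ^ k = q ^ i * q ^ (k - i) := by rw [← pow_add]; congr 1; omega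
    rw [mul_div_assoc', div_le_div_iff₀ hV0 (by positivity)]
    calc q ^ i * A.card * q ^ (k - i) = A.card * q ^ k := by rw [h2]; ring
      _ ≤ Fintype.card V := hcard
      _ = 1 * Fintype.card V := (one_mul _).symm
  have hPH0 : 0 ≤ PH := Finset.sum_nonneg fun γ _ => P_nonneg A hA γ
  have hqm : 1 / q ^ (k - i) < 1 := by
    rw [div_lt_one (by positivity)]
    exact one_lt_pow₀ hq (by omega)
  have hPH1 : 0 < 1 - PH := by linarith
  have hsumHc : ∑ γ ∈ Hc, P A γ = 1 - PH := by
    have := Finset.sum_filter_add_sum_filter_not univ (fun γ : Dual F V => ∀ w ∈ U, γ w = 0)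
      (fun γ => P A γ)
    rw [P_sum A hA] at this
    have h' : PH + ∑ γ ∈ Hc, P A γ = 1 := this
    linarith
  -- the averaging
  have havg : (1 - PH) * Fpot μ A k i U ≤
      ∑ γ ∈ Hc, P A γ * Fpot μ A k (i + 1) (U ⊓ LinearMap.ker γ) := by
    have e1 : ∑ γ ∈ Hc, P A γ * Fpot μ A k (i + 1) (U ⊓ LinearMap.ker γ)
        = ∑ s ∈ univ.filter (fun s => s ∈ U), μ s * h q (k - (i + 1)) (wbar F A s) *
          ∑ γ ∈ Hc, P A γ * (if γ s = 0 then 1 else 0) := by
      have e2 : ∀ γ : Dual F V, Fpot μ A k (i + 1) (U ⊓ LinearMap.ker γ)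
          = ∑ s ∈ univ.filter (fun s => s ∈ U), μ s * h q (k - (i + 1)) (wbar F A s) *
            (if γ s = 0 then 1 else 0) := by
        intro γ
        unfold Fpot
        rw [Finset.sum_filter, Finset.sum_filter]
        refine Finset.sum_congr rfl fun s _ => ?_
        simp only [Submodule.mem_inf, LinearMap.mem_ker]
        by_cases h1 : s ∈ U <;> by_cases h2 : γ s = 0 <;> simp [h1, h2, hqdef]
      simp_rw [e2, Finset.mul_sum]
      rw [Finset.sum_comm]
      refine Finset.sum_congr rfl fun s _ => Finset.sum_congr rfl fun γ _ => by ring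
    rw [e1]
    unfold Fpot
    rw [Finset.mul_sum]
    refine Finset.sum_le_sum fun s hs => ?_
    have hsU : s ∈ U := by simpa using hs
    have e3 : ∑ γ ∈ Hc, P A γ * (if γ s = 0 then 1 else 0)
        = 1 - (1 - 1 / q) * wbar F A s - PH := by
      have h1 := Finset.sum_filter_add_sum_filter_not univ (fun γ : Dual F V => ∀ w ∈ U, γ w = 0)
        (fun γ => P A γ * (if γ s = 0 then (1:ℝ) else 0))
      rw [P_vanish A hA s] at h1
      have h2 : ∑ γ ∈ H, P A γ * (if γ s = 0 then (1:ℝ) else 0) = PH := by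
        refine Finset.sum_congr rfl fun γ hγ => ?_
        have : γ s = 0 := by
          simp only [H, Finset.mem_filter, Finset.mem_univ, true_and] at hγ
          exact hγ s hsU
        simp [this]
      have h3 : ∑ γ ∈ H, P A γ * (if γ s = 0 then (1:ℝ) else 0)
          + ∑ γ ∈ Hc, P A γ * (if γ s = 0 then (1:ℝ) else 0)
          = 1 - (1 - 1 / q) * wbar F A s := h1
      linarith
    rw [e3]
    have hw0 := wbar_nonneg (F := F) A s
    have hw1 := wbar_le_one (F := F) A hA s
    have hh : h q (k - i) (wbar F A s)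
        = h q (k - (i + 1)) (wbar F A s) * (1 - kap q (k - (i + 1)) * wbar F A s) := by
      have : k - i = (k - (i + 1)) + 1 := by omega
      unfold h
      rw [this, Finset.prod_range_succ]
    rw [← hqdef, hh]
    have hh0 : 0 ≤ μ s * h q (k - (i + 1)) (wbar F A s) :=
      mul_nonneg (hμ s) (h_nonneg q hq _ _ hw0 hw1)
    have hk : (1 - 1 / q) ≤ (1 - PH) * kap q (k - (i + 1)) := by
      unfold kap
      have e4 : k - (i + 1) + 1 = k - i := by omega
      rw [e4]
      have h5 : 0 < 1 - 1 / q ^ (k - i) := by linarith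
      have h6 : 0 ≤ 1 - 1 / q := by
        have : 1 / q < 1 := by rw [div_lt_one hq0]; exact hq
        linarith
      rw [mul_div_assoc', le_div_iff₀ h5]
      nlinarith
    have h7 : (1 - PH) * (1 - kap q (k - (i + 1)) * wbar F A s) ≤
        1 - (1 - 1 / q) * wbar F A s - PH := by
      nlinarith
    calc (1 - PH) * (μ s * (h q (k - (i + 1)) (wbar F A s) *
          (1 - kap q (k - (i + 1)) * wbar F A s)))
        = μ s * h q (k - (i + 1)) (wbar F A s) *
          ((1 - PH) * (1 - kap q (k - (i + 1)) * wbar F A s)) := by ring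
      _ ≤ _ := mul_le_mul_of_nonneg_left h7 hh0
  -- choose γ
  let Hp : Finset (Dual F V) := Hc.filter fun γ => 0 < P A γ
  have hsub : ∀ f : Dual F V → ℝ, ∑ γ ∈ Hp, P A γ * f γ = ∑ γ ∈ Hc, P A γ * f γ := by
    intro f
    simp only [Hp]
    rw [Finset.sum_filter]
    refine Finset.sum_congr rfl fun γ _ => ?_
    split_ifs with h1
    · rfl
    · have : P A γ = 0 := le_antisymm (not_lt.mp h1) (P_nonneg A hA γ)
      rw [this]; ring
  have hHpne : Hp.Nonempty := by
    by_contra hcon
    rw [Finset.not_nonempty_iff_eq_empty] at hcon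
    have := hsub (fun _ => 1)
    rw [hcon] at this
    simp only [Finset.sum_empty, mul_one] at this
    rw [hsumHc] at this
    linarith
  obtain ⟨γ, hγ, hle⟩ := Finset.exists_le_of_sum_le (s := Hp)
    (f := fun γ => P A γ * Fpot μ A k i U)
    (g := fun γ => P A γ * Fpot μ A k (i + 1) (U ⊓ LinearMap.ker γ)) hHpne (by
      rw [hsub (fun _ => Fpot μ A k i U), hsub, ← Finset.sum_mul, hsumHc]
      exact havg)
  simp only [Hp, Hc, Finset.mem_filter, Finset.mem_univ, true_and] at hγ
  obtain ⟨hγ1, hγ2⟩ := hγ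
  refine ⟨U ⊓ LinearMap.ker γ, ?_, le_of_mul_le_mul_left hle hγ2⟩
  -- dimension
  have hne : ¬ U ≤ LinearMap.ker γ := fun h => hγ1 fun w hw => by
    have := h hw
    simpa using this
  have hγ0 : γ ≠ 0 := by
    rintro rfl
    exact hne (by simp)
  have hker : finrank F (LinearMap.ker γ) + 1 = finrank F V :=
    Module.Dual.finrank_ker_add_one_of_ne_zero hγ0
  have h8 := Submodule.finrank_sup_add_finrank_inf_eq U (LinearMap.ker γ)
  have h9 : finrank F (U ⊔ LinearMap.ker γ : Submodule F V) = finrank F V := by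
    have h10 : LinearMap.ker γ < U ⊔ LinearMap.ker γ := by
      refine lt_of_le_of_ne le_sup_right ?_
      intro h
      apply hne
      rw [h]; exact le_sup_left
    have h11 := Submodule.finrank_lt_finrank_of_lt h10
    have h12 := Submodule.finrank_le (U ⊔ LinearMap.ker γ)
    omega
  omega

/-- **Sampling theorem.** -/
theorem exists_subspace (μ : V → ℝ) (hμ : ∀ s, 0 ≤ μ s) (A : Finset V) (hA : A.Nonempty) (k : ℕ)
    (hcard : (A.card : ℝ) * (Fintype.card F : ℝ) ^ k ≤ Fintype.card V) :
    ∃ U : Submodule F V, finrank F U + k = finrank F V ∧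
      ∑ s, μ s * h (Fintype.card F) k (wbar F A s) ≤ ∑ s ∈ univ.filter (fun s => s ∈ U), μ s := by
  have key : ∀ i : ℕ, i ≤ k → ∃ U : Submodule F V, finrank F U + i = finrank F V ∧
      ∑ s, μ s * h (Fintype.card F) k (wbar F A s) ≤ Fpot μ A k i U := by
    intro i
    induction i with
    | zero =>
      intro _
      refine ⟨⊤, by simp, ?_⟩
      unfold Fpot
      simp
    | succ i ih =>
      intro hi
      obtain ⟨U, hU, hle⟩ := ih (by omega)
      obtain ⟨U', hU', hle'⟩ := step μ hμ A hA k i (by omega) hcard U hU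
      exact ⟨U', hU', hle.trans hle'⟩
  obtain ⟨U, hU, hle⟩ := key k le_rfl
  refine ⟨U, hU, hle.trans ?_⟩
  unfold Fpot
  simp [h]

lemma convex_h (q : ℝ) (hq : 1 < q) (m : ℕ) : ConvexOn ℝ (Set.Icc (0:ℝ) 1) (h q m) ∧
    AntitoneOn (h q m) (Set.Icc (0:ℝ) 1) := by
  induction m with
  | zero =>
    have : h q 0 = fun _ => (1:ℝ) := by funext w; simp [h]
    rw [this]
    exact ⟨convexOn_const _ (convex_Icc _ _), antitoneOn_const⟩
  | succ m ih =>
    obtain ⟨ih1, ih2⟩ := ih
    have e : h q (m + 1) = h q m * fun w => 1 - kap q m * w := by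
      funext w
      simp only [h, Pi.mul_apply, Finset.prod_range_succ]
    have hk := kap_nonneg q hq m
    have hlin : ConvexOn ℝ (Set.Icc (0:ℝ) 1) (fun w : ℝ => 1 - kap q m * w) := by
      refine ⟨convex_Icc _ _, ?_⟩
      intro x _ y _ a b _ _ hab
      simp only [smul_eq_mul]
      have : a = 1 - b := by linarith
      subst this
      apply le_of_eq; ring
    have hanti : AntitoneOn (fun w : ℝ => 1 - kap q m * w) (Set.Icc (0:ℝ) 1) := by
      intro x _ y _ hxy
      simp only
      nlinarith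
    rw [e]
    refine ⟨ConvexOn.mul ih1 hlin (fun x hx => h_nonneg q hq m x hx.1 hx.2)
      (fun x hx => factor_nonneg q hq m x hx.1 hx.2) (ih2.monovaryOn hanti), ?_⟩
    intro x hx y hy hxy
    simp only [Pi.mul_apply]
    exact mul_le_mul (ih2 hx hy hxy) (hanti hx hy hxy) (factor_nonneg q hq m y hy.1 hy.2)
      (h_nonneg q hq m x hx.1 hx.2)

/-- Version for probability weights -/
theorem exists_subspace' (μ : V → ℝ) (hμ : ∀ s, 0 ≤ μ s) (hμ1 : ∑ s, μ s = 1)
    (hinv : ∀ (c : F) (s : V), c ≠ 0 → μ (c • s) = μ s)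
    (A : Finset V) (hA : A.Nonempty) (k : ℕ)
    (hcard : (A.card : ℝ) * (Fintype.card F : ℝ) ^ k ≤ Fintype.card V) (eta : ℝ) (heta : eta ≤ 1)
    (hexp : (∑ s, μ s * outCount A s) / A.card ≤ eta) :
    ∃ U : Submodule F V, finrank F U + k = finrank F V ∧
      h (Fintype.card F) k eta ≤ ∑ s ∈ univ.filter (fun s => s ∈ U), μ s := by
  have hq := one_lt_q (F := F)
  obtain ⟨U, hU, hle⟩ := exists_subspace μ hμ A hA k hcard
  refine ⟨U, hU, le_trans ?_ hle⟩
  obtain ⟨hc, ha⟩ := convex_h (Fintype.card F : ℝ) hq k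
  have hw : ∀ s ∈ (univ : Finset V), wbar F A s ∈ Set.Icc (0:ℝ) 1 := fun s _ =>
    ⟨wbar_nonneg A s, wbar_le_one A hA s⟩
  have hJ := hc.map_sum_le (t := univ) (w := μ) (p := fun s => wbar F A s) (fun s _ => hμ s) hμ1 hw
  simp only [smul_eq_mul] at hJ
  refine le_trans ?_ hJ
  rw [sum_wbar μ hinv A hA]
  have h0 : 0 ≤ (∑ s, μ s * outCount A s) / A.card := by
    apply div_nonneg _ (Nat.cast_nonneg _)
    exact Finset.sum_nonneg fun s _ => mul_nonneg (hμ s) (Nat.cast_nonneg _)
  exact ha ⟨h0, hexp.trans heta⟩ ⟨h0.trans hexp, heta⟩ hexp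

/-- closed form lower bound -/
lemma h_lower (q : ℝ) (hq : 2 ≤ q) (k : ℕ) (eta : ℝ) (h0 : 0 ≤ eta) (h1 : eta ≤ 1) :
    (1 - eta) ^ 2 * (1 - (1 - 1 / q) * eta) ^ k ≤ h q k eta := by
  have hq1 : (1:ℝ) < q := by linarith
  have hq0 : (0:ℝ) < q := by linarith
  have hinvq : 1 / q ≤ 1 / 2 := one_div_le_one_div_of_le (by norm_num) hq
  have hinvq0 : 0 < 1 / q := by positivity
  set κ : ℝ := 1 - 1 / q with hκ
  have hκ0 : 0 ≤ κ := by linarith
  have hκ1 : κ < 1 := by linarith
  -- the ratio bound
  have hfac : ∀ j : ℕ, (1 - κ * eta) * (1 - (1 / q) ^ j * eta) ≤ 1 - kap q j * eta := by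
    intro j
    have hpow : (1 / q) ^ (j + 1) = (1 / q) ^ j * (1 / q) := pow_succ _ _
    have hpj : 0 < (1 / q) ^ j := by positivity
    have hpj1 : (1 / q) ^ j ≤ 1 := pow_le_one₀ hinvq0.le (by linarith)
    have hk : kap q j = κ / (1 - (1 / q) ^ j * (1 / q)) := by
      unfold kap
      rw [← hpow, one_div_pow]
    have hden : 0 < 1 - (1 / q) ^ j * (1 / q) := by nlinarith
    rw [hk]
    -- κ/(1-ab) ≤ κ + a (1 - κ η) with a = q^{-j}, b = 1/q = 1-κ
    have hb : 1 / q = 1 - κ := by rw [hκ]; ring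
    set a : ℝ := (1 / q) ^ j with ha
    rw [hb] at hden ⊢
    have key : κ / (1 - a * (1 - κ)) ≤ κ + a * (1 - κ) * (1:ℝ) := by
      rw [div_le_iff₀ hden]
      -- (κ + a(1-κ))(1 - a(1-κ)) - κ = a(1-κ) - κ a (1-κ) - a²(1-κ)² = a(1-κ)² (1 - a) ≥ 0
      nlinarith [mul_nonneg (mul_nonneg hpj.le (sq_nonneg (1 - κ))) (sub_nonneg.mpr hpj1)]
    have key2 : a * (1 - κ) ≤ a * (1 - κ * eta) := by
      apply mul_le_mul_of_nonneg_left _ hpj.le
      nlinarith
    nlinarith
  have hprod : ∀ m : ℕ, (1 - κ * eta) ^ m * ∏ j ∈ range m, (1 - (1 / q) ^ j * eta) ≤ h q m eta := by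
    intro m
    unfold h
    rw [← Finset.card_range m, ← Finset.prod_const, Finset.card_range, ← Finset.prod_mul_distrib]
    apply Finset.prod_le_prod
    · intro j _
      apply mul_nonneg
      · nlinarith
      · have : (1 / q) ^ j ≤ 1 := pow_le_one₀ hinvq0.le (by linarith)
        have : 0 < (1 / q) ^ j := by positivity
        nlinarith
    · intro j _; exact hfac j
  -- product of (1 - q^{-j} η), j<m, at least (1-η)(1-η(1 - q^{-(m-1)}))...
  have hW : ∀ m : ℕ, (1 - eta) * (1 - eta * (1 - (1 / 2) ^ m)) ≤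
      ∏ j ∈ range (m + 1), (1 - (1 / q) ^ j * eta) := by
    intro m
    induction m with
    | zero => simp
    | succ m ih =>
      rw [Finset.prod_range_succ]
      have hpj : (1 / q) ^ (m + 1) ≤ (1 / 2) ^ (m + 1) :=
        pow_le_pow_left₀ hinvq0.le hinvq _
      have hpj0 : 0 < (1 / q) ^ (m + 1) := by positivity
      have hh1 : ((1:ℝ) / 2) ^ (m + 1) = (1 / 2) ^ m * (1 / 2) := pow_succ _ _
      have hh0 : (0:ℝ) < (1 / 2) ^ m := by positivity
      have hh2 : ((1:ℝ) / 2) ^ m ≤ 1 := pow_le_one₀ (by norm_num) (by norm_num)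
      have hA : 0 ≤ 1 - eta := by linarith
      have hB : 0 ≤ 1 - eta * (1 - (1 / 2) ^ m) := by nlinarith
      have hC : 1 - (1 / 2) ^ (m + 1) * eta ≤ 1 - (1 / q) ^ (m + 1) * eta := by nlinarith
      have hC0 : 0 ≤ 1 - (1 / 2) ^ (m + 1) * eta := by rw [hh1]; nlinarith
      calc (1 - eta) * (1 - eta * (1 - (1 / 2) ^ (m + 1)))
          ≤ ((1 - eta) * (1 - eta * (1 - (1 / 2) ^ m))) * (1 - (1 / 2) ^ (m + 1) * eta) := by
            rw [hh1]
            have : (1 - eta * (1 - (1 / 2) ^ m)) * (1 - (1 / 2) ^ m * (1 / 2) * eta)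
                - (1 - eta * (1 - (1 / 2) ^ m * (1 / 2)))
                = (eta * (1 - (1 / 2) ^ m)) * ((1 / 2) ^ m * (1 / 2) * eta) := by ring
            have h3 : 0 ≤ (eta * (1 - (1 / 2) ^ m)) * ((1 / 2) ^ m * (1 / 2) * eta) := by
              have : (0:ℝ) ≤ 1 - (1 / 2) ^ m := by linarith
              positivity
            rw [mul_assoc]
            apply mul_le_mul_of_nonneg_left _ hA
            linarith
        _ ≤ ((1 - eta) * (1 - eta * (1 - (1 / 2) ^ m))) * (1 - (1 / q) ^ (m + 1) * eta) :=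
            mul_le_mul_of_nonneg_left hC (mul_nonneg hA hB)
        _ ≤ _ := mul_le_mul_of_nonneg_right ih (le_trans hC0 hC)
  have hfinal : (1 - eta) ^ 2 ≤ ∏ j ∈ range k, (1 - (1 / q) ^ j * eta) := by
    cases k with
    | zero =>
      rw [Finset.range_zero, Finset.prod_empty]
      nlinarith
    | succ m =>
      refine le_trans ?_ (hW m)
      have hh0 : (0:ℝ) < (1 / 2) ^ m := by positivity
      have : (1 - eta) ≤ 1 - eta * (1 - (1 / 2) ^ m) := by nlinarith
      rw [sq]
      exact mul_le_mul_of_nonneg_left this (by linarith)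
  refine le_trans ?_ (hprod k)
  rw [mul_comm]
  apply mul_le_mul_of_nonneg_left hfinal
  apply pow_nonneg
  nlinarith

end

end Pool.Agent.H562R2.CayleySample
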