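import Mathlib
import Pool.Agent.H562R2.Cluster
import Pool.Agent.H562R2.MatrixGame

/-!
Kernel estimate for `d`-to-one constraints and the resulting clustering bound.
-/

set_option autoImplicit false

namespace Pool.Agent.H562R2

open Finset

theorem HasGap.swap {U V E : Type} [Fintype E] {s : E → U} {t : E → V} {lam : ℝ}
    (h : HasGap s t lam) : HasGap t s lam := by
  intro f g hf hg
  have h1 := h g f hg hf
  have h2 : ∑ e, g (s e) * f (t e) = ∑ e, f (t e) * g (s e) :=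
    Finset.sum_congr rfl fun e _ => mul_comm _ _
  rw [h2] at h1
  linarith

section Edge

variable {A B D : Type} [Fintype A] [Fintype B] [Fintype D] {z : D → ℝ}
  {x : A → D → ℝ} {y : B → D → ℝ}

theorem ker_swap (x : A → D → ℝ) (y : B → D → ℝ) : ker x y = ker y x := by
  unfold ker
  rw [Finset.sum_comm]
  refine Finset.sum_congr rfl fun b _ => Finset.sum_congr rfl fun a _ => ?_
  rw [dotProduct_comm, mul_comm (Real.sqrt (x a ⬝ᵥ x a))]

/-- Quadratic kernel estimate for constraints with fibers of size at most `d`. -/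
theorem ker_edge_d [DecidableEq B] (hx : Fam z x) (hy : Fam z y) (π : A → B) (d : ℕ)
    (hfib : ∀ b, (Finset.univ.filter fun a => π a = b).card ≤ d) :
    (∑ a, x a ⬝ᵥ y (π a)) ^ 2 ≤ Real.sqrt d * ker x y := by
  have h1 := Finset.sum_sq_le_sum_mul_sum_of_sq_le_mul (Finset.univ : Finset A)
    (r := fun a => x a ⬝ᵥ y (π a))
    (f := fun a => Real.sqrt (x a ⬝ᵥ x a) * Real.sqrt (y (π a) ⬝ᵥ y (π a)))
    (g := fun a => (x a ⬝ᵥ y (π a)) ^ 2 /
      (Real.sqrt (x a ⬝ᵥ x a) * Real.sqrt (y (π a) ⬝ᵥ y (π a))))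
    (fun a _ => by positivity)
    (fun a _ => by positivity)
    (fun a _ => by
      by_cases h : Real.sqrt (x a ⬝ᵥ x a) * Real.sqrt (y (π a) ⬝ᵥ y (π a)) = 0
      · rw [h, zero_mul]
        rcases mul_eq_zero.mp h with h' | h'
        · rw [Real.sqrt_eq_zero (dot_self_nonneg _)] at h'
          rw [dot_zero_of _ _ h']; simp
        · rw [Real.sqrt_eq_zero (dot_self_nonneg _)] at h'
          rw [dotProduct_comm, dot_zero_of _ _ h']; simp
      · rw [mul_div_assoc', mul_div_cancel_left₀ _ h])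
  have h2 : ∑ a, Real.sqrt (x a ⬝ᵥ x a) * Real.sqrt (y (π a) ⬝ᵥ y (π a)) ≤ Real.sqrt d := by
    apply Real.le_sqrt_of_sq_le
    have h3 := Finset.sum_mul_sq_le_sq_mul_sq (Finset.univ : Finset A)
      (fun a => Real.sqrt (x a ⬝ᵥ x a)) (fun a => Real.sqrt (y (π a) ⬝ᵥ y (π a)))
    have h4 : ∑ a, Real.sqrt (x a ⬝ᵥ x a) ^ 2 = 1 := by
      rw [← hx.sum_norm]
      exact Finset.sum_congr rfl fun a _ => Real.sq_sqrt (dot_self_nonneg _)
    have h5 : ∑ a, Real.sqrt (y (π a) ⬝ᵥ y (π a)) ^ 2 ≤ d := by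
      calc ∑ a, Real.sqrt (y (π a) ⬝ᵥ y (π a)) ^ 2 = ∑ a, y (π a) ⬝ᵥ y (π a) :=
            Finset.sum_congr rfl fun a _ => Real.sq_sqrt (dot_self_nonneg _)
        _ = ∑ b, ∑ a with π a = b, y b ⬝ᵥ y b := by
            rw [← Finset.sum_fiberwise (s := Finset.univ) (g := π)]
            refine Finset.sum_congr rfl fun b _ => Finset.sum_congr rfl fun a ha => ?_
            rw [(Finset.mem_filter.mp ha).2]
        _ ≤ ∑ b, (d : ℝ) * (y b ⬝ᵥ y b) := by
            refine Finset.sum_le_sum fun b _ => ?_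
            rw [Finset.sum_const, nsmul_eq_mul]
            apply mul_le_mul_of_nonneg_right _ (dot_self_nonneg _)
            exact_mod_cast hfib b
        _ = d := by rw [← Finset.mul_sum, hy.sum_norm, mul_one]
    rw [h4, one_mul] at h3
    exact h3.trans h5
  have h4 : ∑ a, (x a ⬝ᵥ y (π a)) ^ 2 /
      (Real.sqrt (x a ⬝ᵥ x a) * Real.sqrt (y (π a) ⬝ᵥ y (π a))) ≤ ker x y := by
    unfold ker
    refine Finset.sum_le_sum fun a _ => ?_
    exact Finset.single_le_sum (f := fun b => (x a ⬝ᵥ y b) ^ 2 /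
      (Real.sqrt (x a ⬝ᵥ x a) * Real.sqrt (y b ⬝ᵥ y b))) (fun b _ => by positivity)
      (Finset.mem_univ (π a))
  exact h1.trans (mul_le_mul h2 h4 (Finset.sum_nonneg fun a _ => by positivity)
    (Real.sqrt_nonneg _))

end Edge

section

variable {U V E A B I : Type} [Fintype U] [Fintype V] [Fintype E] [Fintype A] [Fintype B]
  [Fintype I] [DecidableEq A] [DecidableEq B]

/-- Number of far-apart nearly perfect labelings of expanding `d`-to-one games; the fine labels
are those of `s`. -/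
theorem d_cluster [Nonempty E] [Nonempty I] (s : E → U) (t : E → V) (π : E → A → B) (d : ℕ)
    (hd : 1 ≤ d) (hfib : ∀ e b, (Finset.univ.filter fun a => π e a = b).card ≤ d) (lam ε : ℝ)
    (hlam : 0 < lam) (hlam1 : lam ≤ 1) (hgap : HasGap s t lam) (hε1 : ε ≤ 1)
    (hle : 1 - lam ≤ (1 - ε) ^ 2 / Real.sqrt d)
    (L : I → U → A) (M : I → V → B) (α : ℝ) (hα1 : α ≤ 1)
    (hagree : ∀ i j, i ≠ j →
      ((Finset.univ.filter fun e => L i (s e) = L j (s e)).card : ℝ) ≤ α * Fintype.card E)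
    (hval : ∀ i, (1 - ε) * Fintype.card E ≤
      ((Finset.univ.filter fun e => π e (L i (s e)) = M i (t e)).card : ℝ)) :
    Fintype.card I * ((1 - (1 - (1 - ε) ^ 2 / Real.sqrt d) / lam) ^ 2 - α) ≤
      (1 - α) * Fintype.card B := by
  have hd0 : 0 < Real.sqrt d := Real.sqrt_pos.mpr (by exact_mod_cast hd)
  obtain ⟨z, hx, hy⟩ := (mvec_feasible L M).left
  have h1 := avg_edge s t π ε (Real.sqrt d) hε1 hd0 (mix_val s t π L M (1 - ε) hval)
    (fun e => ker_edge_d (hx _) (hy _) (π e) d (hfib e))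
  have h2 : ∑ e, ker (mvec L (s e)) (mvec M (t e)) = ∑ e, ker (mvec M (t e)) (mvec L (s e)) :=
    Finset.sum_congr rfl fun e _ => ker_swap _ _
  rw [h2] at h1
  exact cluster t s lam ((1 - ε) ^ 2 / Real.sqrt d) hlam hlam1 hgap.swap M L α hα1 hagree h1 hle

end

end Pool.Agent.H562R2
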