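import Mathlib
import Pool.Agent.H562R2.Hyper

/-!
`2^j`-to-one games from restrictions of Boolean functions to random subspaces of codimension `j`.
-/

set_option autoImplicit false

namespace Pool.Agent.H562R2

open Finset

variable {j m : ℕ}

/-- Matrices; the subspace is the graph of the matrix. -/
abbrev Mx (j m : ℕ) := Fin j → Gam m

/-- Second block of coordinates. -/
def sndb (x : Gam (j + m)) : Gam m := fun l => x (Fin.natAdd j l)

/-- First block of coordinates. -/
def fstb (x : Gam (j + m)) : Gam j := fun i => x (Fin.castAdd m i)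

/-- Matrix-vector product. -/
def mv (G : Mx j m) (y : Gam m) : Gam j := fun i => chi (G i) y

/-- Embedding of the subspace. -/
def io (G : Mx j m) (y : Gam m) : Gam (j + m) := Fin.append (mv G y) y

/-- Transposed matrix times vector. -/
def tv (G : Mx j m) (a : Gam j) : Gam m := fun l => ∑ i, a i * G i l

/-- The dual map. -/
def pm (G : Mx j m) (a : Gam (j + m)) : Gam m := sndb a + tv G (fstb a)

theorem sndb_io (G : Mx j m) (y : Gam m) : sndb (io G y) = y := by
  funext l; simp [sndb, io]

theorem fstb_io (G : Mx j m) (y : Gam m) : fstb (io G y) = mv G y := by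
  funext l; simp [fstb, io]

theorem fstb_append (a : Gam j) (b : Gam m) : fstb (Fin.append a b) = a := by
  funext l; simp [fstb]

theorem sndb_append (a : Gam j) (b : Gam m) : sndb (Fin.append a b) = b := by
  funext l; simp [sndb]

theorem append_fs (x : Gam (j + m)) : Fin.append (fstb x) (sndb x) = x := by
  funext l
  refine Fin.addCases (fun i => ?_) (fun i => ?_) l
  · simp [fstb]
  · simp [sndb]

theorem chi_split (a x : Gam (j + m)) :
    chi a x = chi (fstb a) (fstb x) + chi (sndb a) (sndb x) := by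
  simp only [chi, dotProduct, fstb, sndb]
  exact Fin.sum_univ_add _

theorem chi_tv (G : Mx j m) (a : Gam j) (y : Gam m) : chi (tv G a) y = chi a (mv G y) := by
  simp only [chi, dotProduct, tv, mv, Finset.mul_sum, Finset.sum_mul]
  rw [Finset.sum_comm]
  exact Finset.sum_congr rfl fun i _ => Finset.sum_congr rfl fun l _ => by ring

theorem chi_io (G : Mx j m) (a : Gam (j + m)) (y : Gam m) : chi a (io G y) = chi (pm G a) y := by
  rw [chi_split, fstb_io, sndb_io, pm, chi_add, Pi.add_apply, chi_tv, add_comm]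

theorem mv_zero (G : Mx j m) : mv G 0 = 0 := by
  funext i; exact chi_at_zero _

theorem io_zero (G : Mx j m) : io G 0 = 0 := by
  rw [← append_fs (0 : Gam (j + m)), io, mv_zero]
  rfl

theorem mem_io (G : Mx j m) (x : Gam (j + m)) : x = io G (sndb x) ↔ fstb x = mv G (sndb x) := by
  constructor
  · intro h
    rw [← fstb_io, ← h]
  · intro h
    rw [io, ← h, append_fs]

theorem tv_zero (G : Mx j m) : tv G 0 = 0 := by
  funext l; simp [tv]

theorem tv_add (G : Mx j m) (a b : Gam j) : tv G (a + b) = tv G a + tv G b := by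
  funext l
  simp only [tv, Pi.add_apply, add_mul, Finset.sum_add_distrib]

theorem pm_add (G : Mx j m) (a b : Gam (j + m)) : pm G (a + b) = pm G a + pm G b := by
  have h1 : fstb (a + b) = fstb a + fstb b := rfl
  have h2 : sndb (a + b) = sndb a + sndb b := rfl
  rw [pm, h1, h2, tv_add, pm, pm]
  ring

/-- Sum over a fiber of the dual map. -/
theorem fiber_sum {K : Type} [AddCommMonoid K] (G : Mx j m) (b : Gam m) (F : Gam (j + m) → K) :
    ∑ a with pm G a = b, F a = ∑ α : Gam j, F (Fin.append α (b + tv G α)) := by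
  refine Finset.sum_bij' (fun a _ => fstb a) (fun α _ => Fin.append α (b + tv G α)) ?_ ?_ ?_ ?_ ?_
  · intro a _; exact Finset.mem_univ _
  · intro α _
    rw [Finset.mem_filter]
    refine ⟨Finset.mem_univ _, ?_⟩
    rw [pm, sndb_append, fstb_append, add_assoc, pi_add_self, add_zero]
  · intro a ha
    rw [Finset.mem_filter] at ha
    rw [← ha.2, pm, add_assoc, pi_add_self, add_zero, append_fs]
  · intro α _
    exact fstb_append _ _
  · intro a ha
    rw [Finset.mem_filter] at ha
    rw [← ha.2, pm, add_assoc, pi_add_self, add_zero, append_fs]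

theorem fiber_card (G : Mx j m) (b : Gam m) :
    (Finset.univ.filter fun a => pm G a = b).card = 2 ^ j := by
  rw [Finset.card_eq_sum_ones, fiber_sum]
  simp

theorem fiber_chi (G : Mx j m) (b : Gam m) (S : Gam (j + m)) :
    ∑ a with pm G a = b, sg (chi a S) =
      if S = io G (sndb S) then (2 : ℝ) ^ j * sg (chi b (sndb S)) else 0 := by
  rw [fiber_sum]
  have h1 : ∀ α : Gam j, sg (chi (Fin.append α (b + tv G α)) S) =
      sg (chi b (sndb S)) * sg (chi α (fstb S + mv G (sndb S))) := by
    intro α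
    rw [chi_split, fstb_append, sndb_append, chi_add, Pi.add_apply, chi_tv, ← sg_add, chi_at_add]
    congr 1
    ring
  simp only [h1]
  rw [← Finset.mul_sum, sum_chi']
  by_cases h : S = io G (sndb S)
  · rw [if_pos h, if_pos, mul_comm]
    rw [← (mem_io G S).mp h, pi_add_self]
  · rw [if_neg h, if_neg, mul_zero]
    intro h2
    apply h
    rw [mem_io]
    have := (eq_add_iff _ _ _).mp h2
    rwa [zero_add] at this

/-- Sum over the subspace. -/
theorem sum_sub {K : Type} [AddCommMonoid K] (G : Mx j m) (F : Gam (j + m) → K) :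
    ∑ S, (if S = io G (sndb S) then F S else 0) = ∑ y, F (io G y) := by
  rw [← Finset.sum_filter]
  refine Finset.sum_bij' (fun S _ => sndb S) (fun y _ => io G y) ?_ ?_ ?_ ?_ ?_
  · intro a _; exact Finset.mem_univ _
  · intro y _
    rw [Finset.mem_filter]
    exact ⟨Finset.mem_univ _, by rw [sndb_io]⟩
  · intro a ha
    rw [Finset.mem_filter] at ha
    exact ha.2.symm
  · intro y _
    exact sndb_io _ _
  · intro a ha
    rw [Finset.mem_filter] at ha
    rw [← ha.2]

/-- Edges. -/
abbrev DE (j m : ℕ) := Fn (j + m) × Mx j m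

/-- Endpoint with fine labels. -/
def ds : DE j m → Fn (j + m) := fun e => rep e.1

/-- Restriction to a subspace. -/
def dres (G : Mx j m) (f : Fn (j + m)) : Fn m := fun y => f (io G y)

/-- Endpoint with coarse labels. -/
def dt : DE j m → Mx j m × Fn m := fun e => (e.2, rep (dres e.2 e.1))

/-- Constraint. -/
def dp (e : DE j m) (a : Gam (j + m)) : Gam m :=
  pm e.2 (a + idx e.1) + idx (dres e.2 e.1)

theorem dres_add (G : Mx j m) (f g : Fn (j + m)) : dres G (f + g) = dres G f + dres G g := rfl

theorem dres_chi (G : Mx j m) (i : Gam (j + m)) : dres G (chi i) = chi (pm G i) := by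
  funext y; exact chi_io G i y

theorem dres_cst (G : Mx j m) (c : Bool) : dres G (cst (j + m) c) = cst m c := rfl

theorem dp_sum {K : Type} [AddCommMonoid K] (e : DE j m) (b : Gam m) (F : Gam (j + m) → K) :
    ∑ a with dp e a = b, F a = ∑ a with pm e.2 a = b + idx (dres e.2 e.1), F (a + idx e.1) := by
  rw [Finset.sum_filter, Finset.sum_filter,
    ← Equiv.sum_comp (Equiv.addRight (idx e.1)) (fun a => if dp e a = b then F a else 0)]
  refine Finset.sum_congr rfl fun a _ => ?_
  have h1 : dp e (Equiv.addRight (idx e.1) a) = pm e.2 a + idx (dres e.2 e.1) := by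
    rw [dp, Equiv.coe_addRight, add_assoc, pi_add_self, add_zero]
  have h2 : pm e.2 a + idx (dres e.2 e.1) = b ↔ pm e.2 a = b + idx (dres e.2 e.1) :=
    eq_add_iff _ _ _
  by_cases h : pm e.2 a = b + idx (dres e.2 e.1)
  · rw [if_pos h, if_pos (by rw [h1]; exact h2.mpr h)]
    rfl
  · rw [if_neg h, if_neg (by rw [h1]; exact fun h3 => h (h2.mp h3))]

theorem dp_card (e : DE j m) (b : Gam m) :
    (Finset.univ.filter fun a => dp e a = b).card = 2 ^ j := by
  rw [Finset.card_eq_sum_ones, dp_sum, ← Finset.card_eq_sum_ones, fiber_card]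

/-- Coarse vectors. -/
noncomputable def dyv (v : Mx j m × Fn m) (b : Gam m) : Gam (j + m) → ℝ := fun S =>
  if S = io v.1 (sndb S) then
    (1 / (2 : ℝ) ^ m) * sg (v.2 (sndb S) + v.2 0 + chi b (sndb S)) else 0

theorem dyv_sum (v : Mx j m × Fn m) :
    ∑ b, dyv v b = fun S => if S = 0 then (1 : ℝ) else 0 := by
  have h0 : (2 : ℝ) ^ m ≠ 0 := by positivity
  obtain ⟨G, g⟩ := v
  funext S
  rw [Finset.sum_apply]
  by_cases hS : S = io G (sndb S)
  · have h1 : ∀ b, dyv (G, g) b S = (1 / (2 : ℝ) ^ m) * sg (g (sndb S) + g 0) *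
        sg (chi b (sndb S)) := by
      intro b
      simp only [dyv]
      rw [if_pos hS]
      simp only [sg_add]
      ring
    simp only [h1]
    rw [← Finset.mul_sum, sum_chi']
    by_cases h : S = 0
    · have h2 : sndb (0 : Gam (j + m)) = 0 := rfl
      rw [if_pos h, h, h2, if_pos rfl, bool_add_self, sg_zero]
      field_simp
    · rw [if_neg h, if_neg, mul_zero]
      intro h2
      apply h
      rw [hS, h2, io_zero]
  · have h1 : ∀ b, dyv (G, g) b S = 0 := by
      intro b
      simp only [dyv]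
      rw [if_neg hS]
    simp only [h1]
    rw [Finset.sum_const_zero, if_neg]
    intro h
    apply hS
    rw [h]
    have h2 : sndb (0 : Gam (j + m)) = 0 := rfl
    rw [h2, io_zero]

theorem dyv_orth (v : Mx j m × Fn m) (b b' : Gam m) (hbb : b ≠ b') :
    dyv v b ⬝ᵥ dyv v b' = 0 := by
  obtain ⟨G, g⟩ := v
  have h1 : dyv (G, g) b ⬝ᵥ dyv (G, g) b' = ∑ S, (if S = io G (sndb S) then
      (1 / (2 : ℝ) ^ m) ^ 2 * sg (chi (b + b') (sndb S)) else 0) := by
    unfold dotProduct
    refine Finset.sum_congr rfl fun S _ => ?_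
    simp only [dyv]
    by_cases hS : S = io G (sndb S)
    · rw [if_pos hS, if_pos hS, if_pos hS]
      simp only [chi_add, Pi.add_apply, sg_add]
      have e1 := sg_mul_self (g (sndb S))
      have e2 := sg_mul_self (g 0)
      calc 1 / (2 : ℝ) ^ m * (sg (g (sndb S)) * sg (g 0) * sg (chi b (sndb S))) *
            (1 / (2 : ℝ) ^ m * (sg (g (sndb S)) * sg (g 0) * sg (chi b' (sndb S))))
          = (1 / (2 : ℝ) ^ m) ^ 2 * (sg (g (sndb S)) * sg (g (sndb S))) * (sg (g 0) * sg (g 0)) *
            (sg (chi b (sndb S)) * sg (chi b' (sndb S))) := by ring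
        _ = _ := by rw [e1, e2]; ring
    · rw [if_neg hS, if_neg hS, zero_mul, if_neg hS]
  rw [h1, sum_sub G (fun S => (1 / (2 : ℝ) ^ m) ^ 2 * sg (chi (b + b') (sndb S)))]
  simp only [sndb_io]
  rw [← Finset.mul_sum, sum_chi, if_neg, mul_zero]
  intro h2
  apply hbb
  have := (eq_add_iff b b' 0).mp h2
  rwa [zero_add] at this

theorem dperfect_edge (e : DE j m) (b : Gam m) :
    dyv (dt e) b = ∑ a with dp e a = b, xv (ds e) a := by
  obtain ⟨f, G⟩ := e
  have h0 : (2 : ℝ) ^ m ≠ 0 := by positivity
  have h0' : (2 : ℝ) ^ j ≠ 0 := by positivity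
  funext S
  rw [Finset.sum_apply]
  obtain ⟨c, hc⟩ : ∃ c, c = idx (dres G f) := ⟨_, rfl⟩
  have h1 : ∀ a, xv (ds (f, G)) a S = (1 / (2 : ℝ) ^ (j + m)) * sg (f S + f 0) *
      sg (chi (a + idx f) S) := by
    intro a
    have h2 : rep f 0 = 0 := by
      rw [rep, chi_at_zero, add_zero, bool_add_self]
    simp only [xv, ds, h2, add_zero]
    simp only [rep, chi_add, Pi.add_apply, sg_add]
    ring
  simp only [h1]
  rw [← Finset.mul_sum, dp_sum (f, G) b (fun a => sg (chi (a + idx f) S))]
  have h3 : ∀ a, a + idx f + idx f = a := fun a => by rw [add_assoc, pi_add_self, add_zero]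
  simp only [h3]
  rw [fiber_chi, ← hc]
  have hdy : dyv (dt (f, G)) b S = if S = io G (sndb S) then (1 / (2 : ℝ) ^ m) *
      sg (rep (dres G f) (sndb S) + rep (dres G f) 0 + chi b (sndb S)) else 0 := rfl
  rw [hdy]
  by_cases hS : S = io G (sndb S)
  · rw [if_pos hS, if_pos hS]
    have h7 : rep (dres G f) 0 = 0 := by
      rw [rep, chi_at_zero, add_zero, bool_add_self]
    rw [h7, add_zero]
    have h8 : dres G f (sndb S) = f S := by rw [dres, ← hS]
    have h9 : dres G f 0 = f 0 := by rw [dres, io_zero]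
    simp only [rep, h8, h9, ← hc, chi_add, Pi.add_apply, sg_add, pow_add]
    field_simp
  · rw [if_neg hS, if_neg hS, mul_zero]

end Pool.Agent.H562R2
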