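import Mathlib
import Pool.Agent.H562R2.HyperGame
import Pool.Agent.H562R2.DHyper

/-!
Spectral gap and soundness of the subspace restriction games.
-/

set_option autoImplicit false

namespace Pool.Agent.H562R2

open Finset

/-- Orthogonal complements of sets. -/
theorem perp_card {k : ℕ} (S : Finset (Gam k)) :
    (Finset.univ.filter fun h : Gam k => ∀ x ∈ S, chi h x = 0).card * S.card ≤ 2 ^ k := by
  classical
  set W : Finset (Gam k) := Finset.univ.filter fun h => ∀ x ∈ S, chi h x = 0 with hW
  have h0W : (0 : Gam k) ∈ W := by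
    rw [hW, Finset.mem_filter]
    exact ⟨Finset.mem_univ _, fun x _ => by rw [chi_zero]; rfl⟩
  have h1 : ∑ h ∈ W, ∑ x, sg (chi h x) = (2 : ℝ) ^ k := by
    rw [Finset.sum_eq_single 0]
    · rw [sum_chi, if_pos rfl]
    · intro b _ hb
      rw [sum_chi, if_neg hb]
    · intro h; exact absurd h0W h
  rw [Finset.sum_comm] at h1
  have h2 : ∀ x, 0 ≤ ∑ h ∈ W, sg (chi h x) := by
    intro x
    by_cases hx : ∀ h ∈ W, chi h x = 0
    · rw [Finset.sum_congr rfl fun h hh => by rw [hx h hh]]
      simp [sg_zero]
    · push Not at hx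
      obtain ⟨h0, hh0, hx0⟩ := hx
      have hx1 : chi h0 x = 1 := by
        rcases bool_cases (chi h0 x) with h | h
        · exact absurd h hx0
        · exact h
      have h3 : ∑ h ∈ W, sg (chi h x) = ∑ h ∈ W, sg (chi (h + h0) x) := by
        symm
        apply Finset.sum_bij (fun h _ => h + h0)
        · intro a ha
          rw [hW, Finset.mem_filter] at ha hh0 ⊢
          refine ⟨Finset.mem_univ _, fun y hy => ?_⟩
          rw [chi_add, Pi.add_apply, ha.2 y hy, hh0.2 y hy, add_zero]
        · intro a _ b _ hab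
          exact add_right_cancel' a b h0 hab
        · intro b hb
          refine ⟨b + h0, ?_, ?_⟩
          · rw [hW, Finset.mem_filter] at hb hh0 ⊢
            refine ⟨Finset.mem_univ _, fun y hy => ?_⟩
            rw [chi_add, Pi.add_apply, hb.2 y hy, hh0.2 y hy, add_zero]
          · rw [add_assoc, pi_add_self, add_zero]
        · intro a _
          rfl
      have h4 : ∀ h, sg (chi (h + h0) x) = - sg (chi h x) := by
        intro h
        rw [chi_add, Pi.add_apply, sg_add, hx1, sg_one]
        ring
      simp only [h4] at h3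
      rw [Finset.sum_neg_distrib] at h3
      linarith
  have h5 : (W.card : ℝ) * S.card ≤ 2 ^ k := by
    rw [← h1]
    calc (W.card : ℝ) * S.card = ∑ x ∈ S, ∑ h ∈ W, sg (chi h x) := by
          have : ∀ x ∈ S, ∑ h ∈ W, sg (chi h x) = (W.card : ℝ) := by
            intro x hx
            have h6 : ∀ h ∈ W, sg (chi h x) = 1 := by
              intro h hh
              rw [hW, Finset.mem_filter] at hh
              rw [hh.2 x hx, sg_zero]
            rw [Finset.sum_congr rfl h6]
            simp
          rw [Finset.sum_congr rfl this, Finset.sum_const, nsmul_eq_mul, mul_comm]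
      _ ≤ ∑ x, ∑ h ∈ W, sg (chi h x) :=
          Finset.sum_le_sum_of_subset_of_nonneg (Finset.subset_univ _) fun x _ _ => h2 x
  exact_mod_cast h5

/-- Affine systems have at most as many solutions as the homogeneous ones. -/
theorem affine_card {k : ℕ} (S : Finset (Gam k)) (v : Gam k → Bool) :
    (Finset.univ.filter fun h : Gam k => ∀ x ∈ S, chi h x = v x).card * S.card ≤ 2 ^ k := by
  rcases (Finset.univ.filter fun h : Gam k => ∀ x ∈ S, chi h x = v x).eq_empty_or_nonempty with
    h0 | ⟨h0, hh0⟩
  · rw [h0, Finset.card_empty, zero_mul]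
    exact Nat.zero_le _
  · refine le_trans (Nat.mul_le_mul_right _ ?_) (perp_card S)
    apply Finset.card_le_card_of_injOn (fun h => h + h0)
    · intro h hh
      rw [Finset.mem_coe, Finset.mem_filter] at hh ⊢
      rw [Finset.mem_filter] at hh0
      refine ⟨Finset.mem_univ _, fun x hx => ?_⟩
      rw [chi_add, Pi.add_apply, hh.2 x hx, hh0.2 x hx, bool_add_self]
    · intro a _ b _ hab
      exact add_right_cancel' a b h0 hab

variable {j m : ℕ}

/-- Matrices whose subspace contains `S`. -/
def gset (S : Finset (Gam (j + m))) : Finset (Mx j m) :=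
  Finset.univ.filter fun G => ∀ x ∈ S, x = io G (sndb x)

theorem gset_card (S : Finset (Gam (j + m))) :
    (gset S).card * S.card ^ j ≤ Fintype.card (Mx j m) := by
  classical
  rcases (gset S).eq_empty_or_nonempty with h0 | ⟨G0, hG0⟩
  · rw [h0, Finset.card_empty, zero_mul]
    exact Nat.zero_le _
  · have hG0' : ∀ x ∈ S, x = io G0 (sndb x) := (Finset.mem_filter.mp hG0).2
    have hcard : (S.image sndb).card = S.card := by
      apply Finset.card_image_of_injOn
      intro x hx y hy hxy
      have hxy' : sndb x = sndb y := hxy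
      exact (hG0' x hx).trans ((congrArg (io G0) hxy').trans (hG0' y hy).symm)
    -- rowwise
    have h1 : gset S ⊆ Fintype.piFinset fun i : Fin j =>
        Finset.univ.filter fun g : Gam m => ∀ y ∈ S.image sndb, chi g y = mv G0 y i := by
      intro G hG
      have hG' : ∀ x ∈ S, x = io G (sndb x) := (Finset.mem_filter.mp hG).2
      rw [Fintype.mem_piFinset]
      intro i
      rw [Finset.mem_filter]
      refine ⟨Finset.mem_univ _, fun y hy => ?_⟩
      obtain ⟨x, hx, rfl⟩ := Finset.mem_image.mp hy
      have e1 := (mem_io G x).mp (hG' x hx)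
      have e2 := (mem_io G0 x).mp (hG0' x hx)
      have e3 := congrFun (e1.symm.trans e2) i
      exact e3
    have h2 := Finset.card_le_card h1
    rw [Fintype.card_piFinset] at h2
    calc (gset S).card * S.card ^ j
        ≤ (∏ i : Fin j, (Finset.univ.filter fun g : Gam m =>
            ∀ y ∈ S.image sndb, chi g y = mv G0 y i).card) * S.card ^ j :=
          Nat.mul_le_mul_right _ h2
      _ = ∏ i : Fin j, ((Finset.univ.filter fun g : Gam m =>
            ∀ y ∈ S.image sndb, chi g y = mv G0 y i).card * (S.image sndb).card) := by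
          rw [Finset.prod_mul_distrib, Finset.prod_const, Finset.card_univ, Fintype.card_fin,
            hcard]
      _ ≤ ∏ _i : Fin j, 2 ^ m :=
          Finset.prod_le_prod' fun i _ => affine_card (S.image sndb) (fun y => mv G0 y i)
      _ = Fintype.card (Mx j m) := by
          rw [Finset.prod_const, Finset.card_univ, Fintype.card_fin, Fintype.card_fun,
            Fintype.card_fun, Fintype.card_bool, Fintype.card_fin, Fintype.card_fin]

theorem dfc_out (G : Mx j m) (Ψ : Fn m → ℝ) (S : Finset (Gam (j + m))) (hS : G ∉ gset S) :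
    fc (fun f => Ψ (dres G f)) S = 0 := by
  have : ∃ x ∈ S, x ≠ io G (sndb x) := by
    by_contra hcon
    push Not at hcon
    apply hS
    rw [gset, Finset.mem_filter]
    exact ⟨Finset.mem_univ _, hcon⟩
  obtain ⟨x, hx, hxh⟩ := this
  apply fc_shift _ (Pi.single x 1)
  · intro f
    have : dres G (f + Pi.single x 1) = dres G f := by
      funext y
      simp only [dres, Pi.add_apply]
      have h1 : io G y ≠ x := by
        intro h2
        apply hxh
        rw [← h2, sndb_io]
      rw [Pi.single_eq_of_ne h1, add_zero]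
    rw [this]
  · rw [walsh, Finset.prod_eq_single x]
    · rw [Pi.single_eq_same, sg_one]
    · intro y _ hy
      rw [Pi.single_eq_of_ne hy, sg_zero]
    · intro h2
      exact absurd hx h2

theorem sum_ds (g : Fn (j + m) → ℝ) :
    ∑ e : DE j m, g (ds e) = (Fintype.card (Mx j m) : ℝ) * ∑ f, g (rep f) := by
  rw [Fintype.sum_prod_type]
  simp only [ds]
  rw [Finset.mul_sum]
  refine Finset.sum_congr rfl fun h _ => ?_
  rw [Finset.sum_const, Finset.card_univ, nsmul_eq_mul]

theorem dhasGap : HasGap (ds (j := j) (m := m)) dt (1 - 1 / 2 ^ j) := by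
  intro F G hF hG
  have h2N : (0 : ℝ) < 2 ^ Fintype.card (Gam (j + m)) := by positivity
  obtain ⟨d, hd⟩ : ∃ d : ℝ, d = 2 ^ j := ⟨_, rfl⟩
  have hd0 : 0 < d := by rw [hd]; positivity
  obtain ⟨M, hM⟩ : ∃ M : ℝ, M = Fintype.card (Mx j m) := ⟨_, rfl⟩
  have hM0 : 0 < M := by rw [hM]; exact_mod_cast Fintype.card_pos
  rw [sum_ds F, ← hM] at hF
  rw [sum_ds (fun u => F u ^ 2), ← hM, ← hd]
  have hgapeq : 1 - (1 - 1 / d) = 1 / d := by ring
  rw [hgapeq]
  obtain ⟨Ph, hPh⟩ : ∃ Ph : Fn (j + m) → ℝ, ∀ f, Ph f = F (rep f) :=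
    ⟨fun f => F (rep f), fun _ => rfl⟩
  obtain ⟨Q, hQ⟩ : ∃ Q : Mx j m → Fn (j + m) → ℝ, ∀ h f, Q h f = G (h, rep (dres h f)) :=
    ⟨fun h f => G (h, rep (dres h f)), fun _ _ => rfl⟩
  have e1 : ∑ e : DE j m, F (ds e) * G (dt e) = ∑ h, ∑ f, Ph f * Q h f := by
    rw [Fintype.sum_prod_type, Finset.sum_comm]
    refine Finset.sum_congr rfl fun h _ => Finset.sum_congr rfl fun f _ => ?_
    rw [hPh, hQ]; rfl
  have e2 : ∑ e : DE j m, G (dt e) ^ 2 = ∑ h, ∑ f, Q h f ^ 2 := by
    rw [Fintype.sum_prod_type, Finset.sum_comm]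
    refine Finset.sum_congr rfl fun h _ => Finset.sum_congr rfl fun f _ => ?_
    rw [hQ]; rfl
  have e3 : ∑ f, F (rep f) ^ 2 = ∑ f, Ph f ^ 2 :=
    Finset.sum_congr rfl fun f _ => by rw [hPh]
  rw [e1, e2, e3]
  have p1 : ∀ h, ∑ f, Ph f * Q h f =
      2 ^ Fintype.card (Gam (j + m)) * ∑ S, fc Ph S * fc (Q h) S := by
    intro h
    rw [parseval]
    field_simp
  have p2 : ∀ h, ∑ f, Q h f ^ 2 = 2 ^ Fintype.card (Gam (j + m)) * ∑ S, fc (Q h) S ^ 2 := by
    intro h
    have := parseval (Q h) (Q h)
    simp only [← sq] at this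
    rw [this]
    field_simp
  have p3 : ∑ f, Ph f ^ 2 = 2 ^ Fintype.card (Gam (j + m)) * ∑ S, fc Ph S ^ 2 := by
    have := parseval Ph Ph
    simp only [← sq] at this
    rw [this]
    field_simp
  simp only [p1, p2, p3]
  rw [← Finset.mul_sum, ← Finset.mul_sum]
  -- termwise bound
  have key : ∀ h S, 2 * (fc Ph S * fc (Q h) S) ≤
      (if h ∈ gset S ∧ 4 ≤ S.card then d * fc Ph S ^ 2 else 0) + 1 / d * fc (Q h) S ^ 2 := by
    intro h S
    have hQinv1 : ∀ f i, Q h (f + chi i) = Q h f := by
      intro f i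
      rw [hQ, hQ, dres_add, dres_chi, rep_chi]
    have hQinv2 : ∀ f c, Q h (f + cst (j + m) c) = Q h f := by
      intro f c
      rw [hQ, hQ, dres_add, dres_cst, rep_cst]
    have hnn : 0 ≤ 1 / d * fc (Q h) S ^ 2 := by positivity
    have hnn2 : 0 ≤ (if h ∈ gset S ∧ 4 ≤ S.card then d * fc Ph S ^ 2 else 0) := by
      split_ifs
      · positivity
      · exact le_refl _
    rcases S.eq_empty_or_nonempty with hS | hS
    · have hF' : ∑ f, F (rep f) = 0 := by
        rcases mul_eq_zero.mp hF with h1 | h1
        · exact absurd h1 hM0.ne'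
        · exact h1
      have : fc Ph S = 0 := by
        rw [hS, fc]
        simp only [walsh_empty, mul_one, hPh]
        rw [hF', zero_div]
      have h0 : 2 * (fc Ph S * fc (Q h) S) = 0 := by rw [this, zero_mul, mul_zero]
      rw [h0]
      exact add_nonneg hnn2 hnn
    · by_cases hc : S.card < 4
      · rw [fc_low' (Q h) hQinv1 hQinv2 S hS hc] at hnn ⊢
        rw [mul_zero, mul_zero]
        linarith
      · by_cases hdS : h ∈ gset S
        · rw [if_pos ⟨hdS, by omega⟩]
          set p := fc Ph S
          set q := fc (Q h) S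
          have e4 : d * p ^ 2 + 1 / d * q ^ 2 - 2 * (p * q) = (d * p - q) ^ 2 / d := by
            field_simp
            ring
          have e5 : 0 ≤ (d * p - q) ^ 2 / d := by positivity
          linarith
        · have hz : fc (Q h) S = 0 := by
            have := dfc_out h (fun g => G (h, rep g)) S hdS
            have h2 : (fun f => G (h, rep (dres h f))) = Q h := by
              funext f; rw [hQ]
            rwa [h2] at this
          rw [hz] at hnn ⊢
          rw [mul_zero, mul_zero]
          linarith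
  have h3 : 2 * ∑ h, ∑ S, fc Ph S * fc (Q h) S ≤
      1 / d * (M * ∑ S, fc Ph S ^ 2 + ∑ h, ∑ S, fc (Q h) S ^ 2) := by
    have h4 := Finset.sum_le_sum fun h (_ : h ∈ (Finset.univ : Finset (Mx j m))) =>
      Finset.sum_le_sum fun S (_ : S ∈ (Finset.univ : Finset (Finset (Gam (j + m))))) => key h S
    simp only [Finset.sum_add_distrib, ← Finset.mul_sum] at h4
    have h5 : ∑ h, ∑ S, (if h ∈ gset S ∧ 4 ≤ S.card then d * fc Ph S ^ 2 else 0) ≤
        1 / d * (M * ∑ S, fc Ph S ^ 2) := by
      rw [Finset.sum_comm, Finset.mul_sum, Finset.mul_sum]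
      refine Finset.sum_le_sum fun S _ => ?_
      by_cases hc : 4 ≤ S.card
      · simp only [hc, and_true]
        rw [← Finset.sum_filter, Finset.sum_const, nsmul_eq_mul]
        have h6 := gset_card S
        have h7 : (Finset.univ.filter fun h => h ∈ gset S) = gset S := by
          ext; simp
        rw [h7]
        have h8 : ((gset S).card : ℝ) * d ^ 2 ≤ M := by
          have e6 : d ^ 2 = 4 ^ j := by
            rw [hd, ← pow_mul, mul_comm, pow_mul]; norm_num
          rw [hM, e6]
          have : (gset S).card * 4 ^ j ≤ Fintype.card (Mx j m) :=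
            (Nat.mul_le_mul_left _ (Nat.pow_le_pow_left hc j)).trans h6
          exact_mod_cast this
        have e7 : 1 / d * (M * fc Ph S ^ 2) - (gset S).card * (d * fc Ph S ^ 2) =
            (M - (gset S).card * d ^ 2) * fc Ph S ^ 2 / d := by
          field_simp
        have e8 : 0 ≤ (M - (gset S).card * d ^ 2) * fc Ph S ^ 2 / d :=
          div_nonneg (mul_nonneg (by linarith) (sq_nonneg _)) hd0.le
        linarith
      · simp only [hc, and_false, if_false, Finset.sum_const_zero]
        positivity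
    linarith
  have h9 := mul_le_mul_of_nonneg_left h3 h2N.le
  linarith

theorem dvalue (hj : 1 ≤ j) (L : Fn (j + m) → Gam (j + m)) (M : Mx j m × Fn m → Gam m) (J : ℕ)
    (β : ℝ) (hβ : 0 < β) :
    ((Finset.univ.filter fun e => dp e (L (ds e)) = M (dt e)).card : ℝ) ≤
      (β / 2 * (3 ^ J * Real.sqrt (1 / 2 ^ (j + m)) + 1 / (J + 1)) + 2 ^ j / (2 * β)) *
        Fintype.card (DE j m) := by
  have h2N : (0 : ℝ) < 2 ^ Fintype.card (Gam (j + m)) := by positivity
  obtain ⟨N, hN⟩ : ∃ N : ℝ, N = Fintype.card (Mx j m) := ⟨_, rfl⟩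
  have hN0 : 0 < N := by rw [hN]; exact_mod_cast Fintype.card_pos
  obtain ⟨μ, hμ⟩ : ∃ μ : ℝ, μ = 1 / 2 ^ (j + m) := ⟨_, rfl⟩
  have hμ0 : 0 ≤ μ := by rw [hμ]; positivity
  have hτ2 : Real.sqrt μ ^ 2 = μ := Real.sq_sqrt hμ0
  rw [← hμ]
  obtain ⟨Q, hQ⟩ : ∃ Q : Mx j m → Gam (j + m) → Fn (j + m) → ℝ, ∀ h a f, Q h a f =
      if pm h a = M (h, rep (dres h f)) + idx (dres h f) then 1 else 0 := ⟨_, fun _ _ _ => rfl⟩
  have h1 : ((Finset.univ.filter fun e => dp e (L (ds e)) = M (dt e)).card : ℝ) =
      ∑ h, ∑ a, ∑ f, chosen L a f * Q h a f := by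
    have h2 : ∑ h, ∑ a, ∑ f, chosen L a f * Q h a f =
        ∑ h : Mx j m, ∑ f : Fn (j + m), (if dp (f, h) (L (ds (f, h))) = M (dt (f, h))
          then (1 : ℝ) else 0) := by
      refine Finset.sum_congr rfl fun h _ => ?_
      rw [Finset.sum_comm]
      refine Finset.sum_congr rfl fun f _ => ?_
      have h3 : ∀ a, chosen L a f * Q h a f = if idx f + L (rep f) = a then
          (if pm h a = M (h, rep (dres h f)) + idx (dres h f) then (1 : ℝ) else 0) else 0 := by
        intro a
        rw [hQ]
        unfold chosen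
        by_cases hc : idx f + L (rep f) = a
        · simp [hc]
        · simp [hc]
      simp only [h3]
      rw [Finset.sum_ite_eq]
      simp only [Finset.mem_univ, if_true]
      have h4 : (pm h (idx f + L (rep f)) = M (h, rep (dres h f)) + idx (dres h f)) ↔
          dp (f, h) (L (ds (f, h))) = M (dt (f, h)) := by
        simp only [dp, ds, dt]
        rw [eq_add_iff, add_comm (idx f)]
      simp only [h4]
    rw [h2, Finset.sum_comm, ← Fintype.sum_prod_type' (f := fun (f : Fn (j + m)) (h : Mx j m) =>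
      (if dp (f, h) (L (ds (f, h))) = M (dt (f, h)) then (1 : ℝ) else 0)),
      ← Finset.sum_filter]
    simp
  rw [h1]
  have h01 : ∀ a f, chosen L a f = 0 ∨ chosen L a f = 1 := by
    intro a f
    unfold chosen
    by_cases h1 : idx f + L (rep f) = a <;> simp [h1]
  have hfour : ∀ h a, ∑ f, chosen L a f * Q h a f ≤ 2 ^ Fintype.card (Gam (j + m)) *
      (β / 2 * ∑ S, (if h ∈ gset S then fc (chosen L a) S ^ 2 else 0) +
        1 / (2 * β) * ∑ S, fc (Q h a) S ^ 2) := by
    intro h a
    have e1 : ∑ f, chosen L a f * Q h a f = 2 ^ Fintype.card (Gam (j + m)) *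
        ∑ S, fc (chosen L a) S * fc (Q h a) S := by
      rw [parseval]
      field_simp
    rw [e1]
    apply mul_le_mul_of_nonneg_left _ h2N.le
    rw [Finset.mul_sum, Finset.mul_sum, ← Finset.sum_add_distrib]
    refine Finset.sum_le_sum fun S _ => ?_
    by_cases hd : h ∈ gset S
    · rw [if_pos hd]
      set p := fc (chosen L a) S
      set q := fc (Q h a) S
      have e2 : β / 2 * p ^ 2 + 1 / (2 * β) * q ^ 2 - p * q =
          (β * p - q) ^ 2 / (2 * β) := by
        field_simp
        ring
      have e3 : 0 ≤ (β * p - q) ^ 2 / (2 * β) := by positivity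
      linarith
    · have hz : fc (Q h a) S = 0 := by
        have := dfc_out h (fun g => if pm h a = M (h, rep g) + idx g then (1 : ℝ) else 0) S hd
        have h2 : (fun f => if pm h a = M (h, rep (dres h f)) + idx (dres h f) then (1 : ℝ)
            else 0) = Q h a := by
          funext f; rw [hQ]
        rwa [h2] at this
      rw [if_neg hd, hz]
      simp
  have hright : ∀ h, ∑ a, ∑ S, fc (Q h a) S ^ 2 ≤ 2 ^ j := by
    intro h
    have e1 : ∀ a, ∑ S, fc (Q h a) S ^ 2 =
        (∑ f, Q h a f) / 2 ^ Fintype.card (Gam (j + m)) := by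
      intro a
      have := parseval (Q h a) (Q h a)
      simp only [← sq] at this
      rw [this]
      congr 1
      refine Finset.sum_congr rfl fun f _ => ?_
      rw [hQ]
      split_ifs <;> norm_num
    simp only [e1]
    rw [← Finset.sum_div, Finset.sum_comm, div_le_iff₀ h2N]
    have e2 : ∀ f, ∑ a, Q h a f ≤ 2 ^ j := by
      intro f
      simp only [hQ]
      rw [← Finset.sum_filter, Finset.sum_const, nsmul_eq_mul, mul_one, fiber_card]
      push_cast
      exact le_refl _
    calc ∑ f, ∑ a, Q h a f ≤ ∑ _f : Fn (j + m), (2 : ℝ) ^ j := Finset.sum_le_sum fun f _ => e2 f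
      _ = 2 ^ j * 2 ^ Fintype.card (Gam (j + m)) := by
          rw [Finset.sum_const, Finset.card_univ, nsmul_eq_mul,
            Fintype.card_fun (α := Gam (j + m)) (β := Bool), Fintype.card_bool]
          push_cast
          ring
  have hleft : ∀ a, ∑ h, ∑ S, (if h ∈ gset S then fc (chosen L a) S ^ 2 else 0) ≤
      N * ((3 ^ J * Real.sqrt μ + 1 / (J + 1)) * μ) := by
    intro a
    have e1 := stab_weight (chosen L a) (h01 a) μ (Real.sqrt μ) (1 / (J + 1))
      (by rw [sum_chosen, hμ]) (Real.sqrt_nonneg _) hτ2 J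
      (fun S => ((gset S).card : ℝ) / N)
      (fun S => by
        rw [div_le_one hN0, hN]
        exact_mod_cast Finset.card_le_univ _)
      (by positivity)
      (fun S hS => by
        have h6 := gset_card S
        rw [div_le_div_iff₀ hN0 (by positivity), one_mul, hN]
        have h7 : (gset S).card * (J + 1) ≤ Fintype.card (Mx j m) := by
          refine (Nat.mul_le_mul_left _ ?_).trans h6
          calc J + 1 ≤ S.card := by omega
            _ = S.card ^ 1 := (pow_one _).symm
            _ ≤ S.card ^ j := Nat.pow_le_pow_right (by omega) hj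
        exact_mod_cast h7)
    have e2 : ∑ h, ∑ S, (if h ∈ gset S then fc (chosen L a) S ^ 2 else 0) =
        N * ∑ S, ((gset S).card : ℝ) / N * fc (chosen L a) S ^ 2 := by
      rw [Finset.sum_comm, Finset.mul_sum]
      refine Finset.sum_congr rfl fun S _ => ?_
      rw [← Finset.sum_filter, Finset.sum_const, nsmul_eq_mul]
      have h7 : (Finset.univ.filter fun h => h ∈ gset S) = gset S := by
        ext; simp
      rw [h7]
      field_simp
    rw [e2]
    exact mul_le_mul_of_nonneg_left e1 hN0.le
  calc ∑ h, ∑ a, ∑ f, chosen L a f * Q h a f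
      ≤ ∑ h, ∑ a, 2 ^ Fintype.card (Gam (j + m)) *
        (β / 2 * ∑ S, (if h ∈ gset S then fc (chosen L a) S ^ 2 else 0) +
        1 / (2 * β) * ∑ S, fc (Q h a) S ^ 2) :=
        Finset.sum_le_sum fun h _ => Finset.sum_le_sum fun a _ => hfour h a
    _ = 2 ^ Fintype.card (Gam (j + m)) * (β / 2 * ∑ a, ∑ h, ∑ S,
          (if h ∈ gset S then fc (chosen L a) S ^ 2 else 0) +
        1 / (2 * β) * ∑ h, ∑ a, ∑ S, fc (Q h a) S ^ 2) := by
        simp only [← Finset.mul_sum, Finset.sum_add_distrib]
        rw [Finset.sum_comm (f := fun (h : Mx j m) (a : Gam (j + m)) => ∑ S,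
          (if h ∈ gset S then fc (chosen L a) S ^ 2 else 0))]
    _ ≤ 2 ^ Fintype.card (Gam (j + m)) * (β / 2 *
          (N * (3 ^ J * Real.sqrt μ + 1 / (J + 1))) + 1 / (2 * β) * (2 ^ j * N)) := by
        apply mul_le_mul_of_nonneg_left _ h2N.le
        apply add_le_add
        · apply mul_le_mul_of_nonneg_left _ (by positivity)
          calc _ ≤ ∑ _a : Gam (j + m), N * ((3 ^ J * Real.sqrt μ + 1 / (J + 1)) * μ) :=
                Finset.sum_le_sum fun a _ => hleft a
            _ = N * (3 ^ J * Real.sqrt μ + 1 / (J + 1)) := by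
                rw [Finset.sum_const, Finset.card_univ, nsmul_eq_mul]
                have h3 : (Fintype.card (Gam (j + m)) : ℝ) = 2 ^ (j + m) := by
                  rw [Fintype.card_fun, Fintype.card_bool, Fintype.card_fin]; push_cast; rfl
                rw [h3, hμ]
                field_simp
        · apply mul_le_mul_of_nonneg_left _ (by positivity)
          calc _ ≤ ∑ _h : Mx j m, (2 : ℝ) ^ j := Finset.sum_le_sum fun h _ => hright h
            _ = 2 ^ j * N := by
                rw [Finset.sum_const, Finset.card_univ, nsmul_eq_mul, ← hN, mul_comm]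
    _ = _ := by
        rw [Fintype.card_prod, Fintype.card_fun (α := Gam (j + m)) (β := Bool), Fintype.card_bool]
        push_cast
        rw [← hN]
        field_simp

end Pool.Agent.H562R2
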