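import Mathlib
import Pool.Agent.H562R2.Cubic

/-!
Perfect solutions of semidefinite relaxations of projection games.
-/

set_option autoImplicit false

namespace Pool.Agent.H562R2

open Finset

/-- Feasible solutions of the basic semidefinite relaxation of a bipartite game with edges
`(s e, t e)`: the label vectors of each vertex are pairwise orthogonal and sum to one common unit
vector `z`, and inner products of label vectors across an edge are nonnegative. -/
def BasicSdp {U V E A B D : Type} [Fintype A] [Fintype B] [Fintype D] (s : E → U) (t : E → V)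
    (x : U → A → D → ℝ) (y : V → B → D → ℝ) : Prop :=
  ∃ z : D → ℝ, z ⬝ᵥ z = 1 ∧
    (∀ u, ∑ a, x u a = z) ∧ (∀ v, ∑ b, y v b = z) ∧
    (∀ u a a', a ≠ a' → x u a ⬝ᵥ x u a' = 0) ∧
    (∀ v b b', b ≠ b' → y v b ⬝ᵥ y v b' = 0) ∧
    (∀ e a b, 0 ≤ x (s e) a ⬝ᵥ y (t e) b)

section

variable {A B D : Type} [Fintype A] [Fintype B] [Fintype D] [DecidableEq B] {z : D → ℝ}
  {x : A → D → ℝ} {y : B → D → ℝ}

theorem edge_total (hx : Fam z x) (hy : Fam z y) : ∑ a, ∑ b, x a ⬝ᵥ y b = 1 := by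
  have : ∀ a, ∑ b, x a ⬝ᵥ y b = x a ⬝ᵥ z := by
    intro a
    rw [← dotProduct_sum, hy.sum]
  simp only [this]
  rw [hx.sum_dot, hx.unit]

theorem edge_val_le (hx : Fam z x) (hy : Fam z y) (hp : ∀ a b, 0 ≤ x a ⬝ᵥ y b) (π : A → B) :
    ∑ a, x a ⬝ᵥ y (π a) ≤ 1 := by
  rw [← edge_total hx hy]
  exact Finset.sum_le_sum fun a _ =>
    Finset.single_le_sum (f := fun b => x a ⬝ᵥ y b) (fun b _ => hp a b) (Finset.mem_univ (π a))

/-- On an edge of value one, each right vector is the sum of the left vectors of its fiber. -/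
theorem edge_perfect (hx : Fam z x) (hy : Fam z y) (hp : ∀ a b, 0 ≤ x a ⬝ᵥ y b) (π : A → B)
    (h1 : 1 ≤ ∑ a, x a ⬝ᵥ y (π a)) (b : B) : y b = ∑ a with π a = b, x a := by
  classical
  -- off-diagonal inner products vanish
  have hz : ∀ a b, π a ≠ b → x a ⬝ᵥ y b = 0 := by
    have h2 : ∑ a, ((∑ b, x a ⬝ᵥ y b) - x a ⬝ᵥ y (π a)) ≤ 0 := by
      rw [Finset.sum_sub_distrib, edge_total hx hy]
      linarith
    have h3 : ∀ a ∈ (Finset.univ : Finset A), 0 ≤ (∑ b, x a ⬝ᵥ y b) - x a ⬝ᵥ y (π a) := by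
      intro a _
      rw [sub_nonneg]
      exact Finset.single_le_sum (f := fun b => x a ⬝ᵥ y b) (fun b _ => hp a b)
        (Finset.mem_univ (π a))
    have h4 := (Finset.sum_eq_zero_iff_of_nonneg h3).mp
      (le_antisymm h2 (Finset.sum_nonneg h3))
    intro a b hab
    have h5 := h4 a (Finset.mem_univ a)
    rw [← Finset.add_sum_erase _ _ (Finset.mem_univ (π a)), add_sub_cancel_left] at h5
    exact (Finset.sum_eq_zero_iff_of_nonneg (fun b _ => hp a b)).mp h5 b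
      (Finset.mem_erase.mpr ⟨Ne.symm hab, Finset.mem_univ b⟩)
  have hd : ∀ a, x a ⬝ᵥ y (π a) = x a ⬝ᵥ x a := by
    intro a
    have h2 : x a ⬝ᵥ z = ∑ b, x a ⬝ᵥ y b := by rw [← dotProduct_sum, hy.sum]
    rw [← hx.dot_z, h2, Finset.sum_eq_single (π a)]
    · intro b _ hb
      exact hz a b (Ne.symm hb)
    · intro h; exact absurd (Finset.mem_univ _) h
  have hn : y b ⬝ᵥ y b = ∑ a with π a = b, x a ⬝ᵥ x a := by
    have h2 : y b ⬝ᵥ z = ∑ a, x a ⬝ᵥ y b := by
      rw [dotProduct_comm, ← hx.sum, sum_dotProduct]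
    rw [← hy.dot_z, h2, Finset.sum_filter]
    refine Finset.sum_congr rfl fun a _ => ?_
    by_cases h : π a = b
    · rw [if_pos h, ← h, hd]
    · rw [if_neg h, hz a b h]
  have h6 : (y b - ∑ a with π a = b, x a) ⬝ᵥ (y b - ∑ a with π a = b, x a) = 0 := by
    have e1 : y b ⬝ᵥ (∑ a with π a = b, x a) = ∑ a with π a = b, x a ⬝ᵥ x a := by
      rw [dotProduct_sum]
      refine Finset.sum_congr rfl fun a ha => ?_
      rw [Finset.mem_filter] at ha
      rw [dotProduct_comm, ← ha.2, hd]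
    have e2 : (∑ a with π a = b, x a) ⬝ᵥ (∑ a with π a = b, x a) =
        ∑ a with π a = b, x a ⬝ᵥ x a := by
      rw [sum_dotProduct]
      refine Finset.sum_congr rfl fun a ha => ?_
      rw [dotProduct_sum, Finset.sum_eq_single a]
      · intro c _ hc
        exact hx.orth a c (Ne.symm hc)
      · intro h; exact (h ha).elim
    rw [sub_dotProduct, dotProduct_sub, dotProduct_sub,
      dotProduct_comm (∑ a with π a = b, x a) (y b), e1, e2, hn]
    ring
  have h7 := dotProduct_self_eq_zero.mp h6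
  exact sub_eq_zero.mp h7

/-- Quadratic kernel estimate on a perfect two-to-one edge. -/
theorem ker_edge_two (hx : Fam z x) (hy : Fam z y) (π : A → B)
    (hp : ∀ b, y b = ∑ a with π a = b, x a)
    (hfib : ∀ b, (Finset.univ.filter fun a => π a = b).card ≤ 2) :
    1 / Real.sqrt 2 ≤ ker x y := by
  have hs2 : 0 < Real.sqrt 2 := by positivity
  have hs22 : Real.sqrt 2 ^ 2 = 2 := Real.sq_sqrt (by norm_num)
  have h1 : ker x y = ∑ b, ∑ a with π a = b,
      Real.sqrt (x a ⬝ᵥ x a) ^ 3 / Real.sqrt (y b ⬝ᵥ y b) := by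
    unfold ker
    rw [Finset.sum_comm]
    refine Finset.sum_congr rfl fun b _ => ?_
    rw [Finset.sum_filter]
    refine Finset.sum_congr rfl fun a _ => ?_
    rw [perf_dot hx π hp]
    by_cases h : π a = b
    · rw [if_pos h, if_pos h]
      have e1 := Real.sq_sqrt (dot_self_nonneg (x a))
      by_cases h0 : Real.sqrt (x a ⬝ᵥ x a) = 0
      · have : x a ⬝ᵥ x a = 0 := by rw [← e1, h0]; ring
        rw [this]; simp
      · calc (x a ⬝ᵥ x a) ^ 2 / (Real.sqrt (x a ⬝ᵥ x a) * Real.sqrt (y b ⬝ᵥ y b))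
            = (Real.sqrt (x a ⬝ᵥ x a) ^ 2) ^ 2 /
              (Real.sqrt (x a ⬝ᵥ x a) * Real.sqrt (y b ⬝ᵥ y b)) := by rw [e1]
          _ = (Real.sqrt (x a ⬝ᵥ x a) * Real.sqrt (x a ⬝ᵥ x a) ^ 3) /
              (Real.sqrt (x a ⬝ᵥ x a) * Real.sqrt (y b ⬝ᵥ y b)) := by ring
          _ = _ := mul_div_mul_left _ _ h0
    · rw [if_neg h, if_neg h]; simp
  have h2 : ∀ b, (y b ⬝ᵥ y b) / Real.sqrt 2 ≤
      ∑ a with π a = b, Real.sqrt (x a ⬝ᵥ x a) ^ 3 / Real.sqrt (y b ⬝ᵥ y b) := by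
    intro b
    rw [← Finset.sum_div]
    obtain ⟨r, hr⟩ : ∃ r, r = Real.sqrt (y b ⬝ᵥ y b) := ⟨_, rfl⟩
    have hr0 : 0 ≤ r := hr ▸ Real.sqrt_nonneg _
    have hr2 : r ^ 2 = y b ⬝ᵥ y b := by rw [hr]; exact Real.sq_sqrt (dot_self_nonneg _)
    have hr3 : r ^ 2 = ∑ a with π a = b, Real.sqrt (x a ⬝ᵥ x a) ^ 2 := by
      rw [hr2, perf_norm hx π hp]
      exact Finset.sum_congr rfl fun a _ => (Real.sq_sqrt (dot_self_nonneg _)).symm
    rw [← hr, ← hr2]
    rcases hr0.lt_or_eq with h5 | h5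
    · rw [div_le_div_iff₀ hs2 h5]
      -- `Σp ≤ √2 r` and `r⁴ ≤ (Σp)(Σp³)`
      have e1 : (∑ a with π a = b, Real.sqrt (x a ⬝ᵥ x a)) ^ 2 ≤ 2 * r ^ 2 := by
        have h3 := sq_sum_le_card_mul_sum_sq (s := Finset.univ.filter fun a => π a = b)
          (f := fun a => Real.sqrt (x a ⬝ᵥ x a))
        rw [← hr3] at h3
        refine h3.trans (mul_le_mul_of_nonneg_right ?_ (sq_nonneg _))
        exact_mod_cast hfib b
      have e2 : ∑ a with π a = b, Real.sqrt (x a ⬝ᵥ x a) ≤ Real.sqrt 2 * r := by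
        have : (∑ a with π a = b, Real.sqrt (x a ⬝ᵥ x a)) ^ 2 ≤ (Real.sqrt 2 * r) ^ 2 := by
          rw [mul_pow, hs22]; exact e1
        exact (le_abs_self _).trans (abs_le_of_sq_le_sq this (by positivity))
      have e3 : (r ^ 2) ^ 2 ≤ (∑ a with π a = b, Real.sqrt (x a ⬝ᵥ x a)) *
          ∑ a with π a = b, Real.sqrt (x a ⬝ᵥ x a) ^ 3 := by
        rw [hr3]
        exact Finset.sum_sq_le_sum_mul_sum_of_sq_le_mul _
          (fun a _ => Real.sqrt_nonneg _) (fun a _ => by positivity)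
          (fun a _ => le_of_eq (by ring))
      have e4 : 0 ≤ ∑ a with π a = b, Real.sqrt (x a ⬝ᵥ x a) ^ 3 :=
        Finset.sum_nonneg fun a _ => by positivity
      have e5 : r * (r ^ 2 * r) ≤ r * ((∑ a with π a = b, Real.sqrt (x a ⬝ᵥ x a) ^ 3) *
          Real.sqrt 2) := by
        calc r * (r ^ 2 * r) = (r ^ 2) ^ 2 := by ring
          _ ≤ _ := e3
          _ ≤ (Real.sqrt 2 * r) * ∑ a with π a = b, Real.sqrt (x a ⬝ᵥ x a) ^ 3 :=
              mul_le_mul_of_nonneg_right e2 e4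
          _ = _ := by ring
      exact le_of_mul_le_mul_left e5 h5
    · rw [← h5]; simp
  rw [h1]
  calc 1 / Real.sqrt 2 = (∑ b, y b ⬝ᵥ y b) / Real.sqrt 2 := by rw [hy.sum_norm]
    _ = ∑ b, (y b ⬝ᵥ y b) / Real.sqrt 2 := by rw [Finset.sum_div]
    _ ≤ _ := Finset.sum_le_sum fun b _ => h2 b

end

section

variable {U V E A B D : Type} [Fintype U] [Fintype V] [Fintype E] [Fintype A] [Fintype B]
  [Fintype D] [DecidableEq A] [DecidableEq B]

/-- Perfect solutions of the pairwise relaxation on expanding two-to-one games. -/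
theorem pair_round [Nonempty E] (s : E → U) (t : E → V) (π : E → A → B)
    (hfib : ∀ e b, (Finset.univ.filter fun a => π e a = b).card ≤ 2) (lam : ℝ)
    (hlam : 0 < lam) (hlam1 : lam ≤ 1) (hgap : HasGap s t lam)
    (hle : 1 - lam ≤ 1 / Real.sqrt 2)
    {x : U → A → D → ℝ} {y : V → B → D → ℝ} (h : SdpFeasible x y)
    (hval : (Fintype.card E : ℝ) ≤ ∑ e, ∑ a, x (s e) a ⬝ᵥ y (t e) (π e a)) (bd : ℝ)
    (hbd : ∀ (L : U → A) (M : V → B),
      ((Finset.univ.filter fun e => π e (L (s e)) = M (t e)).card : ℝ) ≤ bd) :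
    Fintype.card E * (1 - (1 - 1 / Real.sqrt 2) / lam) ^ 2 ≤ bd := by
  have hm : (0 : ℝ) < Fintype.card E := by exact_mod_cast Fintype.card_pos
  obtain ⟨z, hx, hy⟩ := h.left
  have hxy := h
  obtain ⟨-, -, -, -, -, -, -, hxy, -⟩ := hxy
  have h1 : ∀ e ∈ (Finset.univ : Finset E), ∑ a, x (s e) a ⬝ᵥ y (t e) (π e a) ≤ 1 :=
    fun e _ => edge_val_le (hx _) (hy _) (fun a b => hxy _ _ _ _) (π e)
  have h2 : ∀ e, 1 ≤ ∑ a, x (s e) a ⬝ᵥ y (t e) (π e a) := by
    have h3 : ∑ e, (1 - ∑ a, x (s e) a ⬝ᵥ y (t e) (π e a)) ≤ 0 := by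
      rw [Finset.sum_sub_distrib, Finset.sum_const, Finset.card_univ, nsmul_eq_mul, mul_one]
      linarith
    have h4 := (Finset.sum_eq_zero_iff_of_nonneg (fun e he => sub_nonneg.mpr (h1 e he))).mp
      (le_antisymm h3 (Finset.sum_nonneg fun e he => sub_nonneg.mpr (h1 e he)))
    intro e
    have := h4 e (Finset.mem_univ e)
    linarith
  have hp : ∀ e b, y (t e) b = ∑ a with π e a = b, x (s e) a := fun e b =>
    edge_perfect (hx _) (hy _) (fun a b => hxy _ _ _ _) (π e) (h2 e) b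
  have h5 := avg_ker s t lam (1 / Real.sqrt 2) hlam hlam1 hgap h (by
      calc (1 / Real.sqrt 2) * Fintype.card E = ∑ _e : E, 1 / Real.sqrt 2 := by
            rw [Finset.sum_const, Finset.card_univ, nsmul_eq_mul, mul_comm]
        _ ≤ _ := Finset.sum_le_sum fun e _ =>
            ker_edge_two (hx _) (hy _) (π e) (hp e) (hfib e)) hle
  have h6 : ∑ e, ∑ e', coll (x (s e)) (y (t e')) ≤ ∑ _e : E, bd := by
    refine Finset.sum_le_sum fun e _ => ?_
    refine le_trans (Finset.sum_le_sum fun e' _ => ?_) (seed_le s t π h bd hbd (s e))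
    unfold coll
    refine Finset.sum_le_sum fun c _ => ?_
    apply le_of_eq
    rw [← Finset.sum_fiberwise (s := Finset.univ) (g := π e')]
    refine Finset.sum_congr rfl fun b _ => ?_
    have e1 : x (s e) c ⬝ᵥ y (t e') b = ∑ a with π e' a = b, x (s e) c ⬝ᵥ x (s e') a := by
      rw [hp e' b, dotProduct_sum]
    rw [sq]
    nth_rewrite 1 [e1]
    rw [Finset.sum_mul, Finset.sum_div]
    refine Finset.sum_congr rfl fun a ha => ?_
    rw [Finset.mem_filter] at ha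
    rw [ha.2]
  have h7 := h5.trans h6
  rw [Finset.sum_const, Finset.card_univ, nsmul_eq_mul] at h7
  rw [sq, mul_assoc] at h7
  exact le_of_mul_le_mul_left h7 hm

/-- Perfect solutions of the basic relaxation on expanding two-to-one games. -/
theorem basic_round_two [Nonempty E] (s : E → U) (t : E → V) (π : E → A → B)
    (hfib : ∀ e b, (Finset.univ.filter fun a => π e a = b).card ≤ 2) (lam : ℝ)
    (hlam : 1 / 2 ≤ lam) (hlam1 : lam ≤ 1) (hgap : HasGap s t lam)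
    {x : U → A → D → ℝ} {y : V → B → D → ℝ} (h : BasicSdp s t x y)
    (hval : (Fintype.card E : ℝ) ≤ ∑ e, ∑ a, x (s e) a ⬝ᵥ y (t e) (π e a)) (bd : ℝ)
    (hbd : ∀ (L : U → A) (M : V → B),
      ((Finset.univ.filter fun e => π e (L (s e)) = M (t e)).card : ℝ) ≤ bd) :
    Fintype.card E * (1 - 1 / (2 * lam)) ^ 2 ≤ bd := by
  obtain ⟨z, hz1, hz2, hz3, hz4, hz5, hxy⟩ := h
  have hx : ∀ u, Fam z (x u) := fun u => ⟨hz1, hz2 u, hz4 u⟩
  have hy : ∀ v, Fam z (y v) := fun v => ⟨hz1, hz3 v, hz5 v⟩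
  have h1 : ∀ e ∈ (Finset.univ : Finset E), ∑ a, x (s e) a ⬝ᵥ y (t e) (π e a) ≤ 1 :=
    fun e _ => edge_val_le (hx _) (hy _) (fun a b => hxy _ _ _) (π e)
  have h2 : ∀ e, 1 ≤ ∑ a, x (s e) a ⬝ᵥ y (t e) (π e a) := by
    have h3 : ∑ e, (1 - ∑ a, x (s e) a ⬝ᵥ y (t e) (π e a)) ≤ 0 := by
      rw [Finset.sum_sub_distrib, Finset.sum_const, Finset.card_univ, nsmul_eq_mul, mul_one]
      linarith
    have h4 := (Finset.sum_eq_zero_iff_of_nonneg (fun e he => sub_nonneg.mpr (h1 e he))).mp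
      (le_antisymm h3 (Finset.sum_nonneg fun e he => sub_nonneg.mpr (h1 e he)))
    intro e
    have := h4 e (Finset.mem_univ e)
    linarith
  have hp : ∀ e b, y (t e) b = ∑ a with π e a = b, x (s e) a := fun e b =>
    edge_perfect (hx _) (hy _) (fun a b => hxy _ _ _) (π e) (h2 e) b
  obtain ⟨e0⟩ := (inferInstance : Nonempty E)
  have hneA : Nonempty A := by
    by_contra hne
    rw [not_nonempty_iff] at hne
    have h1 := (hx (s e0)).sum_norm
    rw [Fintype.sum_empty] at h1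
    exact zero_ne_one h1
  have hneB : Nonempty B := ⟨π e0 hneA.some⟩
  have h5 := basic_round s t π 2 (by norm_num) hfib lam (by linarith) hlam1 hgap
    (by push_cast; linarith) hx hy hp bd hbd
  have h6 : 1 - (1 - 1 / ((2 : ℕ) : ℝ)) / lam = 1 - 1 / (2 * lam) := by
    push_cast
    rw [show (1 : ℝ) - 1 / 2 = 1 / 2 by norm_num, div_div]
  rw [h6] at h5
  exact h5

end

end Pool.Agent.H562R2
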