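import Mathlib
import Pool.Agent.H562R2.DCluster
import Pool.Agent.H562R2.DPerfect

/-!
Robust rounding of the pairwise relaxation of `d`-to-one games on expanders.
-/

set_option autoImplicit false

namespace Pool.Agent.H562R2

open Finset

section

variable {A B D : Type} [Fintype A] [Fintype B] [Fintype D] [DecidableEq B] {z : D → ℝ}
  {x : A → D → ℝ} {y : B → D → ℝ}

/-- Merging labels. -/
theorem Fam.merge (hx : Fam z x) (π : A → B) :
    Fam z (fun b => ∑ a with π a = b, x a) := by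
  refine ⟨hx.unit, ?_, ?_⟩
  · rw [Finset.sum_fiberwise (s := Finset.univ) (g := π), hx.sum]
  · intro b b' hb
    show (∑ a with π a = b, x a) ⬝ᵥ (∑ a with π a = b', x a) = 0
    rw [sum_dotProduct]
    apply Finset.sum_eq_zero
    intro a ha
    rw [dotProduct_sum]
    apply Finset.sum_eq_zero
    intro a' ha'
    rw [Finset.mem_filter] at ha ha'
    apply hx.orth
    intro h
    apply hb
    rw [← ha.2, ← ha'.2, h]

/-- Rounding error on an edge with an arbitrary projection constraint. -/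
theorem round_edge_d {C : Type} [Fintype C] {w : C → D → ℝ} (hw : Fam z w) (hx : Fam z x)
    (hy : Fam z y) (π : A → B) :
    coll w y - Real.sqrt (2 - 2 * ∑ a, x a ⬝ᵥ y (π a)) ≤
      ∑ c, ∑ a, (w c ⬝ᵥ x a) * (w c ⬝ᵥ y (π a)) / (w c ⬝ᵥ w c) := by
  have h1 := round_edge hw (hx.merge π) hy (Equiv.refl B)
  simp only [Equiv.refl_apply] at h1
  have h2 : ∑ b, (∑ a with π a = b, x a) ⬝ᵥ y b = ∑ a, x a ⬝ᵥ y (π a) := by
    rw [← Finset.sum_fiberwise (s := Finset.univ) (g := π) (f := fun a => x a ⬝ᵥ y (π a))]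
    refine Finset.sum_congr rfl fun b _ => ?_
    rw [sum_dotProduct]
    refine Finset.sum_congr rfl fun a ha => ?_
    rw [(Finset.mem_filter.mp ha).2]
  have h3 : ∀ c, ∑ b, (w c ⬝ᵥ (∑ a with π a = b, x a)) * (w c ⬝ᵥ y b) / (w c ⬝ᵥ w c) =
      ∑ a, (w c ⬝ᵥ x a) * (w c ⬝ᵥ y (π a)) / (w c ⬝ᵥ w c) := by
    intro c
    rw [← Finset.sum_fiberwise (s := Finset.univ) (g := π)
      (f := fun a => (w c ⬝ᵥ x a) * (w c ⬝ᵥ y (π a)) / (w c ⬝ᵥ w c))]
    refine Finset.sum_congr rfl fun b _ => ?_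
    rw [dotProduct_sum, Finset.sum_mul, Finset.sum_div]
    refine Finset.sum_congr rfl fun a ha => ?_
    rw [(Finset.mem_filter.mp ha).2]
  rw [h2] at h1
  simp only [h3] at h1
  exact h1

end

section

variable {U V E A B D : Type} [Fintype U] [Fintype V] [Fintype E] [Fintype A] [Fintype B]
  [Fintype D] [DecidableEq A] [DecidableEq B]

/-- Rounding theorem for `d`-to-one games. -/
theorem pair_round_robust [Nonempty E] (s : E → U) (t : E → V) (π : E → A → B) (d : ℕ)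
    (hd : 1 ≤ d) (hfib : ∀ e b, (Finset.univ.filter fun a => π e a = b).card ≤ d)
    (lam ε : ℝ) (hlam : 0 < lam) (hlam1 : lam ≤ 1) (hε1 : ε ≤ 1)
    (hle : 1 - lam ≤ (1 - ε) ^ 2 / Real.sqrt d)
    (hgap : HasGap s t lam) {x : U → A → D → ℝ} {y : V → B → D → ℝ} (h : SdpFeasible x y)
    (hval : (1 - ε) * Fintype.card E ≤ ∑ e, ∑ a, x (s e) a ⬝ᵥ y (t e) (π e a)) (bd : ℝ)
    (hbd : ∀ (L : U → A) (M : V → B),
      ((Finset.univ.filter fun e => π e (L (s e)) = M (t e)).card : ℝ) ≤ bd) :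
    Fintype.card E * ((1 - (1 - (1 - ε) ^ 2 / Real.sqrt d) / lam) ^ 2 - Real.sqrt (2 * ε)) ≤
      bd := by
  have hm : (0 : ℝ) < Fintype.card E := by exact_mod_cast Fintype.card_pos
  obtain ⟨m, hmdef⟩ : ∃ m : ℝ, m = Fintype.card E := ⟨_, rfl⟩
  obtain ⟨z, hx, hy⟩ := h.left
  have hxy := h
  obtain ⟨-, -, -, -, -, -, hxx, hxy, -⟩ := hxy
  have hd0 : 0 < Real.sqrt d := Real.sqrt_pos.mpr (by exact_mod_cast hd)
  have h1 := avg_edge s t π ε (Real.sqrt d) hε1 hd0 hval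
    (fun e => ker_edge_d (hx _) (hy _) (π e) d (hfib e))
  have h6 := avg_ker s t lam ((1 - ε) ^ 2 / Real.sqrt d) hlam hlam1 hgap h h1 hle
  obtain ⟨σ, hσ⟩ : ∃ σ : E → ℝ, ∀ e, σ e = ∑ a, x (s e) a ⬝ᵥ y (t e) (π e a) :=
    ⟨_, fun _ => rfl⟩
  simp only [← hσ] at hval
  have h8 : ∀ e0, ∑ e, coll (x (s e0)) (y (t e)) - ∑ e, Real.sqrt (2 - 2 * σ e) ≤ bd := by
    intro e0
    refine le_trans ?_ (seed_le s t π h bd hbd (s e0))
    rw [← Finset.sum_sub_distrib]
    refine Finset.sum_le_sum fun e _ => ?_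
    rw [hσ]
    exact round_edge_d (hx (s e0)) (hx (s e)) (hy (t e)) (π e)
  have h9 : ∑ e, Real.sqrt (2 - 2 * σ e) ≤ m * Real.sqrt (2 * ε) := by
    have h10 := Finset.sum_mul_sq_le_sq_mul_sq (Finset.univ : Finset E) (fun _ => (1 : ℝ))
      (fun e => Real.sqrt (2 - 2 * σ e))
    simp only [one_mul, one_pow, Finset.sum_const, Finset.card_univ, nsmul_eq_mul, mul_one] at h10
    have h11 : ∀ e, σ e ≤ 1 := by
      intro e
      rw [hσ]
      exact edge_val_le (hx _) (hy _) (fun a b => hxy _ _ _ _) (π e)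
    have h12 : ∑ e, Real.sqrt (2 - 2 * σ e) ^ 2 = 2 * m - 2 * ∑ e, σ e := by
      have : ∀ e, Real.sqrt (2 - 2 * σ e) ^ 2 = 2 - 2 * σ e := fun e =>
        Real.sq_sqrt (by linarith [h11 e])
      simp only [this]
      rw [Finset.sum_sub_distrib, ← Finset.mul_sum, Finset.sum_const, Finset.card_univ,
        nsmul_eq_mul, ← hmdef]
      ring
    rw [h12, ← hmdef] at h10
    rw [← hmdef] at hval hm
    have h13 : (∑ e, Real.sqrt (2 - 2 * σ e)) ^ 2 ≤ m ^ 2 * (2 * ε) := by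
      refine h10.trans ?_
      have : 2 * m - 2 * ∑ e, σ e ≤ m * (2 * ε) := by nlinarith
      calc m * (2 * m - 2 * ∑ e, σ e) ≤ m * (m * (2 * ε)) :=
            mul_le_mul_of_nonneg_left this hm.le
        _ = m ^ 2 * (2 * ε) := by ring
    have h14 := Real.le_sqrt_of_sq_le h13
    rwa [Real.sqrt_mul (sq_nonneg m), Real.sqrt_sq hm.le] at h14
  have h15 := Finset.sum_le_sum fun e0 (_ : e0 ∈ (Finset.univ : Finset E)) => h8 e0
  rw [Finset.sum_sub_distrib, Finset.sum_const, Finset.sum_const, Finset.card_univ, nsmul_eq_mul,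
    nsmul_eq_mul] at h15
  rw [← hmdef] at h15 h6 hm ⊢
  have h16 : m * (m * ((1 - (1 - (1 - ε) ^ 2 / Real.sqrt d) / lam) ^ 2 - Real.sqrt (2 * ε))) ≤
      m * bd := by
    have : m * ∑ e, Real.sqrt (2 - 2 * σ e) ≤ m * (m * Real.sqrt (2 * ε)) :=
      mul_le_mul_of_nonneg_left h9 hm.le
    nlinarith
  exact le_of_mul_le_mul_left h16 hm

end

end Pool.Agent.H562R2
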