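import Mathlib
import Pool.Agent.H562R2.AbsMat

/-!
Core estimate: the number of low-energy functions on a lift of a graph.
-/

set_option autoImplicit false

namespace Pool.Agent.H562R2

open Finset

section Bessel

variable {V ρ : Type} [Fintype V] [Fintype ρ] [DecidableEq ρ]

/-- Weighted Bessel inequality. -/
theorem bessel (d : V → ℝ) (hd0 : ∀ v, 0 ≤ d v) (φ : ρ → V → ℝ)
    (hφ : ∀ j k, ∑ v, d v * (φ j v * φ k v) = if j = k then 1 else 0) (f : V → ℝ) :
    ∑ j, (∑ v, d v * (φ j v * f v)) ^ 2 ≤ ∑ v, d v * f v ^ 2 := by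
  set c : ρ → ℝ := fun j => ∑ v, d v * (φ j v * f v) with hc
  have h0 : 0 ≤ ∑ v, d v * (f v - ∑ j, c j * φ j v) ^ 2 :=
    Finset.sum_nonneg fun v _ => mul_nonneg (hd0 v) (sq_nonneg _)
  have h1 : ∑ v, d v * (f v - ∑ j, c j * φ j v) ^ 2 =
      ∑ v, d v * f v ^ 2 - 2 * ∑ v, d v * (f v * ∑ j, c j * φ j v) +
        ∑ v, d v * (∑ j, c j * φ j v) ^ 2 := by
    rw [Finset.mul_sum, ← Finset.sum_sub_distrib, ← Finset.sum_add_distrib]
    exact Finset.sum_congr rfl fun v _ => by ring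
  have h2 : ∑ v, d v * (f v * ∑ j, c j * φ j v) = ∑ j, c j ^ 2 := by
    simp only [Finset.mul_sum]
    rw [Finset.sum_comm]
    refine Finset.sum_congr rfl fun j _ => ?_
    have : ∑ v, d v * (f v * (c j * φ j v)) = c j * ∑ v, d v * (φ j v * f v) := by
      rw [Finset.mul_sum]
      exact Finset.sum_congr rfl fun v _ => by ring
    rw [this]
    simp only [hc]
    ring
  have h3 : ∑ v, d v * (∑ j, c j * φ j v) ^ 2 = ∑ j, c j ^ 2 := by
    have : ∀ v, d v * (∑ j, c j * φ j v) ^ 2 =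
        ∑ j, ∑ k, c j * c k * (d v * (φ j v * φ k v)) := by
      intro v
      rw [sq, Finset.sum_mul_sum, Finset.mul_sum]
      refine Finset.sum_congr rfl fun j _ => ?_
      rw [Finset.mul_sum]
      exact Finset.sum_congr rfl fun k _ => by ring
    simp only [this]
    calc ∑ v, ∑ j, ∑ k, c j * c k * (d v * (φ j v * φ k v))
        = ∑ j, ∑ v, ∑ k, c j * c k * (d v * (φ j v * φ k v)) := Finset.sum_comm
      _ = ∑ j, ∑ k, ∑ v, c j * c k * (d v * (φ j v * φ k v)) :=
          Finset.sum_congr rfl fun j _ => Finset.sum_comm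
      _ = ∑ j, ∑ k, c j * c k * (if j = k then 1 else 0) := by
          refine Finset.sum_congr rfl fun j _ => Finset.sum_congr rfl fun k _ => ?_
          rw [← Finset.mul_sum, hφ]
      _ = ∑ j, c j ^ 2 := by
          refine Finset.sum_congr rfl fun j _ => ?_
          simp [sq]
  rw [h1, h2, h3] at h0
  have : ∑ j, c j ^ 2 ≤ ∑ v, d v * f v ^ 2 := by linarith
  exact this

end Bessel

section Core

variable {V E κ ι ρ : Type} [Fintype V] [Fintype E] [Fintype κ] [DecidableEq κ] [Fintype ι]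
  [DecidableEq ι] [Fintype ρ] [DecidableEq ρ]

omit [DecidableEq ι] in
theorem edge_est (X Y : ι → κ → ℝ) (π : Equiv.Perm κ) :
    ∑ k, ∑ l, (absM X k l - absM Y k l) ^ 2 ≤ 2 * ∑ k, ∑ a, (X k a - Y k (π a)) ^ 2 := by
  have hkey := absM_key X Y π
  have h1 : ∑ k, ∑ l, (absM X k l - absM Y k l) ^ 2 =
      nsq X + nsq Y - 2 * ∑ k, ∑ l, absM X k l * absM Y k l := by
    rw [← nsq_absM X, ← nsq_absM Y]
    simp only [Finset.mul_sum, ← Finset.sum_add_distrib, ← Finset.sum_sub_distrib]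
    exact Finset.sum_congr rfl fun k _ => Finset.sum_congr rfl fun l _ => by ring
  have h2 : ∑ k, ∑ a, (X k a - Y k (π a)) ^ 2 =
      nsq X + nsq Y - 2 * ∑ k, ∑ a, X k a * Y k (π a) := by
    have hY : nsq Y = ∑ k, ∑ a, Y k (π a) ^ 2 :=
      Finset.sum_congr rfl fun k _ => (Equiv.sum_comp π (fun a => Y k a ^ 2)).symm
    rw [hY, nsq]
    simp only [Finset.mul_sum, ← Finset.sum_add_distrib, ← Finset.sum_sub_distrib]
    exact Finset.sum_congr rfl fun k _ => Finset.sum_congr rfl fun l _ => by ring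
  rw [h1, h2]
  linarith

/-- Core estimate. -/
theorem rank_core (s t : E → V) (d : V → ℝ) (hd0 : ∀ v, 0 ≤ d v) (π : E → Equiv.Perm κ)
    (g : ι → V → κ → ℝ)
    (hg : ∀ i j, ∑ v, d v * ∑ a, g i v a * g j v a = if i = j then 1 else 0)
    (θ lam : ℝ)
    (hen : ∑ i, ∑ e, ∑ a, (g i (s e) a - g i (t e) (π e a)) ^ 2 ≤ θ * Fintype.card ι)
    (φ : ρ → V → ℝ)
    (hφ : ∀ j k, ∑ v, d v * (φ j v * φ k v) = if j = k then 1 else 0)
    (hP : ∀ f : V → ℝ, lam * (∑ v, d v * f v ^ 2 - ∑ j, (∑ v, d v * (φ j v * f v)) ^ 2) ≤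
      ∑ e, (f (s e) - f (t e)) ^ 2)
    (hlam : 0 < lam) (hθ : 2 * θ ≤ lam) :
    (Fintype.card ι : ℝ) * (1 - 2 * θ / lam) ^ 2 ≤ Fintype.card κ * Fintype.card ρ := by
  set D : ℝ := (Fintype.card ι : ℝ) with hD
  have hD0 : 0 ≤ D := Nat.cast_nonneg _
  let G : V → ι → κ → ℝ := fun v i a => g i v a
  let B : V → ι → ι → ℝ := fun v => absM (G v)
  -- (1)
  have s1 : ∑ v, d v * nsq (G v) = D := by
    have : ∀ v, d v * nsq (G v) = ∑ i, d v * ∑ a, g i v a * g i v a := by
      intro v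
      rw [nsq, Finset.mul_sum]
      refine Finset.sum_congr rfl fun i _ => ?_
      congr 1
      exact Finset.sum_congr rfl fun a _ => sq _
    simp only [this]
    rw [Finset.sum_comm]
    simp only [hg]
    simp [hD]
  -- (2)
  have s2 : ∑ e, ∑ k, ∑ l, (B (s e) k l - B (t e) k l) ^ 2 ≤ 2 * (θ * D) := by
    calc ∑ e, ∑ k, ∑ l, (B (s e) k l - B (t e) k l) ^ 2
        ≤ ∑ e, 2 * ∑ k, ∑ a, (g k (s e) a - g k (t e) (π e a)) ^ 2 :=
          Finset.sum_le_sum fun e _ => edge_est (G (s e)) (G (t e)) (π e)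
      _ = 2 * ∑ i, ∑ e, ∑ a, (g i (s e) a - g i (t e) (π e a)) ^ 2 := by
          rw [← Finset.mul_sum, Finset.sum_comm]
      _ ≤ 2 * (θ * D) := by linarith
  -- (3)
  let A : ρ → ι → ι → ℝ := fun j k l => ∑ v, d v * (φ j v * B v k l)
  have s3 : D * (1 - 2 * θ / lam) ≤ ∑ j, ∑ k, ∑ l, A j k l ^ 2 := by
    have h1 : ∑ k, ∑ l, lam * (∑ v, d v * B v k l ^ 2 - ∑ j, A j k l ^ 2) ≤
        ∑ k, ∑ l, ∑ e, (B (s e) k l - B (t e) k l) ^ 2 :=
      Finset.sum_le_sum fun k _ => Finset.sum_le_sum fun l _ => hP (fun v => B v k l)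
    have h2 : ∑ k, ∑ l, ∑ e, (B (s e) k l - B (t e) k l) ^ 2 =
        ∑ e, ∑ k, ∑ l, (B (s e) k l - B (t e) k l) ^ 2 := by
      calc ∑ k, ∑ l, ∑ e, (B (s e) k l - B (t e) k l) ^ 2
          = ∑ k, ∑ e, ∑ l, (B (s e) k l - B (t e) k l) ^ 2 :=
            Finset.sum_congr rfl fun k _ => Finset.sum_comm
        _ = _ := Finset.sum_comm
    have h3 : ∑ k, ∑ l, lam * (∑ v, d v * B v k l ^ 2 - ∑ j, A j k l ^ 2) =
        lam * (D - ∑ j, ∑ k, ∑ l, A j k l ^ 2) := by
      simp only [← Finset.mul_sum, Finset.sum_sub_distrib]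
      congr 2
      · calc ∑ k, ∑ l, ∑ v, d v * B v k l ^ 2
            = ∑ k, ∑ v, ∑ l, d v * B v k l ^ 2 :=
              Finset.sum_congr rfl fun k _ => Finset.sum_comm
          _ = ∑ v, ∑ k, ∑ l, d v * B v k l ^ 2 := Finset.sum_comm
          _ = ∑ v, d v * nsq (G v) := by
              refine Finset.sum_congr rfl fun v _ => ?_
              rw [← nsq_absM (G v), Finset.mul_sum]
              exact Finset.sum_congr rfl fun k _ => by rw [Finset.mul_sum]
          _ = D := s1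
      · calc ∑ k, ∑ l, ∑ j, A j k l ^ 2
            = ∑ k, ∑ j, ∑ l, A j k l ^ 2 :=
              Finset.sum_congr rfl fun k _ => Finset.sum_comm
          _ = _ := Finset.sum_comm
    rw [h2, h3] at h1
    have h4 := h1.trans s2
    have h5 : D - ∑ j, ∑ k, ∑ l, A j k l ^ 2 ≤ 2 * (θ * D) / lam := by
      rw [le_div_iff₀ hlam]; linarith
    have h6 : D * (1 - 2 * θ / lam) = D - 2 * (θ * D) / lam := by ring
    linarith
  -- (4)
  let C : V → ι → ι → ℝ := fun v k l => ∑ j, φ j v * A j k l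
  have s4 : ∑ j, ∑ k, ∑ l, A j k l ^ 2 = ∑ v, d v * ∑ k, ∑ l, C v k l * B v k l := by
    have h1 : ∀ j k l, A j k l ^ 2 = ∑ v, d v * (φ j v * A j k l * B v k l) := by
      intro j k l
      have : A j k l ^ 2 = A j k l * ∑ v, d v * (φ j v * B v k l) := by rw [sq]
      rw [this, Finset.mul_sum]
      exact Finset.sum_congr rfl fun v _ => by ring
    simp only [h1]
    calc ∑ j, ∑ k, ∑ l, ∑ v, d v * (φ j v * A j k l * B v k l)
        = ∑ j, ∑ k, ∑ v, ∑ l, d v * (φ j v * A j k l * B v k l) :=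
          Finset.sum_congr rfl fun j _ => Finset.sum_congr rfl fun k _ => Finset.sum_comm
      _ = ∑ j, ∑ v, ∑ k, ∑ l, d v * (φ j v * A j k l * B v k l) :=
          Finset.sum_congr rfl fun j _ => Finset.sum_comm
      _ = ∑ v, ∑ j, ∑ k, ∑ l, d v * (φ j v * A j k l * B v k l) := Finset.sum_comm
      _ = ∑ v, ∑ k, ∑ j, ∑ l, d v * (φ j v * A j k l * B v k l) :=
          Finset.sum_congr rfl fun v _ => Finset.sum_comm
      _ = ∑ v, ∑ k, ∑ l, ∑ j, d v * (φ j v * A j k l * B v k l) :=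
          Finset.sum_congr rfl fun v _ => Finset.sum_congr rfl fun k _ => Finset.sum_comm
      _ = _ := by
          refine Finset.sum_congr rfl fun v _ => ?_
          rw [Finset.mul_sum]
          refine Finset.sum_congr rfl fun k _ => ?_
          rw [Finset.mul_sum]
          refine Finset.sum_congr rfl fun l _ => ?_
          rw [Finset.sum_mul, Finset.mul_sum]
  -- (5)
  let kk : V → ℝ := fun v => ∑ j, φ j v ^ 2
  have hkk : ∀ v, 0 ≤ kk v := fun v => Finset.sum_nonneg fun j _ => sq_nonneg _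
  have hBx : ∀ x : ι → ℝ, ∑ v, d v * ∑ k, (∑ l, B v k l * x l) ^ 2 = ∑ l, x l ^ 2 := by
    intro x
    have h1 : ∀ v, ∑ k, (∑ l, B v k l * x l) ^ 2 = ∑ m, (∑ k, g k v m * x k) ^ 2 :=
      fun v => absM_mulVec (G v) x
    simp only [h1]
    have h2 : ∀ v, d v * ∑ m, (∑ k, g k v m * x k) ^ 2 =
        ∑ k, ∑ l, x k * x l * (d v * ∑ m, g k v m * g l v m) := by
      intro v
      have : ∀ m, (∑ k, g k v m * x k) ^ 2 = ∑ k, ∑ l, x k * x l * (g k v m * g l v m) := by
        intro m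
        rw [sq, Finset.sum_mul_sum]
        exact Finset.sum_congr rfl fun k _ => Finset.sum_congr rfl fun l _ => by ring
      simp only [this, Finset.mul_sum]
      calc ∑ m, ∑ k, ∑ l, d v * (x k * x l * (g k v m * g l v m))
          = ∑ k, ∑ m, ∑ l, d v * (x k * x l * (g k v m * g l v m)) := Finset.sum_comm
        _ = ∑ k, ∑ l, ∑ m, d v * (x k * x l * (g k v m * g l v m)) :=
            Finset.sum_congr rfl fun k _ => Finset.sum_comm
        _ = _ := Finset.sum_congr rfl fun k _ => Finset.sum_congr rfl fun l _ =>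
            Finset.sum_congr rfl fun m _ => by ring
    simp only [h2]
    calc ∑ v, ∑ k, ∑ l, x k * x l * (d v * ∑ m, g k v m * g l v m)
        = ∑ k, ∑ v, ∑ l, x k * x l * (d v * ∑ m, g k v m * g l v m) := Finset.sum_comm
      _ = ∑ k, ∑ l, ∑ v, x k * x l * (d v * ∑ m, g k v m * g l v m) :=
          Finset.sum_congr rfl fun k _ => Finset.sum_comm
      _ = ∑ k, ∑ l, x k * x l * (if k = l then 1 else 0) := by
          refine Finset.sum_congr rfl fun k _ => Finset.sum_congr rfl fun l _ => ?_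
          rw [← Finset.mul_sum, hg]
      _ = _ := by
          refine Finset.sum_congr rfl fun k _ => ?_
          simp [sq]
  have s5 : ∀ v (x : ι → ℝ), ∑ k, (∑ l, C v k l * x l) ^ 2 ≤
      Real.sqrt (kk v) ^ 2 * ∑ l, x l ^ 2 := by
    intro v x
    rw [Real.sq_sqrt (hkk v)]
    have h1 : ∀ k, ∑ l, C v k l * x l = ∑ j, φ j v * ∑ l, A j k l * x l := by
      intro k
      simp only [C, Finset.sum_mul, Finset.mul_sum]
      rw [Finset.sum_comm]
      exact Finset.sum_congr rfl fun j _ => Finset.sum_congr rfl fun l _ => by ring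
    have h2 : ∀ k, (∑ l, C v k l * x l) ^ 2 ≤ kk v * ∑ j, (∑ l, A j k l * x l) ^ 2 := by
      intro k
      rw [h1]
      exact Finset.sum_mul_sq_le_sq_mul_sq _ _ _
    have h3 : ∀ j k, ∑ l, A j k l * x l = ∑ w, d w * (φ j w * ∑ l, B w k l * x l) := by
      intro j k
      simp only [A, Finset.sum_mul, Finset.mul_sum]
      rw [Finset.sum_comm]
      exact Finset.sum_congr rfl fun w _ => Finset.sum_congr rfl fun l _ => by ring
    have h4 : ∀ k, ∑ j, (∑ l, A j k l * x l) ^ 2 ≤ ∑ w, d w * (∑ l, B w k l * x l) ^ 2 := by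
      intro k
      simp only [h3]
      exact bessel d hd0 φ hφ (fun w => ∑ l, B w k l * x l)
    calc ∑ k, (∑ l, C v k l * x l) ^ 2
        ≤ ∑ k, kk v * ∑ j, (∑ l, A j k l * x l) ^ 2 := Finset.sum_le_sum fun k _ => h2 k
      _ = kk v * ∑ k, ∑ j, (∑ l, A j k l * x l) ^ 2 := by rw [Finset.mul_sum]
      _ ≤ kk v * ∑ k, ∑ w, d w * (∑ l, B w k l * x l) ^ 2 :=
          mul_le_mul_of_nonneg_left (Finset.sum_le_sum fun k _ => h4 k) (hkk v)
      _ = kk v * ∑ w, d w * ∑ k, (∑ l, B w k l * x l) ^ 2 := by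
          congr 1
          rw [Finset.sum_comm]
          exact Finset.sum_congr rfl fun w _ => by rw [Finset.mul_sum]
      _ = kk v * ∑ l, x l ^ 2 := by rw [hBx]
  -- (6)
  have s6 : ∀ v, ∑ k, ∑ l, C v k l * B v k l ≤
      Real.sqrt (kk v) * (Real.sqrt (Fintype.card κ) * Real.sqrt (nsq (G v))) := fun v =>
    absM_trace (G v) (C v) (Real.sqrt (kk v)) (Real.sqrt_nonneg _) (s5 v)
  have hksum : ∑ v, d v * kk v = Fintype.card ρ := by
    simp only [kk, Finset.mul_sum]
    rw [Finset.sum_comm]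
    have : ∀ j, ∑ v, d v * φ j v ^ 2 = 1 := by
      intro j
      have := hφ j j
      rw [if_pos rfl] at this
      rw [← this]
      exact Finset.sum_congr rfl fun v _ => by ring
    simp [this]
  have s7 : D * (1 - 2 * θ / lam) ≤
      Real.sqrt (Fintype.card κ) * (Real.sqrt (Fintype.card ρ) * Real.sqrt D) := by
    calc D * (1 - 2 * θ / lam) ≤ ∑ v, d v * ∑ k, ∑ l, C v k l * B v k l := by
          rw [← s4]; exact s3
      _ ≤ ∑ v, d v * (Real.sqrt (kk v) * (Real.sqrt (Fintype.card κ) *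
            Real.sqrt (nsq (G v)))) :=
          Finset.sum_le_sum fun v _ => mul_le_mul_of_nonneg_left (s6 v) (hd0 v)
      _ = Real.sqrt (Fintype.card κ) * ∑ v, Real.sqrt (d v * kk v) *
            Real.sqrt (d v * nsq (G v)) := by
          rw [Finset.mul_sum]
          refine Finset.sum_congr rfl fun v _ => ?_
          rw [Real.sqrt_mul (hd0 v), Real.sqrt_mul (hd0 v)]
          have := Real.mul_self_sqrt (hd0 v)
          calc d v * (Real.sqrt (kk v) * (Real.sqrt (Fintype.card κ) * Real.sqrt (nsq (G v))))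
              = (Real.sqrt (d v) * Real.sqrt (d v)) * (Real.sqrt (kk v) *
                (Real.sqrt (Fintype.card κ) * Real.sqrt (nsq (G v)))) := by rw [this]
            _ = _ := by ring
      _ ≤ Real.sqrt (Fintype.card κ) * (Real.sqrt (∑ v, Real.sqrt (d v * kk v) ^ 2) *
            Real.sqrt (∑ v, Real.sqrt (d v * nsq (G v)) ^ 2)) :=
          mul_le_mul_of_nonneg_left (Real.sum_mul_le_sqrt_mul_sqrt _ _ _) (Real.sqrt_nonneg _)
      _ = _ := by
          congr 2
          · congr 1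
            rw [← hksum]
            exact Finset.sum_congr rfl fun v _ => Real.sq_sqrt (mul_nonneg (hd0 v) (hkk v))
          · congr 1
            rw [← s1]
            exact Finset.sum_congr rfl fun v _ =>
              Real.sq_sqrt (mul_nonneg (hd0 v) (nsq_nonneg _))
  -- (7)
  have hx0 : 0 ≤ 1 - 2 * θ / lam := by
    have : 2 * θ / lam ≤ 1 := by rw [div_le_one hlam]; exact hθ
    linarith
  rcases eq_or_lt_of_le hD0 with hz | hpos
  · rw [← hz]; simp; positivity
  · have h8 : (D * (1 - 2 * θ / lam)) ^ 2 ≤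
        (Real.sqrt (Fintype.card κ) * (Real.sqrt (Fintype.card ρ) * Real.sqrt D)) ^ 2 :=
      pow_le_pow_left₀ (mul_nonneg hD0 hx0) s7 2
    rw [mul_pow, mul_pow, mul_pow, Real.sq_sqrt (Nat.cast_nonneg _),
      Real.sq_sqrt (Nat.cast_nonneg _), Real.sq_sqrt hD0] at h8
    have h9 : D * (D * (1 - 2 * θ / lam) ^ 2) ≤
        D * ((Fintype.card κ : ℝ) * Fintype.card ρ) := by nlinarith
    exact le_of_mul_le_mul_left h9 hpos

end Core

end Pool.Agent.H562R2
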