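import Mathlib
import Pool.Agent.H562R2.RankCore

/-!
Finite multigraphs `(V, E, s, t)`, their normalized adjacency matrix and its eigenvalues.
-/

set_option autoImplicit false

namespace Pool.Agent.H562R2

open Finset

/-- Degree of the vertex `v` in the undirected multigraph with vertex set `V`, edge set `E` and
edge endpoints `s e`, `t e` (a loop counts twice). -/
def deg {V E : Type} [DecidableEq V] [Fintype E] (s t : E → V) (v : V) : ℕ :=
  (Finset.univ.filter fun e => s e = v).card + (Finset.univ.filter fun e => t e = v).card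

/-- Number of edges between `u` and `v` (a loop counts twice). -/
def edgeCount {V E : Type} [DecidableEq V] [Fintype E] (s t : E → V) (u v : V) : ℕ :=
  (Finset.univ.filter fun e => s e = u ∧ t e = v).card +
    (Finset.univ.filter fun e => s e = v ∧ t e = u).card

/-- Normalized adjacency matrix `D^{-1/2} A D^{-1/2}`. -/
noncomputable def normAdj {V E : Type} [DecidableEq V] [Fintype E] (s t : E → V) :
    Matrix V V ℝ :=
  fun u v => (edgeCount s t u v : ℝ) / (Real.sqrt (deg s t u) * Real.sqrt (deg s t v))

theorem normAdj_isHermitian {V E : Type} [DecidableEq V] [Fintype E] (s t : E → V) :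
    (normAdj s t).IsHermitian := by
  ext u v
  simp only [Matrix.conjTranspose_apply, normAdj, star_trivial, edgeCount]
  rw [add_comm, mul_comm]

/-- The eigenvalues of the normalized adjacency matrix. -/
noncomputable def eig {V E : Type} [Fintype V] [DecidableEq V] [Fintype E] (s t : E → V) :
    V → ℝ := (normAdj_isHermitian s t).eigenvalues

section

variable {V E : Type} [Fintype V] [DecidableEq V] [Fintype E]

theorem sum_src (s : E → V) (f : V → ℝ) :
    ∑ e, f (s e) = ∑ v, ((Finset.univ.filter fun e => s e = v).card : ℝ) * f v := by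
  have h : ∀ v, ((Finset.univ.filter fun e => s e = v).card : ℝ) * f v =
      ∑ e, if s e = v then f v else 0 := by
    intro v
    rw [← Finset.sum_filter]
    simp
  simp only [h]
  rw [Finset.sum_comm]
  exact Finset.sum_congr rfl fun e _ => by simp

theorem sum_deg (s t : E → V) (f : V → ℝ) :
    ∑ e, (f (s e) + f (t e)) = ∑ v, (deg s t v : ℝ) * f v := by
  rw [Finset.sum_add_distrib, sum_src s f, sum_src t f, ← Finset.sum_add_distrib]
  refine Finset.sum_congr rfl fun v _ => ?_
  rw [deg]; push_cast; ring

theorem sum_pair (s t : E → V) (f : V → V → ℝ) :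
    ∑ e, f (s e) (t e) =
      ∑ u, ∑ v, ((Finset.univ.filter fun e => s e = u ∧ t e = v).card : ℝ) * f u v := by
  have h : ∀ u v, ((Finset.univ.filter fun e => s e = u ∧ t e = v).card : ℝ) * f u v =
      ∑ e, if s e = u then (if t e = v then f u v else 0) else 0 := by
    intro u v
    have : ∀ e, (if s e = u then (if t e = v then f u v else 0) else 0) =
        if (s e = u ∧ t e = v) then f u v else 0 := by
      intro e
      by_cases h1 : s e = u <;> by_cases h2 : t e = v <;> simp [h1, h2]
    simp only [this]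
    rw [← Finset.sum_filter]
    simp
  simp only [h]
  calc ∑ e, f (s e) (t e) = ∑ e, ∑ u, ∑ v, (if s e = u then (if t e = v then f u v else 0)
        else 0) := by
        refine Finset.sum_congr rfl fun e _ => ?_
        have : ∀ u, ∑ v, (if s e = u then (if t e = v then f u v else 0) else 0) =
            if s e = u then f u (t e) else 0 := by
          intro u
          by_cases h1 : s e = u <;> simp [h1]
        simp only [this]
        simp
    _ = ∑ u, ∑ e, ∑ v, (if s e = u then (if t e = v then f u v else 0) else 0) :=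
        Finset.sum_comm
    _ = _ := Finset.sum_congr rfl fun u _ => Finset.sum_comm

theorem sum_edge (s t : E → V) (f : V → ℝ) :
    2 * ∑ e, f (s e) * f (t e) = ∑ u, ∑ v, (edgeCount s t u v : ℝ) * (f u * f v) := by
  have h1 := sum_pair s t (fun u v => f u * f v)
  have h2 : ∑ e, f (s e) * f (t e) =
      ∑ u, ∑ v, ((Finset.univ.filter fun e => s e = v ∧ t e = u).card : ℝ) * (f u * f v) := by
    rw [h1, Finset.sum_comm]
    refine Finset.sum_congr rfl fun u _ => Finset.sum_congr rfl fun v _ => ?_
    rw [mul_comm (f v)]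
  rw [two_mul]
  nth_rewrite 1 [h1]
  rw [h2, ← Finset.sum_add_distrib]
  refine Finset.sum_congr rfl fun u _ => ?_
  rw [← Finset.sum_add_distrib]
  refine Finset.sum_congr rfl fun v _ => ?_
  rw [edgeCount]; push_cast; ring

/-- Spectral decomposition of the Dirichlet energy. -/
theorem exists_spectral (s t : E → V) (hdeg : ∀ v, 0 < deg s t v) :
    ∃ φ : V → V → ℝ,
      (∀ i j, ∑ v, (deg s t v : ℝ) * (φ i v * φ j v) = if i = j then 1 else 0) ∧
      (∀ f : V → ℝ, ∑ v, (deg s t v : ℝ) * f v ^ 2 =
        ∑ i, (∑ v, (deg s t v : ℝ) * (φ i v * f v)) ^ 2) ∧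
      (∀ f : V → ℝ, ∑ e, (f (s e) - f (t e)) ^ 2 =
        ∑ i, (1 - eig s t i) * (∑ v, (deg s t v : ℝ) * (φ i v * f v)) ^ 2) ∧
      (∀ i v, ∑ w, normAdj s t v w * (Real.sqrt (deg s t w) * φ i w) =
        eig s t i * (Real.sqrt (deg s t v) * φ i v)) := by
  obtain ⟨b, hb1, hb2, hb3⟩ := exists_eigB (normAdj s t) (normAdj_isHermitian s t)
  have hd0 : ∀ v, 0 < (deg s t v : ℝ) := fun v => Nat.cast_pos.mpr (hdeg v)
  have hs0 : ∀ v, 0 < Real.sqrt (deg s t v : ℝ) := fun v => Real.sqrt_pos.mpr (hd0 v)
  have hss : ∀ v, Real.sqrt (deg s t v : ℝ) * Real.sqrt (deg s t v : ℝ) = deg s t v := fun v =>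
    Real.mul_self_sqrt (hd0 v).le
  have hc : ∀ i (f : V → ℝ), ∑ v, (deg s t v : ℝ) * (b i v / Real.sqrt (deg s t v : ℝ) * f v) =
      ∑ v, b i v * (Real.sqrt (deg s t v : ℝ) * f v) := by
    intro i f
    refine Finset.sum_congr rfl fun v _ => ?_
    have h1 := (hs0 v).ne'
    calc (deg s t v : ℝ) * (b i v / Real.sqrt (deg s t v : ℝ) * f v)
        = (Real.sqrt (deg s t v : ℝ) * Real.sqrt (deg s t v : ℝ)) *
          (b i v / Real.sqrt (deg s t v : ℝ) * f v) := by rw [hss]
      _ = b i v * (Real.sqrt (deg s t v : ℝ) * f v) := by field_simp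
  refine ⟨fun i v => b i v / Real.sqrt (deg s t v : ℝ), ?_, ?_, ?_, ?_⟩
  · intro i j
    rw [← hb1 i j]
    refine Finset.sum_congr rfl fun v _ => ?_
    have h := hss v
    have h' := (hs0 v).ne'
    calc (deg s t v : ℝ) * (b i v / Real.sqrt (deg s t v : ℝ) *
          (b j v / Real.sqrt (deg s t v : ℝ)))
        = (deg s t v : ℝ) / (Real.sqrt (deg s t v : ℝ) * Real.sqrt (deg s t v : ℝ)) *
          (b i v * b j v) := by
          field_simp
      _ = b i v * b j v := by rw [h, div_self (hd0 v).ne', one_mul]
  · intro f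
    have : ∀ i, (∑ v, (deg s t v : ℝ) * (b i v / Real.sqrt (deg s t v : ℝ) * f v)) =
        ∑ v, b i v * (Real.sqrt (deg s t v : ℝ) * f v) := fun i => hc i f
    simp only [this]
    rw [parseval_cols b hb2]
    refine Finset.sum_congr rfl fun v _ => ?_
    rw [mul_pow, Real.sq_sqrt (hd0 v).le]
  · intro f
    have : ∀ i, (∑ v, (deg s t v : ℝ) * (b i v / Real.sqrt (deg s t v : ℝ) * f v)) =
        ∑ v, b i v * (Real.sqrt (deg s t v : ℝ) * f v) := fun i => hc i f
    simp only [this]
    clear this
    obtain ⟨h, hh⟩ : ∃ h : V → ℝ, ∀ v, h v = Real.sqrt (deg s t v : ℝ) * f v :=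
      ⟨fun v => Real.sqrt (deg s t v : ℝ) * f v, fun _ => rfl⟩
    simp only [← hh]
    have e1 : ∑ e, (f (s e) - f (t e)) ^ 2 =
        ∑ v, (deg s t v : ℝ) * f v ^ 2 -
          ∑ u, ∑ v, (edgeCount s t u v : ℝ) * (f u * f v) := by
      rw [← sum_edge, ← sum_deg s t (fun v => f v ^ 2), Finset.mul_sum,
        ← Finset.sum_sub_distrib]
      exact Finset.sum_congr rfl fun e _ => by ring
    have e2 : ∑ v, (deg s t v : ℝ) * f v ^ 2 = ∑ i, (∑ v, b i v * h v) ^ 2 := by
      rw [parseval_cols b hb2]
      refine Finset.sum_congr rfl fun v _ => ?_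
      rw [hh, mul_pow, Real.sq_sqrt (hd0 v).le]
    have e3 : ∑ u, ∑ v, (edgeCount s t u v : ℝ) * (f u * f v) =
        ∑ u, h u * ∑ v, normAdj s t u v * h v := by
      refine Finset.sum_congr rfl fun u _ => ?_
      rw [Finset.mul_sum]
      refine Finset.sum_congr rfl fun v _ => ?_
      rw [hh, hh, normAdj]
      have h1 := (hs0 u).ne'
      have h2 := (hs0 v).ne'
      field_simp
    -- expand `h` in the basis
    have hexp : ∀ v, ∑ i, (∑ w, b i w * h w) * b i v = h v := by
      intro v
      simp only [Finset.sum_mul]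
      rw [Finset.sum_comm]
      have : ∀ w, ∑ i, b i w * h w * b i v = h w * (if w = v then 1 else 0) := by
        intro w
        rw [← hb2 w v, Finset.mul_sum]
        exact Finset.sum_congr rfl fun i _ => by ring
      simp only [this]
      simp
    have e4 : ∀ u, ∑ v, normAdj s t u v * h v =
        ∑ i, (∑ w, b i w * h w) * (eig s t i * b i u) := by
      intro u
      calc ∑ v, normAdj s t u v * h v
          = ∑ v, normAdj s t u v * ∑ i, (∑ w, b i w * h w) * b i v := by
            simp only [hexp]
        _ = ∑ v, ∑ i, (∑ w, b i w * h w) * (normAdj s t u v * b i v) := by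
            refine Finset.sum_congr rfl fun v _ => ?_
            rw [Finset.mul_sum]
            exact Finset.sum_congr rfl fun i _ => by ring
        _ = ∑ i, ∑ v, (∑ w, b i w * h w) * (normAdj s t u v * b i v) := Finset.sum_comm
        _ = _ := by
            refine Finset.sum_congr rfl fun i _ => ?_
            rw [← Finset.mul_sum, hb3]
            rfl
    have e5 : ∑ u, h u * ∑ v, normAdj s t u v * h v =
        ∑ i, eig s t i * (∑ v, b i v * h v) ^ 2 := by
      simp only [e4]
      calc ∑ u, h u * ∑ i, (∑ w, b i w * h w) * (eig s t i * b i u)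
          = ∑ u, ∑ i, (eig s t i * (∑ w, b i w * h w)) * (b i u * h u) := by
            refine Finset.sum_congr rfl fun u _ => ?_
            rw [Finset.mul_sum]
            exact Finset.sum_congr rfl fun i _ => by ring
        _ = ∑ i, ∑ u, (eig s t i * (∑ w, b i w * h w)) * (b i u * h u) := Finset.sum_comm
        _ = _ := by
            refine Finset.sum_congr rfl fun i _ => ?_
            rw [← Finset.mul_sum]; ring
    rw [e1, e2, e3, e5, ← Finset.sum_sub_distrib]
    exact Finset.sum_congr rfl fun i _ => by ring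
  · intro i v
    have h := hb3 i v
    have h1 : ∀ w, Real.sqrt (deg s t w : ℝ) * (b i w / Real.sqrt (deg s t w : ℝ)) = b i w := by
      intro w
      have := (hs0 w).ne'
      field_simp
    simp only [h1]
    exact h

end

end Pool.Agent.H562R2
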