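import Mathlib
import Pool.Agent.H562R2.MGraph

/-!
Threshold rank of the label-extended graph.
-/

set_option autoImplicit false

namespace Pool.Agent.H562R2

open Finset

/-- Number of eigenvalues, with multiplicity, of the normalized adjacency matrix that are
at least `τ`. -/
noncomputable def rankGE {V E : Type} [Fintype V] [DecidableEq V] [Fintype E] (s t : E → V)
    (τ : ℝ) : ℕ := (Finset.univ.filter fun i => τ ≤ eig s t i).card

/-- Number of eigenvalues, with multiplicity, of the normalized adjacency matrix that are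
larger than `τ`. -/
noncomputable def rankGT {V E : Type} [Fintype V] [DecidableEq V] [Fintype E] (s t : E → V)
    (τ : ℝ) : ℕ := (Finset.univ.filter fun i => τ < eig s t i).card

/-- First endpoints of the edges of the label-extended graph. -/
def extS {V E : Type} {q : ℕ} (s : E → V) : E × Fin q → V × Fin q := fun p => (s p.1, p.2)

/-- Second endpoints of the edges of the label-extended graph. -/
def extT {V E : Type} {q : ℕ} (t : E → V) (π : E → Equiv.Perm (Fin q)) :
    E × Fin q → V × Fin q := fun p => (t p.1, π p.1 p.2)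

section

variable {V E : Type} [Fintype V] [DecidableEq V] [Fintype E]

omit [Fintype V] in
theorem deg_ext (s t : E → V) (q : ℕ) (π : E → Equiv.Perm (Fin q)) (p : V × Fin q) :
    deg (extS (q := q) s) (extT t π) p = deg s t p.1 := by
  obtain ⟨v, a⟩ := p
  unfold deg
  congr 1
  · apply Finset.card_bij (fun (x : E × Fin q) _ => x.1)
    · rintro ⟨e, b⟩ h
      simp [extS] at h ⊢
      exact h.1
    · rintro ⟨e, b⟩ h ⟨e', b'⟩ h' he
      simp [extS] at h h' he
      simp [he, h.2, h'.2]
    · intro e he
      refine ⟨(e, a), ?_, rfl⟩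
      simp [extS] at he ⊢
      exact he
  · apply Finset.card_bij (fun (x : E × Fin q) _ => x.1)
    · rintro ⟨e, b⟩ h
      simp [extT] at h ⊢
      exact h.1
    · rintro ⟨e, b⟩ h ⟨e', b'⟩ h' he
      simp [extT] at h h' he
      subst he
      have : π e b = π e b' := by rw [h.2, h'.2]
      simp [(π e).injective this]
    · intro e he
      refine ⟨(e, (π e).symm a), ?_, rfl⟩
      simp [extT] at he ⊢
      exact he

theorem sum_subtype_filter {α : Type} [Fintype α] (p : α → Prop) [DecidablePred p]
    (F : α → ℝ) : ∑ j : {i : α // p i}, F j.1 = ∑ i ∈ Finset.univ.filter p, F i := by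
  exact (Finset.sum_subtype (Finset.univ.filter p) (by simp) F).symm

theorem rank_lift (s t : E → V) (hdeg : ∀ v, 0 < deg s t v) (q : ℕ)
    (π : E → Equiv.Perm (Fin q)) (θ lam : ℝ) (hlam : 0 < lam) (hθ : 2 * θ ≤ lam) :
    (rankGE (extS (q := q) s) (extT t π) (1 - θ) : ℝ) * (1 - 2 * θ / lam) ^ 2 ≤
      q * rankGT s t (1 - lam) := by
  classical
  obtain ⟨ψ, hψ1, -, hψ3, -⟩ := exists_spectral (extS (q := q) s) (extT t π)
    (fun p => by rw [deg_ext]; exact hdeg p.1)
  obtain ⟨φ, hφ1, hφ2, hφ3, -⟩ := exists_spectral s t hdeg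
  simp only [deg_ext] at hψ1 hψ3
  let ι := {i : V × Fin q // 1 - θ ≤ eig (extS (q := q) s) (extT t π) i}
  let ρ := {i : V // 1 - lam < eig s t i}
  have key := rank_core (κ := Fin q) (ι := ι) (ρ := ρ) s t (fun v => (deg s t v : ℝ))
    (fun v => Nat.cast_nonneg _) π (fun i v a => ψ i.1 (v, a)) ?_ θ lam ?_
    (fun j v => φ j.1 v) ?_ ?_ hlam hθ
  · have h1 : Fintype.card ι = rankGE (extS (q := q) s) (extT t π) (1 - θ) := by
      rw [rankGE, Fintype.card_subtype]
    have h2 : Fintype.card ρ = rankGT s t (1 - lam) := by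
      rw [rankGT, Fintype.card_subtype]
    rw [h1, h2, Fintype.card_fin] at key
    exact key
  · intro i j
    have := hψ1 i.1 j.1
    rw [Fintype.sum_prod_type] at this
    simp only [← Finset.mul_sum] at this
    rw [this]
    by_cases h : i = j
    · simp [h]
    · have h' : i.1 ≠ j.1 := fun h' => h (Subtype.ext h')
      simp [h, h']
  · have h1 : ∀ i : ι, ∑ e, ∑ a, (ψ i.1 (s e, a) - ψ i.1 (t e, π e a)) ^ 2 ≤ θ := by
      intro i
      have h2 := hψ3 (ψ i.1)
      rw [Fintype.sum_prod_type] at h2
      simp only [extS, extT] at h2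
      rw [h2]
      have h3 : ∀ j, (1 - eig (extS (q := q) s) (extT t π) j) *
          (∑ p : V × Fin q, (deg s t p.1 : ℝ) * (ψ j p * ψ i.1 p)) ^ 2 =
          if j = i.1 then (1 - eig (extS (q := q) s) (extT t π) j) else 0 := by
        intro j
        rw [hψ1]
        by_cases h : j = i.1 <;> simp [h]
      simp only [h3]
      rw [Finset.sum_ite_eq' Finset.univ i.1]
      simp only [Finset.mem_univ, if_true]
      have := i.2
      linarith
    calc ∑ i : ι, ∑ e, ∑ a, (ψ i.1 (s e, a) - ψ i.1 (t e, π e a)) ^ 2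
        ≤ ∑ _i : ι, θ := Finset.sum_le_sum fun i _ => h1 i
      _ = θ * Fintype.card ι := by simp [mul_comm]
  · intro j k
    rw [hφ1 j.1 k.1]
    by_cases h : j = k
    · simp [h]
    · have h' : j.1 ≠ k.1 := fun h' => h (Subtype.ext h')
      simp [h, h']
  · intro f
    -- all eigenvalues are at most one
    have hle : ∀ i, eig s t i ≤ 1 := by
      intro i
      have h1 := hφ3 (φ i)
      have h2 : ∀ j, (1 - eig s t j) * (∑ v, (deg s t v : ℝ) * (φ j v * φ i v)) ^ 2 =
          if j = i then (1 - eig s t j) else 0 := by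
        intro j
        rw [hφ1]
        by_cases h : j = i <;> simp [h]
      simp only [h2] at h1
      rw [Finset.sum_ite_eq' Finset.univ i] at h1
      simp only [Finset.mem_univ, if_true] at h1
      have h3 : 0 ≤ ∑ e, (φ i (s e) - φ i (t e)) ^ 2 :=
        Finset.sum_nonneg fun _ _ => sq_nonneg _
      linarith
    set c : V → ℝ := fun i => (∑ v, (deg s t v : ℝ) * (φ i v * f v)) ^ 2 with hc
    have hc0 : ∀ i, 0 ≤ c i := fun i => sq_nonneg _
    have h4 : ∑ j : ρ, c j.1 = ∑ i ∈ Finset.univ.filter (fun i => 1 - lam < eig s t i), c i :=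
      sum_subtype_filter _ _
    have h5 : ∑ j : ρ, (∑ v, (deg s t v : ℝ) * (φ j.1 v * f v)) ^ 2 = ∑ j : ρ, c j.1 := rfl
    rw [h5, h4, hφ2 f, hφ3 f]
    change lam * (∑ i, c i - _) ≤ ∑ i, (1 - eig s t i) * c i
    rw [← Finset.sum_filter_add_sum_filter_not Finset.univ (fun i => 1 - lam < eig s t i) c,
      add_sub_cancel_left]
    rw [← Finset.sum_filter_add_sum_filter_not Finset.univ (fun i => 1 - lam < eig s t i)
      (fun i => (1 - eig s t i) * c i)]
    have h6 : 0 ≤ ∑ i ∈ Finset.univ.filter (fun i => 1 - lam < eig s t i),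
        (1 - eig s t i) * c i :=
      Finset.sum_nonneg fun i _ => mul_nonneg (by linarith [hle i]) (hc0 i)
    have h7 : lam * ∑ i ∈ Finset.univ.filter (fun i => ¬ (1 - lam < eig s t i)), c i ≤
        ∑ i ∈ Finset.univ.filter (fun i => ¬ (1 - lam < eig s t i)),
          (1 - eig s t i) * c i := by
      rw [Finset.mul_sum]
      refine Finset.sum_le_sum fun i hi => ?_
      rw [Finset.mem_filter, not_lt] at hi
      exact mul_le_mul_of_nonneg_right (by linarith [hi.2]) (hc0 i)
    linarith

end

end Pool.Agent.H562R2
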