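import Mathlib
import Pool.Agent.H562R2.RankLift
import Pool.Agent.H562R2.Walsh

/-!
Folded cubes: the threshold rank bound is sharp.
-/

set_option autoImplicit false

namespace Pool.Agent.H562R2

open Finset

section Count

variable {V E : Type} [Fintype V] [DecidableEq V] [Fintype E]

/-- Counting eigenvalues with the help of explicit eigenfunctions. -/
theorem count_eig (s t : E → V) (hdeg : ∀ v, 0 < deg s t v) {J : Type} [Fintype J]
    [DecidableEq J] (h : J → V → ℝ) (τ : ℝ) (τj : J → ℝ) (hτ : ∀ j, τ ≤ τj j)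
    (horth : ∀ j k, ∑ v, (deg s t v : ℝ) * (h j v * h k v) = if j = k then 1 else 0)
    (hweak : ∀ j (f : V → ℝ), ∑ e, (h j (s e) - h j (t e)) * (f (s e) - f (t e)) =
      (1 - τj j) * ∑ v, (deg s t v : ℝ) * (h j v * f v)) :
    Fintype.card J ≤ rankGE s t τ := by
  obtain ⟨φ, h1, h2, h3, -⟩ := exists_spectral s t hdeg
  set I := Finset.univ.filter fun i => τ ≤ eig s t i with hI
  let c : J → V → ℝ := fun j i => ∑ v, (deg s t v : ℝ) * (φ i v * h j v)
  -- polarised energy against an eigenfunction
  have hpol : ∀ j i, ∑ e, (h j (s e) - h j (t e)) * (φ i (s e) - φ i (t e)) =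
      (1 - eig s t i) * c j i := by
    intro j i
    have e1 := h3 (fun v => h j v + φ i v)
    have e2 := h3 (fun v => h j v)
    have e3 := h3 (fun v => φ i v)
    have e4 : ∑ e, ((h j (s e) + φ i (s e)) - (h j (t e) + φ i (t e))) ^ 2 =
        ∑ e, (h j (s e) - h j (t e)) ^ 2 + ∑ e, (φ i (s e) - φ i (t e)) ^ 2 +
          2 * ∑ e, (h j (s e) - h j (t e)) * (φ i (s e) - φ i (t e)) := by
      rw [Finset.mul_sum, ← Finset.sum_add_distrib, ← Finset.sum_add_distrib]
      exact Finset.sum_congr rfl fun e _ => by ring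
    have e5 : ∀ k, ∑ v, (deg s t v : ℝ) * (φ k v * (h j v + φ i v)) =
        c j k + if k = i then 1 else 0 := by
      intro k
      rw [← h1 k i, ← Finset.sum_add_distrib]
      exact Finset.sum_congr rfl fun v _ => by ring
    have e6 : ∑ k, (1 - eig s t k) * (∑ v, (deg s t v : ℝ) * (φ k v * (h j v + φ i v))) ^ 2 =
        ∑ k, (1 - eig s t k) * (c j k) ^ 2 +
        ∑ k, (1 - eig s t k) * (∑ v, (deg s t v : ℝ) * (φ k v * φ i v)) ^ 2 +
        2 * ((1 - eig s t i) * c j i) := by
      simp only [e5, h1]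
      have : ∀ k, (1 - eig s t k) * (c j k + if k = i then 1 else 0) ^ 2 =
          (1 - eig s t k) * (c j k) ^ 2 + (1 - eig s t k) * (if k = i then 1 else 0) ^ 2 +
            (if k = i then 2 * ((1 - eig s t k) * c j k) else 0) := by
        intro k
        by_cases hk : k = i
        · simp only [hk, if_true]; ring
        · simp only [hk, if_false]; ring
      simp only [this, Finset.sum_add_distrib]
      congr 1
      simp
    rw [e4, e6] at e1
    have e7 : ∑ k, (1 - eig s t k) * (c j k) ^ 2 = ∑ e, (h j (s e) - h j (t e)) ^ 2 :=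
      e2.symm
    linarith
  have hzero : ∀ j i, i ∉ I → c j i = 0 := by
    intro j i hi
    have e1 := hweak j (φ i)
    rw [hpol] at e1
    have e2 : ∑ v, (deg s t v : ℝ) * (h j v * φ i v) = c j i :=
      Finset.sum_congr rfl fun v _ => by ring
    rw [e2] at e1
    have e3 : eig s t i < τ := by
      by_contra hcon
      exact hi (by simp [hI]; linarith)
    have e4 : (eig s t i - τj j) * c j i = 0 := by linarith
    rcases mul_eq_zero.mp e4 with h5 | h5
    · have := hτ j; linarith
    · exact h5
  have hone : ∀ j, ∑ i ∈ I, c j i ^ 2 = 1 := by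
    intro j
    have e1 := h2 (h j)
    have e2 : ∑ v, (deg s t v : ℝ) * h j v ^ 2 = 1 := by
      have := horth j j
      rw [if_pos rfl] at this
      rw [← this]
      exact Finset.sum_congr rfl fun v _ => by ring
    rw [e2] at e1
    have e3 : ∑ i, c j i ^ 2 = ∑ i ∈ I, c j i ^ 2 := by
      symm
      apply Finset.sum_subset (Finset.subset_univ I)
      intro i _ hi
      rw [hzero j i hi]; ring
    rw [← e3]
    exact e1.symm
  have hbes : ∀ i, ∑ j, c j i ^ 2 ≤ 1 := by
    intro i
    have e1 := bessel (fun v => (deg s t v : ℝ)) (fun v => Nat.cast_nonneg _) h horth (φ i)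
    have e2 : ∑ v, (deg s t v : ℝ) * φ i v ^ 2 = 1 := by
      have := h1 i i
      rw [if_pos rfl] at this
      rw [← this]
      exact Finset.sum_congr rfl fun v _ => by ring
    rw [e2] at e1
    have e3 : ∑ j, c j i ^ 2 = ∑ j, (∑ v, (deg s t v : ℝ) * (h j v * φ i v)) ^ 2 := by
      refine Finset.sum_congr rfl fun j _ => ?_
      congr 1
      exact Finset.sum_congr rfl fun v _ => by ring
    rw [e3]; exact e1
  have hfin : (Fintype.card J : ℝ) ≤ (I.card : ℝ) := by
    calc (Fintype.card J : ℝ) = ∑ _j : J, (1 : ℝ) := by simp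
      _ = ∑ j : J, ∑ i ∈ I, c j i ^ 2 := Finset.sum_congr rfl fun j _ => (hone j).symm
      _ = ∑ i ∈ I, ∑ j : J, c j i ^ 2 := Finset.sum_comm
      _ ≤ ∑ _i ∈ I, (1 : ℝ) := Finset.sum_le_sum fun i _ => hbes i
      _ = (I.card : ℝ) := by simp
  exact_mod_cast hfin

end Count

section Folded

variable (n : ℕ)

/-- The step of the folded cube: flip one bit or flip all bits. -/
def fflip (o : Option (Fin n)) : Fin n → Bool :=
  match o with
  | some i => fun j => decide (j = i)
  | none => fun _ => true

/-- Edges: a vertex of the folded cube and a step. -/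
abbrev FE := (Fin n → Bool) × Option (Fin n)

def fs : FE n → (Fin n → Bool) := fun e => e.1

def ft : FE n → (Fin n → Bool) := fun e => fun j => xor (e.1 j) (fflip n e.2 j)

def fπ : FE n → Equiv.Perm (Fin 2) := fun e =>
  match e.2 with
  | some _ => Equiv.refl _
  | none => Equiv.swap 0 1

theorem fdeg (x : Fin n → Bool) : deg (fs n) (ft n) x = 2 * (n + 1) := by
  unfold deg
  have h1 : (Finset.univ.filter fun e : FE n => fs n e = x).card = n + 1 := by
    have : (Finset.univ.filter fun e : FE n => fs n e = x) =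
        Finset.univ.image (fun o : Option (Fin n) => (x, o)) := by
      ext ⟨y, o⟩
      rw [Finset.mem_filter, Finset.mem_image]
      constructor
      · rintro ⟨-, h⟩; exact ⟨o, Finset.mem_univ _, by rw [← h]; rfl⟩
      · rintro ⟨o', -, h⟩
        refine ⟨Finset.mem_univ _, ?_⟩
        rw [← h]; rfl
    rw [this, Finset.card_image_of_injective _ (fun a b h => by simpa using h)]
    simp
  have h2 : (Finset.univ.filter fun e : FE n => ft n e = x).card = n + 1 := by
    have : (Finset.univ.filter fun e : FE n => ft n e = x) =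
        Finset.univ.image (fun o : Option (Fin n) =>
          ((fun j => xor (x j) (fflip n o j) : Fin n → Bool), o)) := by
      ext ⟨y, o⟩
      rw [Finset.mem_filter, Finset.mem_image]
      constructor
      · rintro ⟨-, h⟩
        refine ⟨o, Finset.mem_univ _, ?_⟩
        rw [Prod.mk.injEq]
        refine ⟨?_, rfl⟩
        funext j
        rw [← h]
        simp [ft]
      · rintro ⟨o', -, h⟩
        rw [Prod.mk.injEq] at h
        refine ⟨Finset.mem_univ _, ?_⟩
        obtain ⟨h1, h2⟩ := h
        subst h2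
        funext j
        rw [← h1]
        simp [ft]
    rw [this, Finset.card_image_of_injective _ (fun a b h => by simpa using (Prod.mk.inj h).2)]
    simp
  rw [h1, h2]; ring

theorem fsum (S : Finset (Fin n)) :
    ∑ o, walsh S (fflip n o) = (n : ℝ) - 2 * S.card + (-1) ^ S.card := by
  rw [Fintype.sum_option]
  have h1 : walsh S (fflip n none) = (-1) ^ S.card := by
    simp [walsh, fflip]
  have h2 : ∀ i, walsh S (fflip n (some i)) = if i ∈ S then -1 else 1 := by
    intro i
    rw [walsh]
    by_cases hi : i ∈ S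
    · rw [if_pos hi, Finset.prod_eq_single i]
      · simp [fflip]
      · intro j _ hj; simp [fflip, hj]
      · intro h; exact absurd hi h
    · rw [if_neg hi]
      apply Finset.prod_eq_one
      intro j hj
      have : j ≠ i := fun h => hi (h ▸ hj)
      simp [fflip, this]
  rw [h1]
  simp only [h2]
  have h3 : ∑ i : Fin n, (if i ∈ S then (-1 : ℝ) else 1) = n - 2 * S.card := by
    have : ∀ i : Fin n, (if i ∈ S then (-1 : ℝ) else 1) = 1 - 2 * (if i ∈ S then 1 else 0) := by
      intro i; by_cases h : i ∈ S <;> simp [h]; norm_num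
    simp only [this, Finset.sum_sub_distrib, ← Finset.mul_sum]
    simp
  rw [h3]; ring

theorem fpoincare (f : (Fin n → Bool) → ℝ) :
    (4 / (n + 1 : ℝ)) * (∑ x, (deg (fs n) (ft n) x : ℝ) * f x ^ 2 -
      2 * (n + 1) * 2 ^ n * fc f ∅ ^ 2) ≤ ∑ e, (f (fs n e) - f (ft n e)) ^ 2 := by
  have hn : (0 : ℝ) < n + 1 := by positivity
  have hN : (0 : ℝ) < 2 ^ n := by positivity
  have hp : ∑ x, f x * f x = 2 ^ n * ∑ S, fc f S ^ 2 := by
    have := parseval f f
    rw [Fintype.card_fin] at this
    rw [eq_div_iff hN.ne'] at this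
    rw [← this, mul_comm]
    congr 1
    exact Finset.sum_congr rfl fun S _ => (sq _).symm
  have hc : ∑ x, ∑ o, f x * f (fun j => xor (x j) (fflip n o j)) =
      2 ^ n * ∑ S, ((n : ℝ) - 2 * S.card + (-1) ^ S.card) * fc f S ^ 2 := by
    have := conv_formula (fflip n) f f
    rw [Fintype.card_fin, div_eq_iff hN.ne'] at this
    rw [this, mul_comm]
    congr 1
    refine Finset.sum_congr rfl fun S _ => ?_
    rw [fsum, sq]
  have hE : ∑ e, (f (fs n e) - f (ft n e)) ^ 2 =
      2 * (n + 1) * ∑ x, f x * f x -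
        2 * ∑ x, ∑ o, f x * f (fun j => xor (x j) (fflip n o j)) := by
    have h1 : ∑ e, (f (fs n e) - f (ft n e)) ^ 2 =
        ∑ e, (f (fs n e) ^ 2 + f (ft n e) ^ 2) - 2 * ∑ e, f (fs n e) * f (ft n e) := by
      rw [Finset.mul_sum, ← Finset.sum_sub_distrib]
      exact Finset.sum_congr rfl fun e _ => by ring
    have h2 := sum_deg (fs n) (ft n) (fun x => f x ^ 2)
    simp only [fdeg] at h2
    rw [h1, h2, Fintype.sum_prod_type]
    congr 1
    rw [Finset.mul_sum]
    refine Finset.sum_congr rfl fun x _ => ?_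
    push_cast; ring
  have hD : ∑ x, (deg (fs n) (ft n) x : ℝ) * f x ^ 2 = 2 * (n + 1) * ∑ x, f x * f x := by
    rw [Finset.mul_sum]
    refine Finset.sum_congr rfl fun x _ => ?_
    rw [fdeg]; push_cast; ring
  rw [hE, hD, hp, hc]
  have key : 4 * (∑ S, fc f S ^ 2 - fc f ∅ ^ 2) ≤
      ∑ S, ((n : ℝ) + 1 - ((n : ℝ) - 2 * S.card + (-1) ^ S.card)) * fc f S ^ 2 := by
    rw [← Finset.add_sum_erase Finset.univ (fun S => fc f S ^ 2) (Finset.mem_univ ∅),
      add_sub_cancel_left]
    rw [← Finset.add_sum_erase Finset.univ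
      (fun S => ((n : ℝ) + 1 - ((n : ℝ) - 2 * S.card + (-1) ^ S.card)) * fc f S ^ 2)
      (Finset.mem_univ ∅)]
    have h0 : ((n : ℝ) + 1 - ((n : ℝ) - 2 * (∅ : Finset (Fin n)).card +
        (-1) ^ (∅ : Finset (Fin n)).card)) * fc f ∅ ^ 2 = 0 := by simp
    rw [h0, zero_add, Finset.mul_sum]
    refine Finset.sum_le_sum fun S hS => ?_
    apply mul_le_mul_of_nonneg_right _ (sq_nonneg _)
    have hS0 : S ≠ ∅ := (Finset.mem_erase.mp hS).1
    have hc1 : 1 ≤ S.card := Finset.card_pos.mpr (Finset.nonempty_iff_ne_empty.mpr hS0)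
    rcases Nat.even_or_odd S.card with he | ho
    · have : 2 ≤ S.card := by
        rcases he with ⟨k, hk⟩; omega
      have h' : (2 : ℝ) ≤ S.card := by exact_mod_cast this
      rw [he.neg_one_pow]; linarith
    · have h' : (1 : ℝ) ≤ S.card := by exact_mod_cast hc1
      rw [ho.neg_one_pow]; linarith
  have e1 : (4 / (n + 1 : ℝ)) * (2 * (n + 1) * (2 ^ n * ∑ S, fc f S ^ 2) -
      2 * (n + 1) * 2 ^ n * fc f ∅ ^ 2) = 2 * 2 ^ n * (4 * (∑ S, fc f S ^ 2 - fc f ∅ ^ 2)) := by
    field_simp
  have e2 : 2 * (n + 1 : ℝ) * (2 ^ n * ∑ S, fc f S ^ 2) -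
      2 * (2 ^ n * ∑ S, ((n : ℝ) - 2 * S.card + (-1) ^ S.card) * fc f S ^ 2) =
      2 * 2 ^ n * ∑ S, ((n : ℝ) + 1 - ((n : ℝ) - 2 * S.card + (-1) ^ S.card)) * fc f S ^ 2 := by
    have : ∀ S : Finset (Fin n), ((n : ℝ) + 1 - ((n : ℝ) - 2 * S.card + (-1) ^ S.card)) *
        fc f S ^ 2 = ((n : ℝ) + 1) * fc f S ^ 2 -
          ((n : ℝ) - 2 * S.card + (-1) ^ S.card) * fc f S ^ 2 := fun S => by ring
    simp only [this, Finset.sum_sub_distrib, ← Finset.mul_sum]
    ring
  rw [e1, e2]
  exact mul_le_mul_of_nonneg_left key (by positivity)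

theorem frank_le : rankGT (fs n) (ft n) (1 - 4 / (n + 1 : ℝ)) ≤ 1 := by
  have hn : (0 : ℝ) < n + 1 := by positivity
  obtain ⟨φ, h1, h2, h3, -⟩ := exists_spectral (fs n) (ft n) (fun x => by rw [fdeg]; omega)
  rw [rankGT, Finset.card_le_one]
  intro i hi j hj
  by_contra hij
  rw [Finset.mem_filter] at hi hj
  -- a combination orthogonal to the constants
  set α := fc (φ j) ∅ with hα
  set β := fc (φ i) ∅ with hβ
  have hen : ∀ a b : ℝ, ∑ e, ((a * φ i (fs n e) + b * φ j (fs n e)) -
      (a * φ i (ft n e) + b * φ j (ft n e))) ^ 2 =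
      (1 - eig (fs n) (ft n) i) * a ^ 2 + (1 - eig (fs n) (ft n) j) * b ^ 2 := by
    intro a b
    rw [h3 (fun x => a * φ i x + b * φ j x)]
    have e5 : ∀ k, ∑ v, (deg (fs n) (ft n) v : ℝ) * (φ k v * (a * φ i v + b * φ j v)) =
        a * (if k = i then 1 else 0) + b * (if k = j then 1 else 0) := by
      intro k
      rw [← h1 k i, ← h1 k j, Finset.mul_sum, Finset.mul_sum, ← Finset.sum_add_distrib]
      exact Finset.sum_congr rfl fun v _ => by ring
    simp only [e5]
    have : ∀ k, (1 - eig (fs n) (ft n) k) *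
        (a * (if k = i then 1 else 0) + b * (if k = j then 1 else 0)) ^ 2 =
        (if k = i then (1 - eig (fs n) (ft n) k) * a ^ 2 else 0) +
        (if k = j then (1 - eig (fs n) (ft n) k) * b ^ 2 else 0) := by
      intro k
      by_cases hk : k = i
      · have hk' : k ≠ j := fun h => hij (hk ▸ h)
        simp only [hk, hij, if_true, if_false]; ring
      · by_cases hk' : k = j
        · have : j ≠ i := fun h => hij h.symm
          simp only [hk', this, if_true, if_false]; ring
        · simp only [hk, hk', if_false]; ring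
    simp only [this, Finset.sum_add_distrib]
    simp
  have hnorm : ∀ a b : ℝ, ∑ v, (deg (fs n) (ft n) v : ℝ) * (a * φ i v + b * φ j v) ^ 2 =
      a ^ 2 + b ^ 2 := by
    intro a b
    have : ∀ v, (deg (fs n) (ft n) v : ℝ) * (a * φ i v + b * φ j v) ^ 2 =
        a ^ 2 * ((deg (fs n) (ft n) v : ℝ) * (φ i v * φ i v)) +
        2 * a * b * ((deg (fs n) (ft n) v : ℝ) * (φ i v * φ j v)) +
        b ^ 2 * ((deg (fs n) (ft n) v : ℝ) * (φ j v * φ j v)) := fun v => by ring
    simp only [this, Finset.sum_add_distrib, ← Finset.mul_sum]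
    rw [h1, h1, h1]
    simp [hij]
  have hfc : ∀ a b : ℝ, fc (fun x => a * φ i x + b * φ j x) ∅ = a * β + b * α := by
    intro a b
    simp only [fc, hα, hβ, walsh_empty, mul_one, Finset.sum_add_distrib, ← Finset.mul_sum]
    ring
  -- choose the combination
  have hmain : ∀ a b : ℝ, a * β + b * α = 0 → (a ≠ 0 ∨ b ≠ 0) → False := by
    intro a b hab hne
    have hp := fpoincare n (fun x => a * φ i x + b * φ j x)
    rw [hfc, hab, hnorm, hen] at hp
    have hi' := hi.2
    have hj' := hj.2
    have h4 : 0 < 4 / (n + 1 : ℝ) := by positivity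
    have ha : (1 - eig (fs n) (ft n) i) * a ^ 2 ≤ 4 / (n + 1 : ℝ) * a ^ 2 :=
      mul_le_mul_of_nonneg_right (by linarith) (sq_nonneg a)
    have hb : (1 - eig (fs n) (ft n) j) * b ^ 2 ≤ 4 / (n + 1 : ℝ) * b ^ 2 :=
      mul_le_mul_of_nonneg_right (by linarith) (sq_nonneg b)
    rcases hne with h | h
    · have ha' : (1 - eig (fs n) (ft n) i) * a ^ 2 < 4 / (n + 1 : ℝ) * a ^ 2 :=
        mul_lt_mul_of_pos_right (by linarith) (by positivity)
      nlinarith
    · have hb' : (1 - eig (fs n) (ft n) j) * b ^ 2 < 4 / (n + 1 : ℝ) * b ^ 2 :=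
        mul_lt_mul_of_pos_right (by linarith) (by positivity)
      nlinarith
  by_cases hβ0 : β = 0
  · exact hmain 1 0 (by rw [hβ0]; ring) (Or.inl one_ne_zero)
  · exact hmain α (-β) (by ring) (Or.inr (neg_ne_zero.mpr hβ0))

/-- Supports of the explicit eigenfunctions. -/
def fS (j : Option (Option (Fin n))) : Finset (Fin n) :=
  match j with
  | some (some i) => {i}
  | _ => ∅

/-- Sign of a label. -/
def lsg (a : Fin 2) : ℝ := if a = 0 then 1 else -1

def fL (j : Option (Option (Fin n))) (a : Fin 2) : ℝ :=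
  match j with
  | none => 1
  | some _ => lsg a

/-- The explicit eigenfunctions of the label-extended graph. -/
def fχ (j : Option (Option (Fin n))) (p : (Fin n → Bool) × Fin 2) : ℝ :=
  walsh (fS n j) p.1 * fL n j p.2

theorem fχ_orth (j k : Option (Option (Fin n))) :
    ∑ p, fχ n j p * fχ n k p = if j = k then 2 * 2 ^ n else 0 := by
  have h1 : ∑ p, fχ n j p * fχ n k p =
      (∑ x, walsh (fS n j) x * walsh (fS n k) x) * (∑ a, fL n j a * fL n k a) := by
    rw [Fintype.sum_prod_type, Finset.sum_mul_sum]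
    refine Finset.sum_congr rfl fun x _ => Finset.sum_congr rfl fun a _ => ?_
    simp only [fχ]; ring
  rw [h1, walsh_orth, Fintype.card_fin]
  rcases j with _ | _ | i <;> rcases k with _ | _ | i' <;> simp [fS, fL, lsg, Fin.sum_univ_two]
  · ring
  · ring
  · by_cases h : i = i'
    · simp [h]; ring
    · simp [h]

/-- The involution of the label-extended graph given by a step. -/
def fT (o : Option (Fin n)) : Equiv.Perm ((Fin n → Bool) × Fin 2) where
  toFun p := ((fun j => xor (p.1 j) (fflip n o j)), fπ n (p.1, o) p.2)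
  invFun p := ((fun j => xor (p.1 j) (fflip n o j)), fπ n (p.1, o) p.2)
  left_inv p := by
    rcases o with _ | i
    · simp [fπ]
    · simp [fπ]
  right_inv p := by
    rcases o with _ | i
    · simp [fπ]
    · simp [fπ]

theorem fT_invol (o : Option (Fin n)) (p : (Fin n → Bool) × Fin 2) :
    fT n o (fT n o p) = p := (fT n o).left_inv p

theorem lsg_swap (a : Fin 2) : lsg (Equiv.swap 0 1 a) = - lsg a := by
  fin_cases a <;> simp [lsg]

theorem walsh_single (i : Fin n) (x : Fin n → Bool) : walsh {i} x = sg (x i) := by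
  simp [walsh]

theorem sg_not (b : Bool) : sg (!b) = - sg b := by cases b <;> simp

theorem fχ_T (o : Option (Fin n)) (o' : Option (Fin n)) (p : (Fin n → Bool) × Fin 2) :
    fχ n (some o') (fT n o p) = (if o = o' then -1 else 1) * fχ n (some o') p := by
  rcases o with _ | i <;> rcases o' with _ | i'
  · simp [fχ, fT, fπ, fS, fL, lsg_swap]
  · simp [fχ, fT, fπ, fS, fL, lsg_swap, fflip, walsh_single, sg_not]
  · simp [fχ, fT, fπ, fS, fL]
  · by_cases h : i = i'
    · subst h
      simp [fχ, fT, fπ, fS, fL, fflip, walsh_single, sg_not]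
    · have h' : i' ≠ i := fun h' => h h'.symm
      simp [fχ, fT, fπ, fS, fL, fflip, walsh_single, h, h']

theorem fcount : n + 2 ≤ rankGE (extS (q := 2) (fs n)) (extT (ft n) (fπ n))
    (1 - 2 / (n + 1 : ℝ)) := by
  have hn : (0 : ℝ) < n + 1 := by positivity
  have hN : (0 : ℝ) < 2 ^ n := by positivity
  set C : ℝ := 2 * (n + 1) * (2 * 2 ^ n) with hC
  have hC0 : 0 < C := by positivity
  set c : ℝ := (Real.sqrt C)⁻¹ with hc
  have hcc : c * c * C = 1 := by
    rw [hc, ← mul_inv, Real.mul_self_sqrt hC0.le, inv_mul_cancel₀ hC0.ne']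
  have hd : ∀ p : (Fin n → Bool) × Fin 2,
      (deg (extS (q := 2) (fs n)) (extT (ft n) (fπ n)) p : ℝ) = 2 * (n + 1) := by
    intro p
    rw [deg_ext, fdeg]; push_cast; ring
  have key := count_eig (extS (q := 2) (fs n)) (extT (ft n) (fπ n))
    (fun p => by rw [deg_ext, fdeg]; omega) (J := Option (Option (Fin n)))
    (fun j p => c * fχ n j p) (1 - 2 / (n + 1 : ℝ))
    (fun j => match j with | none => 1 | some _ => 1 - 2 / (n + 1 : ℝ)) ?_ ?_ ?_
  · have e : Fintype.card (Option (Option (Fin n))) = n + 2 := by simp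
    rw [e] at key
    exact key
  · intro j
    rcases j with _ | o
    · have : 0 < 2 / (n + 1 : ℝ) := by positivity
      simp only
      linarith
    · exact le_refl _
  · intro j k
    have h1 : ∑ p, (deg (extS (q := 2) (fs n)) (extT (ft n) (fπ n)) p : ℝ) *
        (c * fχ n j p * (c * fχ n k p)) =
        (c * c * (2 * (n + 1))) * ∑ p, fχ n j p * fχ n k p := by
      rw [Finset.mul_sum]
      refine Finset.sum_congr rfl fun p _ => ?_
      rw [hd]; ring
    rw [h1, fχ_orth]
    by_cases h : j = k
    · simp only [h, if_true]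
      rw [mul_assoc]; exact hcc
    · simp only [h, if_false, mul_zero]
  · intro j f
    simp only [hd]
    rcases j with _ | o'
    · have : ∀ p, fχ n none p = 1 := by intro p; simp [fχ, fS, fL]
      simp only [this]
      simp
    · have h1 : ∑ e : FE n × Fin 2, (c * fχ n (some o') (extS (fs n) e) -
          c * fχ n (some o') (extT (ft n) (fπ n) e)) *
          (f (extS (fs n) e) - f (extT (ft n) (fπ n) e)) =
          ∑ o : Option (Fin n), ∑ p : (Fin n → Bool) × Fin 2,
            (c * fχ n (some o') p - c * fχ n (some o') (fT n o p)) *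
              (f p - f (fT n o p)) := by
        rw [Fintype.sum_prod_type, Fintype.sum_prod_type]
        rw [Finset.sum_comm]
        refine Finset.sum_congr rfl fun o _ => ?_
        rw [Fintype.sum_prod_type]
        rfl
      rw [h1]
      have h2 : ∀ o p, (c * fχ n (some o') p - c * fχ n (some o') (fT n o p)) *
          (f p - f (fT n o p)) = if o = o' then
            2 * c * (fχ n (some o') p * f p) - 2 * c * (fχ n (some o') p * f (fT n o p))
            else 0 := by
        intro o p
        rw [fχ_T]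
        by_cases h : o = o'
        · simp only [h, if_true]; ring
        · simp only [h, if_false]; ring
      simp only [h2]
      have h3 : ∀ o, ∑ p : (Fin n → Bool) × Fin 2, (if o = o' then
            2 * c * (fχ n (some o') p * f p) - 2 * c * (fχ n (some o') p * f (fT n o p))
            else 0) = if o = o' then ∑ p : (Fin n → Bool) × Fin 2,
            (2 * c * (fχ n (some o') p * f p) - 2 * c * (fχ n (some o') p * f (fT n o' p)))
            else 0 := by
        intro o
        by_cases h : o = o'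
        · simp only [h, if_true]
        · simp only [h, if_false, Finset.sum_const_zero]
      simp only [h3]
      rw [Finset.sum_ite_eq' Finset.univ o']
      simp only [Finset.mem_univ, if_true]
      have h4 : ∑ p, fχ n (some o') p * f (fT n o' p) = - ∑ p, fχ n (some o') p * f p := by
        rw [← Equiv.sum_comp (fT n o') (fun p => fχ n (some o') p * f (fT n o' p)),
          ← Finset.sum_neg_distrib]
        refine Finset.sum_congr rfl fun p _ => ?_
        rw [fT_invol, fχ_T]
        simp
      rw [Finset.sum_sub_distrib, ← Finset.mul_sum, ← Finset.mul_sum, h4]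
      have h5 : ∑ p, 2 * (n + 1 : ℝ) * (c * fχ n (some o') p * f p) =
          2 * (n + 1) * c * ∑ p, fχ n (some o') p * f p := by
        rw [Finset.mul_sum]
        exact Finset.sum_congr rfl fun p _ => by ring
      rw [h5]
      field_simp
      ring

theorem frank_eq : rankGT (fs n) (ft n) (1 - 4 / (n + 1 : ℝ)) = 1 := by
  apply le_antisymm (frank_le n)
  have hn : (0 : ℝ) < n + 1 := by positivity
  have hN : (0 : ℝ) < 2 ^ n := by positivity
  set C : ℝ := 2 * (n + 1) * 2 ^ n with hC
  have hC0 : 0 < C := by positivity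
  set c : ℝ := (Real.sqrt C)⁻¹ with hc
  have hcc : c * c * C = 1 := by
    rw [hc, ← mul_inv, Real.mul_self_sqrt hC0.le, inv_mul_cancel₀ hC0.ne']
  have key := count_eig (fs n) (ft n) (fun p => by rw [fdeg]; omega) (J := Unit)
    (fun _ _ => c) 1 (fun _ => 1) (fun _ => le_refl _) ?_ ?_
  · have h1 : rankGE (fs n) (ft n) 1 ≤ rankGT (fs n) (ft n) (1 - 4 / (n + 1 : ℝ)) := by
      unfold rankGE rankGT
      apply Finset.card_le_card
      intro i hi
      rw [Finset.mem_filter] at hi ⊢
      refine ⟨hi.1, ?_⟩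
      have : 0 < 4 / (n + 1 : ℝ) := by positivity
      linarith [hi.2]
    simpa using key.trans h1
  · intro j k
    simp only [fdeg]
    rw [if_pos trivial]
    rw [Finset.sum_const, Finset.card_univ]
    simp only [Fintype.card_fun, Fintype.card_bool, Fintype.card_fin, nsmul_eq_mul]
    refine Eq.trans ?_ hcc
    rw [hC]
    push_cast
    ring
  · intro j f
    simp

end Folded

end Pool.Agent.H562R2
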