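import Mathlib
import Pool.Agent.H562R2.DCluster

/-!
The random partition game: many far-apart perfect labelings of a `d`-to-one game with second
singular value at most `1/√d`.
-/

set_option autoImplicit false

namespace Pool.Agent.H562R2

open Finset

section

variable {Q Z : Type} [Fintype Q] [DecidableEq Q] [Fintype Z] [DecidableEq Z]

/-- Number of permutations putting two points into one block. -/
def pc (bl : Q → Z) (x x' : Q) : ℕ :=
  (Finset.univ.filter fun σ : Equiv.Perm Q => bl (σ x) = bl (σ x')).card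

omit [Fintype Z] in
theorem pc_perm (bl : Q → Z) (τ : Equiv.Perm Q) (x x' : Q) :
    pc bl (τ x) (τ x') = pc bl x x' := by
  unfold pc
  refine Finset.card_bij' (fun σ _ => σ * τ) (fun σ _ => σ * τ⁻¹) ?_ ?_ ?_ ?_
  · intro σ hσ
    simpa using hσ
  · intro σ hσ
    simpa using hσ
  · intro σ _
    simp
  · intro σ _
    simp

omit [Fintype Z] in
theorem pc_const (bl : Q → Z) {x x' a a' : Q} (hx : x ≠ x') (ha : a ≠ a') :
    pc bl x x' = pc bl a a' := by
  have h1 := pc_perm bl (Equiv.swap x a) x x'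
  rw [Equiv.swap_apply_left] at h1
  have h2 : Equiv.swap x a x' ≠ a := by
    intro h
    have : Equiv.swap x a x' = Equiv.swap x a x := by rw [h, Equiv.swap_apply_left]
    exact hx ((Equiv.swap x a).injective this).symm
  have h3 := pc_perm bl (Equiv.swap (Equiv.swap x a x') a') a (Equiv.swap x a x')
  rw [Equiv.swap_apply_left, Equiv.swap_apply_of_ne_of_ne (Ne.symm h2) ha] at h3
  rw [← h1, ← h3]

theorem block_sq (bl : Q → Z) (u : Q → ℝ) (hu : ∑ x, u x = 0) :
    ∑ σ : Equiv.Perm Q, ∑ z, (∑ x with bl (σ x) = z, u x) ^ 2 ≤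
      ∑ _σ : Equiv.Perm Q, ∑ x, u x ^ 2 := by
  have h1 : ∀ σ : Equiv.Perm Q, ∑ z, (∑ x with bl (σ x) = z, u x) ^ 2 =
      ∑ x, ∑ x', u x * u x' * (if bl (σ x) = bl (σ x') then 1 else 0) := by
    intro σ
    have h2 : ∀ z, (∑ x with bl (σ x) = z, u x) ^ 2 =
        ∑ x, ∑ x', (u x * u x') * ((if bl (σ x) = z then 1 else 0) *
          (if bl (σ x') = z then 1 else 0)) := by
      intro z
      rw [Finset.sum_filter, sq, Finset.sum_mul_sum]
      refine Finset.sum_congr rfl fun x _ => Finset.sum_congr rfl fun x' _ => ?_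
      by_cases c1 : bl (σ x) = z <;> by_cases c2 : bl (σ x') = z <;> simp [c1, c2]
    simp only [h2]
    rw [Finset.sum_comm]
    refine Finset.sum_congr rfl fun x _ => ?_
    rw [Finset.sum_comm]
    refine Finset.sum_congr rfl fun x' _ => ?_
    rw [← Finset.mul_sum]
    congr 1
    simp [eq_comm]
  simp only [h1]
  have h3 : ∑ σ : Equiv.Perm Q, ∑ x, ∑ x', u x * u x' *
      (if bl (σ x) = bl (σ x') then (1 : ℝ) else 0) = ∑ x, ∑ x', u x * u x' * pc bl x x' := by
    rw [Finset.sum_comm]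
    refine Finset.sum_congr rfl fun x _ => ?_
    rw [Finset.sum_comm]
    refine Finset.sum_congr rfl fun x' _ => ?_
    rw [← Finset.mul_sum, ← Finset.sum_filter, Finset.sum_const, nsmul_eq_mul, mul_one, pc]
  rw [h3]
  -- the off-diagonal count is constant
  by_cases hQ : ∃ a a' : Q, a ≠ a'
  · obtain ⟨a, a', ha⟩ := hQ
    obtain ⟨C, hC⟩ : ∃ C : ℝ, C = pc bl a a' := ⟨_, rfl⟩
    have hC0 : 0 ≤ C := hC ▸ Nat.cast_nonneg _
    obtain ⟨N, hN⟩ : ∃ N : ℝ, N = Fintype.card (Equiv.Perm Q) := ⟨_, rfl⟩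
    have h4 : ∀ x x', u x * u x' * (pc bl x x' : ℝ) =
        C * (u x * u x') + (if x' = x then (N - C) * (u x * u x') else 0) := by
      intro x x'
      by_cases h : x' = x
      · subst h
        have : (pc bl x' x' : ℝ) = N := by
          rw [hN, pc, Finset.filter_true_of_mem (fun _ _ => rfl), Finset.card_univ]
        rw [this, if_pos rfl]; ring
      · rw [if_neg h, pc_const bl (Ne.symm h) ha, ← hC]; ring
    have h5 : ∑ x, ∑ x', u x * u x' * (pc bl x x' : ℝ) = (N - C) * ∑ x, u x ^ 2 := by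
      simp only [h4, Finset.sum_add_distrib, ← Finset.mul_sum, Finset.sum_ite_eq',
        Finset.mem_univ, if_true]
      rw [hu]
      simp [sq]
    rw [h5, Finset.sum_const, Finset.card_univ, nsmul_eq_mul, ← hN]
    have : 0 ≤ ∑ x, u x ^ 2 := Finset.sum_nonneg fun _ _ => sq_nonneg _
    nlinarith
  · push Not at hQ
    have h6 : ∀ x, u x = 0 := by
      intro x
      rw [← hu]
      have : (Finset.univ : Finset Q) = {x} := by
        ext a; simp [hQ a x]
      rw [this, Finset.sum_singleton]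
    simp [h6]

/-- One coordinate. -/
theorem base_gap (bl : Q → Z) (d : ℕ) (hd : 1 ≤ d)
    (hbl : ∀ z, (Finset.univ.filter fun q => bl q = z).card = d)
    (u : Q → ℝ) (hu : ∑ x, u x = 0) (k : Equiv.Perm Q → Z → ℝ) :
    ∑ σ : Equiv.Perm Q, 2 * ∑ x, u x * k σ (bl (σ x)) ≤
      1 / Real.sqrt d * (∑ _σ : Equiv.Perm Q, ∑ x, u x ^ 2 +
        ∑ σ : Equiv.Perm Q, ∑ x, k σ (bl (σ x)) ^ 2) := by
  have hd0 : (0 : ℝ) < d := by exact_mod_cast hd
  have hs0 : 0 < Real.sqrt d := Real.sqrt_pos.mpr hd0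
  have hs2 : Real.sqrt d * Real.sqrt d = d := Real.mul_self_sqrt hd0.le
  obtain ⟨r, hr⟩ : ∃ r : ℝ, r = Real.sqrt d := ⟨_, rfl⟩
  rw [← hr] at hs0 hs2 ⊢
  have h1 : ∀ σ : Equiv.Perm Q, ∑ x, u x * k σ (bl (σ x)) =
      ∑ z, k σ z * ∑ x with bl (σ x) = z, u x := by
    intro σ
    rw [← Finset.sum_fiberwise (s := Finset.univ) (g := fun x => bl (σ x))]
    refine Finset.sum_congr rfl fun z _ => ?_
    rw [Finset.mul_sum]
    refine Finset.sum_congr rfl fun x hx => ?_
    rw [(Finset.mem_filter.mp hx).2, mul_comm]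
  have h2 : ∀ σ : Equiv.Perm Q, ∑ x, k σ (bl (σ x)) ^ 2 = ∑ z, d * k σ z ^ 2 := by
    intro σ
    rw [Equiv.sum_comp σ (fun x => k σ (bl x) ^ 2),
      ← Finset.sum_fiberwise (s := Finset.univ) (g := bl)]
    refine Finset.sum_congr rfl fun z _ => ?_
    rw [← hbl z, ← nsmul_eq_mul, ← Finset.sum_const]
    refine Finset.sum_congr rfl fun x hx => ?_
    rw [(Finset.mem_filter.mp hx).2]
  have h3 : ∀ σ : Equiv.Perm Q, 2 * ∑ x, u x * k σ (bl (σ x)) ≤
      1 / r * ∑ z, (∑ x with bl (σ x) = z, u x) ^ 2 + 1 / r * ∑ x, k σ (bl (σ x)) ^ 2 := by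
    intro σ
    rw [h1, h2, Finset.mul_sum, Finset.mul_sum, Finset.mul_sum, ← Finset.sum_add_distrib]
    refine Finset.sum_le_sum fun z _ => ?_
    set S := ∑ x with bl (σ x) = z, u x
    have h4 : 1 / r * (d * k σ z ^ 2) = r * k σ z ^ 2 := by
      rw [← hs2]; field_simp
    have h5 : 1 / r * S ^ 2 + r * k σ z ^ 2 - 2 * (k σ z * S) = (r * k σ z - S) ^ 2 / r := by
      field_simp
      ring
    have h6 : 0 ≤ (r * k σ z - S) ^ 2 / r := by positivity
    rw [h4]
    linarith
  refine (Finset.sum_le_sum fun σ _ => h3 σ).trans ?_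
  rw [Finset.sum_add_distrib, ← Finset.mul_sum, ← Finset.mul_sum, ← mul_add]
  apply mul_le_mul_of_nonneg_left _ (by positivity)
  linarith [block_sq bl u hu]

omit [DecidableEq Q] in
theorem split_sum (m : ℝ) (hm : m = Fintype.card Q) (hm0 : 0 < m) (G H : Q → ℝ) :
    ∑ x, G x * H x = m * ((∑ x, G x) / m * ((∑ x, H x) / m)) +
      ∑ x, (G x - (∑ x, G x) / m) * (H x - (∑ x, H x) / m) := by
  have h1 : ∀ x, (G x - (∑ x, G x) / m) * (H x - (∑ x, H x) / m) =
      G x * H x - (∑ x, H x) / m * G x - (∑ x, G x) / m * H x +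
        (∑ x, G x) / m * ((∑ x, H x) / m) := fun x => by ring
  simp only [h1, Finset.sum_add_distrib, Finset.sum_sub_distrib, ← Finset.mul_sum,
    Finset.sum_const, Finset.card_univ, nsmul_eq_mul, ← hm]
  field_simp
  ring

theorem perm_gap (bl : Q → Z) (d : ℕ) (hd : 1 ≤ d)
    (hbl : ∀ z, (Finset.univ.filter fun q => bl q = z).card = d) (hQ : 0 < Fintype.card Q)
    (n : ℕ) : ∀ (g : (Fin n → Q) → ℝ) (h : Equiv.Perm Q → (Fin n → Z) → ℝ), ∑ f, g f = 0 →
    ∑ σ : Equiv.Perm Q, 2 * ∑ f, g f * h σ (fun i => bl (σ (f i))) ≤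
      1 / Real.sqrt d * (∑ _σ : Equiv.Perm Q, ∑ f, g f ^ 2 +
        ∑ σ : Equiv.Perm Q, ∑ f : Fin n → Q, h σ (fun i => bl (σ (f i))) ^ 2) := by
  have hr0 : 0 ≤ 1 / Real.sqrt d := by positivity
  induction n with
  | zero =>
    intro g h hg
    have h1 : ∀ f, g f = 0 := by
      intro f
      rw [← hg, Fintype.sum_subsingleton g f]
    simp only [h1, zero_mul, Finset.sum_const_zero, mul_zero]
    exact mul_nonneg hr0 (add_nonneg (by positivity) (by positivity))
  | succ n ih =>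
    intro g h hg
    obtain ⟨m, hm⟩ : ∃ m : ℝ, m = Fintype.card Q := ⟨_, rfl⟩
    have hm0 : 0 < m := by rw [hm]; exact_mod_cast hQ
    -- splitting off the first coordinate
    have hsplit : ∀ F : (Fin (n + 1) → Q) → ℝ, ∑ f, F f =
        ∑ y : Fin n → Q, ∑ x : Q, F (Fin.cons x y) := by
      intro F
      rw [← Equiv.sum_comp (Fin.consEquiv fun _ => Q) F, Fintype.sum_prod_type, Finset.sum_comm]
      rfl
    have hcons : ∀ (σ : Equiv.Perm Q) (x : Q) (y : Fin n → Q),
        (fun i => bl (σ ((Fin.cons x y : Fin (n + 1) → Q) i))) =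
          (Fin.cons (bl (σ x)) (fun i => bl (σ (y i))) : Fin (n + 1) → Z) := by
      intro σ x y
      funext i
      refine Fin.cases ?_ (fun j => ?_) i
      · simp
      · simp
    obtain ⟨gb, hgb⟩ : ∃ gb : (Fin n → Q) → ℝ, ∀ y, gb y = (∑ x, g (Fin.cons x y)) / m :=
      ⟨_, fun _ => rfl⟩
    obtain ⟨hb, hhb⟩ : ∃ hb : Equiv.Perm Q → (Fin n → Z) → ℝ, ∀ σ w,
        hb σ w = (∑ x : Q, h σ (Fin.cons (bl (σ x)) w)) / m := ⟨_, fun _ _ => rfl⟩
    have hgb0 : ∑ y, gb y = 0 := by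
      simp only [hgb]
      rw [← Finset.sum_div, ← hsplit g, hg, zero_div]
    have h1 := ih gb hb hgb0
    have h2 : ∀ y : Fin n → Q, ∑ x, (g (Fin.cons x y) - gb y) = 0 := by
      intro y
      rw [Finset.sum_sub_distrib, Finset.sum_const, Finset.card_univ, nsmul_eq_mul, ← hm, hgb]
      field_simp
      ring
    have h3 : ∀ y : Fin n → Q, _ := fun y => base_gap bl d hd hbl
      (fun x => g (Fin.cons x y) - gb y) (h2 y)
      (fun σ z => h σ (Fin.cons z (fun i => bl (σ (y i)))) - hb σ (fun i => bl (σ (y i))))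
    have h4 := Finset.sum_le_sum fun y (_ : y ∈ (Finset.univ : Finset (Fin n → Q))) => h3 y
    simp only [hsplit, hcons]
    have e1 : ∀ (σ : Equiv.Perm Q) (y : Fin n → Q), ∑ x, g (Fin.cons x y) *
        h σ (Fin.cons (bl (σ x)) (fun i => bl (σ (y i)))) =
        m * (gb y * hb σ (fun i => bl (σ (y i)))) + ∑ x, (g (Fin.cons x y) - gb y) *
          (h σ (Fin.cons (bl (σ x)) (fun i => bl (σ (y i)))) -
            hb σ (fun i => bl (σ (y i)))) := by
      intro σ y
      rw [split_sum m hm hm0, hgb, hhb]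
    have e2 : ∀ y : Fin n → Q, ∑ x, g (Fin.cons x y) ^ 2 =
        m * gb y ^ 2 + ∑ x, (g (Fin.cons x y) - gb y) ^ 2 := by
      intro y
      have := split_sum m hm hm0 (fun x => g (Fin.cons x y)) (fun x => g (Fin.cons x y))
      simp only [← sq] at this
      rw [this, hgb]
    have e3 : ∀ (σ : Equiv.Perm Q) (y : Fin n → Q),
        ∑ x : Q, h σ (Fin.cons (bl (σ x)) (fun i => bl (σ (y i)))) ^ 2 =
        m * hb σ (fun i => bl (σ (y i))) ^ 2 + ∑ x : Q,
          (h σ (Fin.cons (bl (σ x)) (fun i => bl (σ (y i)))) -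
            hb σ (fun i => bl (σ (y i)))) ^ 2 := by
      intro σ y
      have := split_sum m hm hm0
        (fun x => h σ (Fin.cons (bl (σ x)) (fun i => bl (σ (y i)))))
        (fun x => h σ (Fin.cons (bl (σ x)) (fun i => bl (σ (y i)))))
      simp only [← sq] at this
      rw [this, hhb]
    simp only [e1, e2, e3]
    have k1 : ∑ σ : Equiv.Perm Q, 2 * ∑ y : Fin n → Q, (m * (gb y *
          hb σ (fun i => bl (σ (y i)))) + ∑ x, (g (Fin.cons x y) - gb y) *
            (h σ (Fin.cons (bl (σ x)) (fun i => bl (σ (y i)))) -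
              hb σ (fun i => bl (σ (y i))))) =
        m * (∑ σ : Equiv.Perm Q, 2 * ∑ y, gb y * hb σ (fun i => bl (σ (y i)))) +
        ∑ y : Fin n → Q, ∑ σ : Equiv.Perm Q, 2 * ∑ x, (g (Fin.cons x y) - gb y) *
            (h σ (Fin.cons (bl (σ x)) (fun i => bl (σ (y i)))) -
              hb σ (fun i => bl (σ (y i)))) := by
      rw [Finset.sum_comm (s := (Finset.univ : Finset (Fin n → Q))), Finset.mul_sum,
        ← Finset.sum_add_distrib]
      refine Finset.sum_congr rfl fun σ _ => ?_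
      rw [Finset.sum_add_distrib, ← Finset.mul_sum, ← Finset.mul_sum]
      ring
    have k2 : ∑ _σ : Equiv.Perm Q, ∑ y, (m * gb y ^ 2 + ∑ x, (g (Fin.cons x y) - gb y) ^ 2) =
        m * (∑ _σ : Equiv.Perm Q, ∑ y, gb y ^ 2) +
        ∑ y : Fin n → Q, ∑ _σ : Equiv.Perm Q, ∑ x, (g (Fin.cons x y) - gb y) ^ 2 := by
      rw [Finset.sum_comm (s := (Finset.univ : Finset (Fin n → Q))), Finset.mul_sum,
        ← Finset.sum_add_distrib]
      refine Finset.sum_congr rfl fun σ _ => ?_
      rw [Finset.sum_add_distrib, ← Finset.mul_sum]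
    have k3 : ∑ σ : Equiv.Perm Q, ∑ y : Fin n → Q, (m * hb σ (fun i => bl (σ (y i))) ^ 2 +
          ∑ x : Q, (h σ (Fin.cons (bl (σ x)) (fun i => bl (σ (y i)))) -
            hb σ (fun i => bl (σ (y i)))) ^ 2) =
        m * (∑ σ : Equiv.Perm Q, ∑ y : Fin n → Q, hb σ (fun i => bl (σ (y i))) ^ 2) +
        ∑ y : Fin n → Q, ∑ σ : Equiv.Perm Q, ∑ x : Q,
          (h σ (Fin.cons (bl (σ x)) (fun i => bl (σ (y i)))) -
            hb σ (fun i => bl (σ (y i)))) ^ 2 := by
      rw [Finset.sum_comm (s := (Finset.univ : Finset (Fin n → Q))), Finset.mul_sum,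
        ← Finset.sum_add_distrib]
      refine Finset.sum_congr rfl fun σ _ => ?_
      rw [Finset.sum_add_distrib, ← Finset.mul_sum]
    rw [← Finset.mul_sum, Finset.sum_add_distrib] at h4
    rw [k1, k2, k3]
    have h5 := mul_le_mul_of_nonneg_left h1 hm0.le
    linarith

end

section Game

variable {Q Z : Type} [Fintype Q] [DecidableEq Q] [Fintype Z] [DecidableEq Z]

/-- Edges of the random partition game. -/
abbrev PE (Q : Type) (n : ℕ) := Equiv.Perm Q × (Fin n → Q)

/-- Right endpoint. -/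
def pt (bl : Q → Z) {n : ℕ} (e : PE Q n) : Equiv.Perm Q × (Fin n → Z) :=
  (e.1, fun i => bl (e.1 (e.2 i)))

theorem perm_hasGap (bl : Q → Z) (d : ℕ) (hd : 1 ≤ d)
    (hbl : ∀ z, (Finset.univ.filter fun q => bl q = z).card = d) (hQ : 0 < Fintype.card Q)
    (n : ℕ) : HasGap (fun e : PE Q n => e.2) (pt bl) (1 - 1 / Real.sqrt d) := by
  intro g h hg _
  have hg0 : ∑ f, g f = 0 := by
    rw [Fintype.sum_prod_type] at hg
    simp only [Finset.sum_const, nsmul_eq_mul] at hg
    rcases mul_eq_zero.mp hg with h1 | h1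
    · exfalso
      have : Nonempty (Equiv.Perm Q) := ⟨1⟩
      have h2 : 0 < (Finset.univ : Finset (Equiv.Perm Q)).card := Finset.card_pos.mpr
        Finset.univ_nonempty
      have h3 : ((Finset.univ : Finset (Equiv.Perm Q)).card : ℝ) ≠ 0 := by
        exact_mod_cast h2.ne'
      exact h3 h1
    · exact h1
  have h1 := perm_gap bl d hd hbl hQ n g (fun σ w => h (σ, w)) hg0
  rw [← Finset.mul_sum] at h1
  have h2 : (1 : ℝ) - (1 - 1 / Real.sqrt d) = 1 / Real.sqrt d := by ring
  rw [h2]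
  simp only [Fintype.sum_prod_type]
  exact h1

/-- Pairwise agreement of coordinate labelings. -/
theorem perm_agree (n : ℕ) (i j : Fin n) (hij : i ≠ j) :
    (Finset.univ.filter fun e : PE Q n => e.2 i = e.2 j).card * Fintype.card Q ≤
      Fintype.card (PE Q n) := by
  rw [← Finset.card_univ (α := Q), ← Finset.card_product]
  rw [← Finset.card_univ (α := PE Q n)]
  apply Finset.card_le_card_of_injOn (fun p => (p.1.1, Function.update p.1.2 i p.2))
  · intro p _
    exact Finset.mem_coe.mpr (Finset.mem_univ _)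
  · rintro ⟨⟨σ, f⟩, c⟩ hp ⟨⟨σ', f'⟩, c'⟩ hp' heq
    rw [Finset.mem_coe, Finset.mem_product, Finset.mem_filter] at hp hp'
    have e1 : f i = f j := hp.1.2
    have e2 : f' i = f' j := hp'.1.2
    simp only [Prod.mk.injEq] at heq
    obtain ⟨h1, h2⟩ := heq
    have h3 : c = c' := by
      have := congrFun h2 i
      simpa using this
    have h4 : ∀ l, l ≠ i → f l = f' l := by
      intro l hl
      have := congrFun h2 l
      rwa [Function.update_of_ne hl, Function.update_of_ne hl] at this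
    have h5 : f = f' := by
      funext l
      by_cases hl : l = i
      · rw [hl, e1, e2]
        exact h4 j (Ne.symm hij)
      · exact h4 l hl
    rw [h1, h3, h5]

end Game

end Pool.Agent.H562R2
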